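import Mathlib

/-!
# Bases of finite abelian groups: definition
-/

set_option autoImplicit false

namespace Pool.Agent.Lib_helper56.UB

/-- Every element of `G` is a sum of at most `s` elements of `A`, repetitions allowed, the empty
sum included. -/
def IsBasis {G : Type} [AddCommGroup G] (A : Finset G) (s : ℕ) : Prop :=
  ∀ x : G, ∃ S : Multiset G, (∀ y ∈ S, y ∈ A) ∧ Multiset.card S ≤ s ∧ S.sum = x

end Pool.Agent.Lib_helper56.UB
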