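import Pool.Agent.Lib_helper56.UB.Numeric

/-!
# The upper bound
-/

set_option autoImplicit false

namespace Pool.Agent.Lib_helper56.UB

open Real

section

variable {m : ℕ} {G : Type} [AddCommGroup G] [Fintype G] [DecidableEq G]

/-- The bound with the parameter `t`. -/
theorem main_t (a : Fin (m + 1) → G) {i0 : Fin (m + 1)} (h0 : a i0 = 0) {s t : ℕ}
    (hfull : Sg a s = Finset.univ) {ε L : ℝ} (hε : 0 < ε) (hε2 : ε ≤ 1 / 2)
    (hL : L = Real.log m) (hL1 : 1000 / ε ^ 2 ≤ L) (hmL : 8 * L ^ 3 ≤ ε ^ 2 * m) (ht : 1 ≤ t)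
    (hts : t ≤ s) (hu2 : L ^ 3 / (4 * √m) ≤ 1 - Pr m t s) :
    (1 - ε) * Fintype.card G ≤ Nn (m + 1) s * (1 - Pr m t s) := by
  have hn : (0 : ℝ) < Fintype.card G := by
    exact_mod_cast Fintype.card_pos_iff.2 ⟨(0 : G)⟩
  have hnA : (Fintype.card G : ℝ) ≤ Nn (m + 1) s := by
    have h1 := card_Sg_le a s
    rw [hfull, Finset.card_univ] at h1
    exact_mod_cast h1
  have hN : (0 : ℝ) < Nn (m + 1) s := Nn_pos' m s
  by_contra hc
  rw [not_le] at hc
  by_cases hu1 : 1 - Pr m t s < 1 - ε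
  · obtain ⟨J, r, l, w, η, hJ, hr, hl, hw, hw0, hη, hη1, hA, hcond⟩ :=
      numeric hε hε2 hL hL1 hmL ht hts hn hnA hu1 hu2 hc
    exact core a h0 hfull hJ hr hl hw hw0 hη hη1 hA hcond
  · rw [not_lt] at hu1
    have h1 : (Nn (m + 1) s : ℝ) * (1 - ε) ≤ Nn (m + 1) s * (1 - Pr m t s) :=
      mul_le_mul_of_nonneg_left hu1 hN.le
    have h2 : (1 - ε) * (Fintype.card G : ℝ) ≤ (1 - ε) * Nn (m + 1) s :=
      mul_le_mul_of_nonneg_left hnA (by linarith)
    linarith

end

theorem log_le_two_mul {x : ℝ} (h0 : 0 ≤ x) (h1 : x ≤ 1 / 4) :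
    exp (-(4 / 3 * x)) ≤ 1 - x := by
  have h2 := exp_neg_div_le (x := x) (by linarith)
  refine (exp_le_exp.2 ?_).trans h2
  rw [neg_le_neg_iff, div_le_iff₀ (by linarith)]
  nlinarith

/-- The choice of `t`. -/
theorem exists_t {m s : ℕ} (hm : 1 ≤ m) (hs : 1 ≤ s) {B : ℝ} (hB : 1 ≤ B) :
    ∃ t : ℕ, 1 ≤ t ∧ t ≤ s ∧ 1 / (4 * B) ≤ 1 - Pr m t s ∧
      min (1 + (s : ℝ) / m) B * (1 - Pr m t s) ≤ 1 := by
  have hmR : (1 : ℝ) ≤ m := by exact_mod_cast hm
  have hsR : (1 : ℝ) ≤ s := by exact_mod_cast hs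
  have hBpos : 0 < B := by linarith
  have hu1 : 1 - Pr m 1 s = (m : ℝ) / ((s : ℝ) + m) := by
    have h2 := Pr_succ m (t := 0) (J := s) (by omega)
    rw [Pr_zero, one_mul, Nat.zero_add, Nat.cast_zero, sub_zero] at h2
    rw [h2]
    ring
  by_cases h1 : 1 / (4 * B) ≤ (m : ℝ) / ((s : ℝ) + m)
  · refine ⟨1, le_rfl, hs, by rw [hu1]; exact h1, ?_⟩
    rw [hu1]
    have h2 : (1 + (s : ℝ) / m) * ((m : ℝ) / ((s : ℝ) + m)) = 1 := by
      field_simp
      ring
    have h3 : 0 ≤ (m : ℝ) / ((s : ℝ) + m) := by positivity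
    calc min (1 + (s : ℝ) / m) B * ((m : ℝ) / ((s : ℝ) + m))
        ≤ (1 + (s : ℝ) / m) * ((m : ℝ) / ((s : ℝ) + m)) :=
          mul_le_mul_of_nonneg_right (min_le_left _ _) h3
      _ = 1 := h2
  · rw [not_le] at h1
    classical
    have hB4 : 1 / (4 * B) ≤ 1 / B := by
      refine div_le_div_of_nonneg_left (by norm_num) hBpos (by linarith)
    have hP1 : 1 - Pr m 1 s ≤ 1 / B := by
      rw [hu1]
      linarith
    set t := Nat.findGreatest (fun t => 1 - Pr m t s ≤ 1 / B) s with ht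
    have ht1 : 1 ≤ t := Nat.le_findGreatest hs hP1
    have hts : t ≤ s := Nat.findGreatest_le s
    have htB : 1 - Pr m t s ≤ 1 / B := Nat.findGreatest_spec (P := fun t => 1 - Pr m t s ≤ 1 / B)
      hs hP1
    have hmax : ∀ t', t < t' → t' ≤ s → ¬ (1 - Pr m t' s ≤ 1 / B) := fun t' h2 h3 =>
      Nat.findGreatest_is_greatest (P := fun t => 1 - Pr m t s ≤ 1 / B) h2 h3
    clear_value t
    have hu0 : 0 ≤ 1 - Pr m t s := by
      have := Pr_le_one m t s
      linarith
    refine ⟨t, ht1, hts, ?_, ?_⟩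
    · by_contra h2
      rw [not_le] at h2
      have hB1 : 1 / (4 * B) ≤ 1 / 4 :=
        div_le_div_of_nonneg_left (by norm_num) (by norm_num) (by linarith)
      rcases Nat.lt_or_ge t s with h3 | h3
      · have h4 := hmax (t + 1) (by omega) (by omega)
        rw [not_le, Pr_succ m (by omega : t + 1 ≤ s)] at h4
        have h5 := Pr_le_exp m hts (by omega)
        have h6 := log_le_two_mul hu0 (by linarith)
        rw [sub_sub_cancel] at h6
        have h7 := exp_le_exp.1 (h6.trans h5)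
        have h8 : (t : ℝ) * (m / ((s : ℝ) + m)) ≤ 1 / 3 := by linarith
        have h9 : (t : ℝ) * m ≤ 1 / 3 * ((s : ℝ) + m) := by
          rw [← mul_div_assoc, div_le_iff₀ (by positivity)] at h8
          exact h8
        have h10 : (t : ℝ) ≤ 1 / 3 * ((s : ℝ) + m) := by
          have : (t : ℝ) * 1 ≤ t * m := mul_le_mul_of_nonneg_left hmR (Nat.cast_nonneg t)
          linarith
        have h11 : (m : ℝ) / ((s : ℝ) - t + m) ≤ 2 * (m / ((s : ℝ) + m)) := by
          have h12 : 0 < (s : ℝ) + m := by positivity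
          have h13 : 0 < (s : ℝ) - t + m := by linarith
          rw [div_le_iff₀ h13]
          have h14 : 2 * ((m : ℝ) / ((s : ℝ) + m)) * ((s : ℝ) - t + m) =
              m / ((s : ℝ) + m) * (2 * ((s : ℝ) - t + m)) := by ring
          rw [h14]
          have h15 : (m : ℝ) = m / ((s : ℝ) + m) * ((s : ℝ) + m) := by field_simp
          have h16 : (m : ℝ) / ((s : ℝ) + m) * ((s : ℝ) + m) ≤
              m / ((s : ℝ) + m) * (2 * ((s : ℝ) - t + m)) :=
            mul_le_mul_of_nonneg_left (by linarith) (by positivity)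
          linarith
        have h17 : Pr m t s * (m / ((s : ℝ) - t + m)) ≤ m / ((s : ℝ) - t + m) := by
          have h13 : 0 < (s : ℝ) - t + m := by linarith
          have := mul_le_mul_of_nonneg_right (Pr_le_one m t s)
            (by positivity : 0 ≤ (m : ℝ) / ((s : ℝ) - t + m))
          linarith
        have h18 : 1 - Pr m t s * (1 - m / ((s : ℝ) - t + m)) =
            (1 - Pr m t s) + Pr m t s * (m / ((s : ℝ) - t + m)) := by ring
        rw [h18] at h4
        have h19 : 1 / B = 4 * (1 / (4 * B)) := by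
          field_simp
        linarith
      · have h4 : t = s := le_antisymm hts h3
        subst h4
        have h5 : Pr m t t ≤ 1 / 2 := by
          have h6 := Pr_anti m t ht1
          have h7 := Pr_succ m (t := 0) (J := t) (by omega)
          unfold Pr
          rw [Nat.sub_self]
          have h8 : (2 : ℝ) ≤ Nn (m + 1) t := by
            have h9 : 2 ≤ Nn (m + 1) t := by
              rw [Nn_succ_left]
              have h10 : (m + t).choose t ≥ (1 + t).choose t :=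
                Nat.choose_le_choose t (by omega)
              have h11 : (1 + t).choose t = t + 1 := by
                rw [add_comm, Nat.choose_succ_self_right]
              omega
            exact_mod_cast h9
          have h9 : (Nn (m + 1) 0 : ℝ) = 1 := by
            rw [Nn_succ_left]
            simp
          rw [h9]
          exact div_le_div_of_nonneg_left (by norm_num) (by norm_num) h8
        linarith
    · calc min (1 + (s : ℝ) / m) B * (1 - Pr m t s) ≤ B * (1 - Pr m t s) :=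
            mul_le_mul_of_nonneg_right (min_le_right _ _) hu0
        _ ≤ B * (1 / B) := mul_le_mul_of_nonneg_left htB hBpos.le
        _ = 1 := by field_simp

section

variable {m : ℕ} {G : Type} [AddCommGroup G] [Fintype G] [DecidableEq G]

theorem main_min (a : Fin (m + 1) → G) {i0 : Fin (m + 1)} (h0 : a i0 = 0) {s : ℕ} (hs : 1 ≤ s)
    (hfull : Sg a s = Finset.univ) {ε L : ℝ} (hε : 0 < ε) (hε2 : ε ≤ 1 / 2)
    (hL : L = Real.log m) (hL1 : 1000 / ε ^ 2 ≤ L) (hmL : 8 * L ^ 3 ≤ ε ^ 2 * m)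
    (hLm : L ^ 3 ≤ √m) :
    (1 - ε) * min (1 + (s : ℝ) / m) (√m / L ^ 3) * Fintype.card G ≤ Nn (m + 1) s := by
  have hLpos : 0 < L := lt_of_lt_of_le (by positivity) hL1
  have hmpos : (0 : ℝ) < m := by
    by_contra h
    have h1 : (m : ℝ) = 0 := le_antisymm (not_lt.1 h) (Nat.cast_nonneg m)
    rw [h1, Real.log_zero] at hL
    linarith
  have hm : 1 ≤ m := by
    have : 0 < m := by exact_mod_cast hmpos
    omega
  have hL3 : 0 < L ^ 3 := by positivity
  have hB : 1 ≤ √m / L ^ 3 := by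
    rw [le_div_iff₀ hL3]
    linarith
  obtain ⟨t, ht, hts, hu, hmin⟩ := exists_t hm hs hB
  have hRpos : 0 < √(m : ℝ) := Real.sqrt_pos.2 hmpos
  have h1 : 1 / (4 * (√m / L ^ 3)) = L ^ 3 / (4 * √m) := by
    field_simp
  rw [h1] at hu
  have h2 := main_t a h0 hfull hε hε2 hL hL1 hmL ht hts hu
  have h3 : 0 ≤ min (1 + (s : ℝ) / m) (√m / L ^ 3) :=
    le_min (by positivity) (by positivity)
  have hN : (0 : ℝ) < Nn (m + 1) s := Nn_pos' m s
  calc (1 - ε) * min (1 + (s : ℝ) / m) (√m / L ^ 3) * Fintype.card G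
      = min (1 + (s : ℝ) / m) (√m / L ^ 3) * ((1 - ε) * Fintype.card G) := by ring
    _ ≤ min (1 + (s : ℝ) / m) (√m / L ^ 3) * (Nn (m + 1) s * (1 - Pr m t s)) :=
        mul_le_mul_of_nonneg_left h2 h3
    _ = Nn (m + 1) s * (min (1 + (s : ℝ) / m) (√m / L ^ 3) * (1 - Pr m t s)) := by ring
    _ ≤ Nn (m + 1) s * 1 := mul_le_mul_of_nonneg_left hmin hN.le
    _ = Nn (m + 1) s := mul_one _

/-- Every sum of at most `s` elements of `A` is the value of a vector. -/
theorem mem_Sg_of_multiset {k : ℕ} (a : Fin k → G) {i0 : Fin k} (h0 : a i0 = 0)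
    (M : Multiset G) (hM : ∀ x ∈ M, ∃ i, a i = x) : M.sum ∈ Sg a (Multiset.card M) := by
  induction M using Multiset.induction_on with
  | empty =>
    rw [mem_Sg]
    refine ⟨0, by simp, ?_⟩
    simp [phi]
  | cons x M ih =>
    have h1 := ih fun y hy => hM y (Multiset.mem_cons_of_mem hy)
    obtain ⟨i, hi⟩ := hM x (Multiset.mem_cons_self x M)
    have h2 := Sg_add h1 i 1
    rw [one_smul, hi] at h2
    rw [Multiset.sum_cons, Multiset.card_cons, add_comm x]
    exact h2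

theorem exists_fun (A : Finset G) (hA : A.card ≤ m) :
    ∃ a : Fin (m + 1) → G, a 0 = 0 ∧ ∀ x ∈ A, ∃ i, a i = x := by
  classical
  refine ⟨Fin.cons 0 fun i : Fin m => if h : i.val < A.card then
    (A.equivFin.symm ⟨i.val, h⟩ : G) else 0, by simp, ?_⟩
  intro x hx
  have h1 := (A.equivFin ⟨x, hx⟩).isLt
  refine ⟨Fin.succ ⟨(A.equivFin ⟨x, hx⟩).val, by omega⟩, ?_⟩
  rw [Fin.cons_succ]
  rw [dif_pos h1]
  simp

theorem main_set (A : Finset G) (hA : A.card ≤ m) {s : ℕ} (hs : 1 ≤ s)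
    (hfull : ∀ x : G, ∃ M : Multiset G, (∀ y ∈ M, y ∈ A) ∧ Multiset.card M ≤ s ∧ M.sum = x)
    {ε L : ℝ} (hε : 0 < ε) (hε2 : ε ≤ 1 / 2)
    (hL : L = Real.log m) (hL1 : 1000 / ε ^ 2 ≤ L) (hmL : 8 * L ^ 3 ≤ ε ^ 2 * m)
    (hLm : L ^ 3 ≤ √m) :
    (1 - ε) * min (1 + (s : ℝ) / m) (√m / L ^ 3) * Fintype.card G ≤ (m + s).choose s := by
  obtain ⟨a, h0, ha⟩ := exists_fun A hA
  rw [← Nn_succ_left]
  refine main_min a h0 hs ?_ hε hε2 hL hL1 hmL hLm
  ext x
  simp only [Finset.mem_univ, iff_true]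
  obtain ⟨M, hM, hMs, rfl⟩ := hfull x
  exact Sg_mono h0 hMs (mem_Sg_of_multiset a h0 M fun y hy => ha y (hM y hy))

end

/-- For all large `m` the numerical conditions hold. -/
theorem eventually_ok {ε : ℝ} (hε : 0 < ε) :
    ∃ M : ℕ, ∀ m : ℕ, M ≤ m → 1000 / ε ^ 2 ≤ Real.log m ∧
      8 * Real.log m ^ 3 ≤ ε ^ 2 * m ∧ Real.log m ^ 3 ≤ √m := by
  have h1 : ∀ᶠ m : ℕ in Filter.atTop, 1000 / ε ^ 2 ≤ Real.log m :=
    (Real.tendsto_log_atTop.comp tendsto_natCast_atTop_atTop).eventually_ge_atTop _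
  have h2 : ∀ᶠ m : ℕ in Filter.atTop, 8 * Real.log m ^ 3 ≤ ε ^ 2 * m := by
    have h3 := (isLittleO_pow_log_id_atTop (n := 3)).bound (c := ε ^ 2 / 8) (by positivity)
    have h4 := tendsto_natCast_atTop_atTop.eventually h3
    filter_upwards [h4, Filter.eventually_ge_atTop 1] with m h5 h6
    rw [id, Real.norm_of_nonneg (pow_nonneg (Real.log_natCast_nonneg m) 3),
      Real.norm_of_nonneg (Nat.cast_nonneg m)] at h5
    linarith
  have h3 : ∀ᶠ m : ℕ in Filter.atTop, Real.log m ^ 3 ≤ √m := by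
    have h3 := (isLittleO_pow_log_id_atTop (n := 6)).bound (c := 1) (by norm_num)
    have h4 := tendsto_natCast_atTop_atTop.eventually h3
    filter_upwards [h4, Filter.eventually_ge_atTop 1] with m h5 h6
    rw [id, Real.norm_of_nonneg (pow_nonneg (Real.log_natCast_nonneg m) 6),
      Real.norm_of_nonneg (Nat.cast_nonneg m), one_mul] at h5
    refine Real.le_sqrt_of_sq_le ?_
    rw [← pow_mul]
    exact h5
  obtain ⟨M, hM⟩ := Filter.eventually_atTop.1 ((h1.and h2).and h3)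
  exact ⟨M, fun m hm => ⟨(hM m hm).1.1, (hM m hm).1.2, (hM m hm).2⟩⟩

/-- The upper bound for the order of a finite abelian group with an `s`-basis of at most `m`
elements. -/
theorem upper {ε : ℝ} (hε : 0 < ε) :
    ∃ M : ℕ, ∀ m : ℕ, M ≤ m → ∀ s : ℕ, 1 ≤ s → ∀ (G : Type) [AddCommGroup G] [Finite G]
      (A : Finset G), A.card ≤ m →
      (∀ x : G, ∃ S : Multiset G, (∀ y ∈ S, y ∈ A) ∧ Multiset.card S ≤ s ∧ S.sum = x) →
      (1 - ε) * min (1 + (s : ℝ) / m) (√m / Real.log m ^ 3) * Nat.card G ≤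
        (m + s).choose s := by
  obtain ⟨M, hM⟩ := eventually_ok (ε := min ε (1 / 2)) (lt_min hε (by norm_num))
  refine ⟨M, fun m hm s hs G _ _ A hA hfull => ?_⟩
  classical
  have : Fintype G := Fintype.ofFinite G
  obtain ⟨h1, h2, h3⟩ := hM m hm
  have h4 := main_set A hA hs hfull (lt_min hε (by norm_num)) (min_le_right ε (1 / 2)) rfl h1 h2
    h3
  rw [Nat.card_eq_fintype_card]
  refine le_trans ?_ h4
  have h5 : 0 ≤ min (1 + (s : ℝ) / m) (√m / Real.log m ^ 3) :=
    le_min (by positivity) (div_nonneg (Real.sqrt_nonneg _)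
      (pow_nonneg (Real.log_natCast_nonneg m) 3))
  refine mul_le_mul_of_nonneg_right (mul_le_mul_of_nonneg_right ?_ h5) (Nat.cast_nonneg _)
  have := min_le_left ε (1 / 2)
  linarith

end Pool.Agent.Lib_helper56.UB
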