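import Pool.Agent.Lib_helper56.UB.One
import Pool.Agent.Lib_helper56.UB.Main

/-!
# The upper bound for all `m` and `s`
-/

set_option autoImplicit false

namespace Pool.Agent.Lib_helper56.UB

open Finset

theorem case_two {κ p q ν α β ξ : ℝ} (hκ : 2 / 3 ≤ κ) (hν : ν = 1 - ξ) (hξ0 : 0 ≤ ξ)
    (hξ : ξ ≤ 1 / 1000) (hα : ν * p ≤ α) (hα' : α ≤ p) (hβ : ν * q ≤ β) (hβ' : β ≤ q)
    (hp1 : 2 / 3 ≤ p) (hp2 : p ≤ 6 / 7) (hq : q ≤ p * p)
    (hmain : (κ * (p - q) - 2 * ξ) * (ν - β) ≤ (α - β) * (ν - α)) : False := by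
  obtain ⟨u, hu⟩ : ∃ u : ℝ, u = 1 - p := ⟨_, rfl⟩
  obtain ⟨g, hg⟩ : ∃ g : ℝ, g = p - q := ⟨_, rfl⟩
  have hu1 : 1 / 7 ≤ u := by linarith
  have hu2 : u ≤ 1 / 3 := by linarith
  have hpu : 2 / 3 * u ≤ p * u := mul_le_mul_of_nonneg_right hp1 (by linarith)
  have hpu' : p * u = p - p * p := by rw [hu]; ring
  have hg1 : 2 / 3 * u ≤ g := by linarith
  have hq1 : 5 / 3 * u ≤ 1 - q := by
    have h1 : (1 - p) * (1 + p) = 1 - p * p := by ring
    have h2 : u * (5 / 3) ≤ u * (1 + p) := mul_le_mul_of_nonneg_left (by linarith) (by linarith)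
    have h3 : u * (1 + p) = 1 - p * p := by rw [hu]; ring
    linarith
  have h1 : α - β ≤ g + ξ := by
    have h2 : ν * q = q - ξ * q := by rw [hν]; ring
    have h3 : ξ * q ≤ ξ * 1 := mul_le_mul_of_nonneg_left (by linarith) hξ0
    linarith
  have h2 : ν - α ≤ u := by
    have h3 : ν - ν * p = u - ξ * u := by rw [hν, hu]; ring
    have h4 : 0 ≤ ξ * u := mul_nonneg hξ0 (by linarith)
    linarith
  have h3 : 5 / 3 * u - ξ ≤ ν - β := by linarith
  have h4 : 2 / 3 * g - 2 * ξ ≤ κ * (p - q) - 2 * ξ := by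
    have := mul_le_mul_of_nonneg_right hκ (by linarith : 0 ≤ p - q)
    rw [← hg] at this ⊢
    linarith
  have h5 : (2 / 3 * g - 2 * ξ) * (5 / 3 * u - ξ) ≤ (κ * (p - q) - 2 * ξ) * (ν - β) :=
    mul_le_mul h4 h3 (by linarith) (by linarith)
  have h6 : (α - β) * (ν - α) ≤ (g + ξ) * u := by
    calc (α - β) * (ν - α) ≤ (g + ξ) * (ν - α) :=
          mul_le_mul_of_nonneg_right h1 (by linarith)
      _ ≤ (g + ξ) * u := mul_le_mul_of_nonneg_left h2 (by linarith)
  have h7 : 0 < g * u := mul_pos (by linarith) (by linarith)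
  have h8 : g * ξ ≤ 7 / 1000 * (g * u) := by
    have h9 : g * ξ ≤ g * (7 / 1000 * u) := mul_le_mul_of_nonneg_left (by linarith) (by linarith)
    linarith
  have h9 : u * ξ ≤ 21 / 2000 * (g * u) := by
    have h10 : u * ξ ≤ u * (21 / 2000 * g) := mul_le_mul_of_nonneg_left (by linarith) (by linarith)
    linarith
  have h10 : (2 / 3 * g - 2 * ξ) * (5 / 3 * u - ξ) =
      10 / 9 * (g * u) - 2 / 3 * (g * ξ) - 10 / 3 * (u * ξ) + 2 * (ξ * ξ) := by ring
  have h11 : (g + ξ) * u = g * u + u * ξ := by ring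
  have h12 : 0 ≤ ξ * ξ := mul_nonneg hξ0 hξ0
  rw [h10] at h5
  rw [h11] at h6
  linarith

theorem case_one {m s p q ν α β ξ h x : ℝ} (hm : 2 ≤ m) (hs : 2 ≤ s) (hsm : s ≤ 2 * m)
    (hν : ν = 1 - ξ) (hξ0 : 0 ≤ ξ) (hξ : ξ ≤ x / 1000) (hx : x ≤ 1) (hx' : x * m ≤ s)
    (hα : ν * p ≤ α) (hα' : α ≤ p) (hβ : ν * q ≤ β) (hβ' : β ≤ q) (hβ0 : 0 ≤ β)
    (hp : p * (m + s) = s) (hq : q * (m + s - 1) = (s - 1) * p)
    (hh0 : 0 ≤ h) (hh1 : h ≤ s) (hh2 : h ≤ m + 1)
    (hmain : ((m + 1) * m * (p - q) - ξ * (h * (m + 1 + h))) * (ν - β) ≤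
      (m + 1) ^ 2 * ((α - β) * (ν - α))) : False := by
  have hms : 0 < m + s := by linarith
  have hms1 : 0 < m + s - 1 := by linarith
  have hp0 : 0 < p := by
    by_contra hcon
    have := mul_nonpos_of_nonpos_of_nonneg (not_lt.1 hcon) hms.le
    linarith
  have hp1 : p < 1 := by
    by_contra hcon
    have := mul_le_mul_of_nonneg_right (not_lt.1 hcon) hms.le
    linarith
  have hq0 : 0 ≤ q := hβ0.trans hβ'
  have hq1 : q ≤ p := by
    by_contra hcon
    rw [not_le] at hcon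
    have h1 := mul_lt_mul_of_pos_right hcon hms1
    have h2 : (s - 1) * p ≤ (m + s - 1) * p := mul_le_mul_of_nonneg_right (by linarith) hp0.le
    linarith
  obtain ⟨g, hg⟩ : ∃ g : ℝ, g = p - q := ⟨_, rfl⟩
  have hg0 : 0 ≤ g := by linarith
  -- `g (m + s - 1) = m p`
  have hg1 : g * (m + s - 1) = m * p := by
    rw [hg]
    have : (p - q) * (m + s - 1) = p * (m + s - 1) - q * (m + s - 1) := by ring
    rw [this, hq]
    ring
  have h1p : (1 - p) * (m + s) = m := by
    have : (1 - p) * (m + s) = (m + s) - p * (m + s) := by ring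
    rw [this, hp]
    ring
  have hgW : g * ((m + s) * (m + s - 1)) = s * m := by
    calc g * ((m + s) * (m + s - 1)) = g * (m + s - 1) * (m + s) := by ring
      _ = m * (p * (m + s)) := by rw [hg1]; ring
      _ = s * m := by rw [hp]; ring
  obtain ⟨y, hy⟩ : ∃ y : ℝ, y = m * g - (1 - p) := ⟨_, rfl⟩
  have hyW : y * ((m + s) * (m + s - 1)) = m * ((m - 1) * (s - 1)) := by
    have h1 : y * ((m + s) * (m + s - 1)) = m * (g * ((m + s) * (m + s - 1))) -
        (1 - p) * (m + s) * (m + s - 1) := by rw [hy]; ring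
    rw [h1, hgW, h1p]
    ring
  have hW : 0 < (m + s) * (m + s - 1) := mul_pos hms hms1
  have hν1 : ν ≤ 1 := by linarith
  have hξ1 : ξ ≤ 1 / 1000 := by linarith
  -- reduce the main inequality
  have h2 : h * (m + 1 + h) ≤ s * (2 * (m + 1)) := by
    exact mul_le_mul hh1 (by linarith) (by linarith) (by linarith)
  have hνβ0 : 0 ≤ ν - β := by
    have h3 : q ≤ s / (m + s) := by
      rw [le_div_iff₀ hms]
      have := mul_le_mul_of_nonneg_right hq1 hms.le
      linarith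
    have h4 : s / (m + s) ≤ 2 / 3 := by
      rw [div_le_div_iff₀ hms (by norm_num)]
      linarith
    linarith
  have h3 : (m + 1) * ((m * g - 2 * ξ * s) * (ν - β)) ≤ (m + 1) * ((m + 1) *
      ((α - β) * (ν - α))) := by
    have h4 : ξ * (h * (m + 1 + h)) ≤ ξ * (s * (2 * (m + 1))) := mul_le_mul_of_nonneg_left h2 hξ0
    have h5 : ((m + 1) * m * (p - q) - ξ * (s * (2 * (m + 1)))) * (ν - β) ≤
        ((m + 1) * m * (p - q) - ξ * (h * (m + 1 + h))) * (ν - β) :=
      mul_le_mul_of_nonneg_right (by linarith) hνβ0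
    have h6 := h5.trans hmain
    have h7 : ((m + 1) * m * (p - q) - ξ * (s * (2 * (m + 1)))) * (ν - β) =
        (m + 1) * ((m * g - 2 * ξ * s) * (ν - β)) := by rw [hg]; ring
    have h8 : (m + 1) ^ 2 * ((α - β) * (ν - α)) = (m + 1) * ((m + 1) *
      ((α - β) * (ν - α))) := by ring
    rw [h7, h8] at h6
    exact h6
  have h4 := le_of_mul_le_mul_left h3 (by linarith)
  have hmg0 : 0 ≤ m * g := mul_nonneg (by linarith) hg0
  have hξs : 0 ≤ 2 * ξ * s := mul_nonneg (by linarith) (by linarith)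
  have h5 : m * g * (1 - ξ - q) - 2 * ξ * s ≤ (m * g - 2 * ξ * s) * (ν - β) := by
    have h6 : m * g * (1 - ξ - q) ≤ m * g * (ν - β) :=
      mul_le_mul_of_nonneg_left (by linarith) hmg0
    have h7 : 2 * ξ * s * (ν - β) ≤ 2 * ξ * s * 1 :=
      mul_le_mul_of_nonneg_left (by linarith) hξs
    have h8 : (m * g - 2 * ξ * s) * (ν - β) = m * g * (ν - β) - 2 * ξ * s * (ν - β) := by ring
    rw [h8]
    linarith
  have h6 : (α - β) * (ν - α) ≤ (g + ξ * q) * (1 - p) := by
    have h7 : α - β ≤ g + ξ * q := by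
      have h8 : ν * q = q - ξ * q := by rw [hν]; ring
      linarith
    have h8 : ν - α ≤ 1 - p := by
      have h9 : ν - ν * p = (1 - p) - ξ * (1 - p) := by rw [hν]; ring
      have h10 : 0 ≤ ξ * (1 - p) := mul_nonneg hξ0 (by linarith)
      linarith
    have h9 : 0 ≤ ν - α := by
      have h3 : p ≤ 2 / 3 := by
        by_contra hcon
        rw [not_le] at hcon
        have := mul_lt_mul_of_pos_right hcon hms
        linarith
      linarith
    have h10 : 0 ≤ g + ξ * q := add_nonneg hg0 (mul_nonneg hξ0 hq0)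
    calc (α - β) * (ν - α) ≤ (g + ξ * q) * (ν - α) := mul_le_mul_of_nonneg_right h7 h9
      _ ≤ (g + ξ * q) * (1 - p) := mul_le_mul_of_nonneg_left h8 h10
  have h7 : m * g * (1 - ξ - q) - 2 * ξ * s ≤ (m + 1) * ((g + ξ * q) * (1 - p)) :=
    h5.trans (h4.trans (mul_le_mul_of_nonneg_left h6 (by linarith)))
  -- `g y ≤ 4 ξ s`
  have h8 : g * y ≤ 4 * ξ * s := by
    have h9 : g * y = m * g * (1 - q) - (m + 1) * (g * (1 - p)) := by
      rw [hy, hg]
      ring
    have h10 : m * g * ξ ≤ s * ξ := by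
      refine mul_le_mul_of_nonneg_right ?_ hξ0
      have h11 : m * g * ((m + s) * (m + s - 1)) ≤ s * ((m + s) * (m + s - 1)) := by
        have h12 : m * g * ((m + s) * (m + s - 1)) = m * (g * ((m + s) * (m + s - 1))) := by ring
        rw [h12, hgW]
        have h13 : m * m ≤ (m + s) * (m + s - 1) :=
          mul_le_mul (by linarith) (by linarith) (by linarith) hms.le
        have h14 := mul_le_mul_of_nonneg_left h13 (by linarith : 0 ≤ s)
        linarith
      exact le_of_mul_le_mul_right h11 hW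
    have h11 : (m + 1) * (ξ * q * (1 - p)) ≤ s * ξ := by
      have h12 : (m + 1) * (1 - p) ≤ m := by
        have h13 : (m + 1) * (1 - p) * (m + s) ≤ m * (m + s) := by
          have h14 : (m + 1) * (1 - p) * (m + s) = (m + 1) * ((1 - p) * (m + s)) := by ring
          rw [h14, h1p]
          have h15 : m * (m + 1) ≤ m * (m + s) := mul_le_mul_of_nonneg_left (by linarith)
            (by linarith)
          linarith
        exact le_of_mul_le_mul_right h13 hms
      have h13 : q * m ≤ s := by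
        have h14 : q * m ≤ p * (m + s) := mul_le_mul hq1 (by linarith) (by linarith) hp0.le
        linarith
      calc (m + 1) * (ξ * q * (1 - p)) = ξ * q * ((m + 1) * (1 - p)) := by ring
        _ ≤ ξ * q * m := mul_le_mul_of_nonneg_left h12 (mul_nonneg hξ0 hq0)
        _ = ξ * (q * m) := by ring
        _ ≤ ξ * s := mul_le_mul_of_nonneg_left h13 hξ0
        _ = s * ξ := by ring
    have h12 : m * g * (1 - ξ - q) = m * g * (1 - q) - m * g * ξ := by ring
    have h13 : (m + 1) * ((g + ξ * q) * (1 - p)) = (m + 1) * (g * (1 - p)) +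
        (m + 1) * (ξ * q * (1 - p)) := by ring
    rw [h12, h13] at h7
    rw [h9]
    linarith
  -- multiply by the square of `W`
  obtain ⟨W, hWdef⟩ : ∃ W : ℝ, W = (m + s) * (m + s - 1) := ⟨_, rfl⟩
  rw [← hWdef] at hgW hyW hW
  have h9 : s * m * (m * ((m - 1) * (s - 1))) ≤ 4 * ξ * s * (W * W) := by
    have h10 := mul_le_mul_of_nonneg_right h8 (mul_pos hW hW).le
    have h11 : g * y * (W * W) = (g * W) * (y * W) := by ring
    rw [h11, hgW, hyW] at h10
    exact h10
  have h10 : m * m / 4 * s ≤ m * ((m - 1) * (s - 1)) := by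
    have h11 : m / 2 * (s / 2) ≤ (m - 1) * (s - 1) :=
      mul_le_mul (by linarith) (by linarith) (by linarith) (by linarith)
    have h12 := mul_le_mul_of_nonneg_left h11 (by linarith : 0 ≤ m)
    linarith
  have h11 : W ≤ (m + s) * (m + s) := by
    rw [hWdef]
    exact mul_le_mul_of_nonneg_left (by linarith) hms.le
  have h12 : W * W ≤ (m + s) * (m + s) * ((m + s) * (m + s)) :=
    mul_le_mul h11 h11 hW.le (by positivity)
  have h13 : 4 * ξ * (W * W) ≤ 4 * (x / 1000) * ((m + s) * (m + s) * ((m + s) * (m + s))) :=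
    mul_le_mul (by linarith) h12 (by positivity) (by linarith)
  have h14 : m * (m * m / 4 * s) ≤ 4 * ξ * (W * W) := by
    have h15 : s * (m * (m * m / 4 * s)) ≤ s * (4 * ξ * (W * W)) := by
      have h16 := mul_le_mul_of_nonneg_left h10 (by positivity : 0 ≤ s * m)
      have h17 : s * (m * (m * m / 4 * s)) = s * m * (m * m / 4 * s) := by ring
      rw [h17]
      have h18 : s * (4 * ξ * (W * W)) = 4 * ξ * s * (W * W) := by ring
      rw [h18]
      exact h16.trans h9
    exact le_of_mul_le_mul_left h15 (by linarith)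
  have h15 := h14.trans h13
  -- the final contradiction
  have hm3 : 0 < m * m * m := by positivity
  rcases le_total s m with h16 | h16
  · have h17 : (m + s) * (m + s) ≤ 2 * m * (2 * m) :=
      mul_le_mul (by linarith) (by linarith) hms.le (by linarith)
    have h18 : (m + s) * (m + s) * ((m + s) * (m + s)) ≤ 2 * m * (2 * m) * (2 * m * (2 * m)) :=
      mul_le_mul h17 h17 (by positivity) (by positivity)
    have hx0 : 0 ≤ x := by linarith
    have h19 : 4 * (x / 1000) * ((m + s) * (m + s) * ((m + s) * (m + s))) ≤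
        4 * (x / 1000) * (2 * m * (2 * m) * (2 * m * (2 * m))) :=
      mul_le_mul_of_nonneg_left h18 (by positivity)
    have h20 : 4 * (x / 1000) * (2 * m * (2 * m) * (2 * m * (2 * m))) =
        64 / 1000 * (m * m * m * (x * m)) := by ring
    have h21 : m * m * m * (x * m) ≤ m * m * m * s := mul_le_mul_of_nonneg_left hx' hm3.le
    have h22 : 0 < m * m * m * s := by positivity
    have h23 : m * (m * m / 4 * s) = 1 / 4 * (m * m * m * s) := by ring
    rw [h23] at h15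
    linarith
  · have h17 : (m + s) * (m + s) ≤ 3 * m * (3 * m) :=
      mul_le_mul (by linarith) (by linarith) hms.le (by linarith)
    have h18 : (m + s) * (m + s) ≤ 3 * m * (2 * s) :=
      mul_le_mul (by linarith) (by linarith) hms.le (by linarith)
    have h19 : (m + s) * (m + s) * ((m + s) * (m + s)) ≤ 3 * m * (3 * m) * (3 * m * (2 * s)) :=
      mul_le_mul h17 h18 (by positivity) (by positivity)
    have h20 : 4 * (x / 1000) * ((m + s) * (m + s) * ((m + s) * (m + s))) ≤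
        4 * (1 / 1000) * (3 * m * (3 * m) * (3 * m * (2 * s))) :=
      mul_le_mul (by linarith) h19 (by positivity) (by norm_num)
    have h21 : 4 * (1 / 1000) * (3 * m * (3 * m) * (3 * m * (2 * s))) =
        216 / 1000 * (m * m * m * s) := by ring
    have h22 : 0 < m * m * m * s := by positivity
    have h23 : m * (m * m / 4 * s) = 1 / 4 * (m * m * m * s) := by ring
    rw [h23] at h15
    linarith

/-- The choice of `t` in the second case. -/
theorem exists_t_two {m s : ℕ} (hm : 2 ≤ m) (hs : 2 * m ≤ s) :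
    ∃ t : ℕ, 1 ≤ t ∧ t + t ≤ s ∧ 2 / 3 ≤ Pr m t s ∧ Pr m t s ≤ 6 / 7 := by
  have hmR : (2 : ℝ) ≤ m := by exact_mod_cast hm
  have hsR : 2 * (m : ℝ) ≤ s := by exact_mod_cast hs
  have hu1 : 1 - Pr m 1 s = (m : ℝ) / ((s : ℝ) + m) := by
    have h2 := Pr_succ m (t := 0) (J := s) (by omega)
    rw [Pr_zero, one_mul, Nat.zero_add, Nat.cast_zero, sub_zero] at h2
    rw [h2]
    ring
  have hsm : (0 : ℝ) < (s : ℝ) + m := by linarith
  have hP1 : 2 / 3 ≤ Pr m 1 s := by
    have h1 : (m : ℝ) / ((s : ℝ) + m) ≤ 1 / 3 := by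
      rw [div_le_div_iff₀ hsm (by norm_num)]
      linarith
    linarith
  classical
  set t := Nat.findGreatest (fun t => 2 / 3 ≤ Pr m t s) s with ht
  have hs1 : 1 ≤ s := by omega
  have ht1 : 1 ≤ t := Nat.le_findGreatest hs1 hP1
  have hts : t ≤ s := Nat.findGreatest_le s
  have htB : 2 / 3 ≤ Pr m t s := Nat.findGreatest_spec (P := fun t => 2 / 3 ≤ Pr m t s) hs1 hP1
  have hmax : ∀ t', t < t' → t' ≤ s → ¬ (2 / 3 ≤ Pr m t' s) := fun t' h2 h3 =>
    Nat.findGreatest_is_greatest (P := fun t => 2 / 3 ≤ Pr m t s) h2 h3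
  clear_value t
  have h5 := Pr_le_exp m hts (by omega)
  have h6 : (t : ℝ) * (m / ((s : ℝ) + m)) ≤ 1 / 2 := by
    by_contra hcon
    rw [not_le] at hcon
    have h7 := Real.exp_lt_exp.2 (neg_lt_neg hcon)
    have h8 := Real.add_one_le_exp ((1 : ℝ) / 2)
    have h9 : Real.exp (-(1 / 2)) * Real.exp (1 / 2) = 1 := by
      rw [← Real.exp_add]
      simp
    have h10 := mul_le_mul_of_nonneg_left h8 (Real.exp_nonneg (-(1 / 2)))
    rw [h9] at h10
    linarith
  have h7 : (t : ℝ) * m ≤ 1 / 2 * ((s : ℝ) + m) := by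
    rw [← mul_div_assoc, div_le_iff₀ hsm] at h6
    exact h6
  have h8 : (t : ℝ) ≤ 1 / 4 * ((s : ℝ) + m) := by
    have : (t : ℝ) * 2 ≤ t * m := mul_le_mul_of_nonneg_left hmR (Nat.cast_nonneg t)
    linarith
  have h9 : t + t ≤ s := by
    have h10 : (t : ℝ) + t ≤ s := by linarith
    exact_mod_cast h10
  refine ⟨t, ht1, h9, htB, ?_⟩
  have h10 := hmax (t + 1) (by omega) (by omega)
  rw [not_le, Pr_succ m (by omega : t + 1 ≤ s)] at h10
  have h11 : (m : ℝ) / ((s : ℝ) - t + m) ≤ 4 / 3 * (m / ((s : ℝ) + m)) := by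
    have h13 : 0 < (s : ℝ) - t + m := by linarith
    rw [div_le_iff₀ h13]
    have h14 : 4 / 3 * ((m : ℝ) / ((s : ℝ) + m)) * ((s : ℝ) - t + m) =
        m / ((s : ℝ) + m) * (4 / 3 * ((s : ℝ) - t + m)) := by ring
    rw [h14]
    have h15 : (m : ℝ) = m / ((s : ℝ) + m) * ((s : ℝ) + m) := by field_simp
    have h16 : (m : ℝ) / ((s : ℝ) + m) * ((s : ℝ) + m) ≤
        m / ((s : ℝ) + m) * (4 / 3 * ((s : ℝ) - t + m)) :=
      mul_le_mul_of_nonneg_left (by linarith) (by positivity)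
    linarith
  have h17 : Pr m t s * (m / ((s : ℝ) - t + m)) ≤ m / ((s : ℝ) - t + m) := by
    have h13 : 0 < (s : ℝ) - t + m := by linarith
    have := mul_le_mul_of_nonneg_right (Pr_le_one m t s)
      (by positivity : 0 ≤ (m : ℝ) / ((s : ℝ) - t + m))
    linarith
  have h18 : Pr m t s * (1 - m / ((s : ℝ) - t + m)) =
      Pr m t s - Pr m t s * (m / ((s : ℝ) - t + m)) := by ring
  rw [h18] at h10
  have h19 : Pr m t s ≤ Pr m 1 s := by
    unfold Pr
    refine div_le_div_of_nonneg_right ?_ (Nn_pos' m s).le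
    exact_mod_cast Nn_mono (Nat.succ_pos m) (Nat.sub_le_sub_left ht1 s)
  linarith

section

variable {m : ℕ} {G : Type} [AddCommGroup G] [Fintype G] [DecidableEq G]

/-- The normalised form of the inequality for one step. -/
theorem one_norm (a : Fin (m + 1) → G) {t j : ℕ} {h : ℝ}
    (hfull : Sg a (j + t + t) = Finset.univ)
    (hh : ∀ v ∈ Dl (m + 1) (j + t + t), hn t v ≤ h) :
    ∃ p q ν α β : ℝ, p = (Nn (m + 1) (j + t) : ℝ) / Nn (m + 1) (j + t + t) ∧
      q = (Nn (m + 1) j : ℝ) / Nn (m + 1) (j + t + t) ∧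
      ν = (Fintype.card G : ℝ) / Nn (m + 1) (j + t + t) ∧ ν ≤ 1 ∧
      ν * p ≤ α ∧ α ≤ p ∧ ν * q ≤ β ∧ β ≤ q ∧ 0 ≤ β ∧
      (((m : ℝ) + 1) * m * (p - q) - (1 - ν) * (h * (m + 1 + h))) * (ν - β) ≤
        ((m : ℝ) + 1) ^ 2 * ((α - β) * (ν - α)) := by
  obtain ⟨N, hN⟩ : ∃ N : ℝ, N = Nn (m + 1) (j + t + t) := ⟨_, rfl⟩
  obtain ⟨P, hP⟩ : ∃ P : ℝ, P = Nn (m + 1) (j + t) := ⟨_, rfl⟩
  obtain ⟨Q, hQ⟩ : ∃ Q : ℝ, Q = Nn (m + 1) j := ⟨_, rfl⟩
  obtain ⟨n, hn⟩ : ∃ n : ℝ, n = Fintype.card G := ⟨_, rfl⟩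
  obtain ⟨A, hA⟩ : ∃ A : ℝ, A = (Sg a (j + t)).card := ⟨_, rfl⟩
  obtain ⟨B, hB⟩ : ∃ B : ℝ, B = (Sg a j).card := ⟨_, rfl⟩
  have hN0 : 0 < N := by rw [hN]; exact Nn_pos' m _
  have h1 := one_step a hfull hh
  have hnN : n ≤ N := by
    have h2 := card_Sg_le a (j + t + t)
    rw [hfull, Finset.card_univ] at h2
    rw [hn, hN]
    exact_mod_cast h2
  have hAP : A ≤ P := by
    rw [hA, hP]
    exact_mod_cast card_Sg_le a (j + t)
  have hBQ : B ≤ Q := by
    rw [hB, hQ]
    exact_mod_cast card_Sg_le a j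
  have hB0 : 0 ≤ B := by rw [hB]; exact Nat.cast_nonneg _
  have hAd : n * P ≤ A * N := by
    have h2 := Sg_density a (Nat.succ_pos m) (Nat.le_add_right (j + t) t)
    rw [hfull, Finset.card_univ] at h2
    rw [hn, hP, hA, hN]
    exact_mod_cast h2
  have hBd : n * Q ≤ B * N := by
    have h2 := Sg_density a (Nat.succ_pos m) (by omega : j ≤ j + t + t)
    rw [hfull, Finset.card_univ] at h2
    rw [hn, hQ, hB, hN]
    exact_mod_cast h2
  rw [← hN, ← hP, ← hQ, ← hn, ← hA, ← hB] at h1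
  rw [← hN, ← hP, ← hQ, ← hn]
  refine ⟨P / N, Q / N, n / N, A / N, B / N, rfl, rfl, rfl, ?_, ?_, ?_, ?_, ?_, ?_, ?_⟩
  · rw [div_le_one hN0]
    exact hnN
  · rw [div_mul_div_comm, div_le_div_iff₀ (mul_pos hN0 hN0) hN0]
    have := mul_le_mul_of_nonneg_right hAd hN0.le
    linarith
  · exact div_le_div_of_nonneg_right hAP hN0.le
  · rw [div_mul_div_comm, div_le_div_iff₀ (mul_pos hN0 hN0) hN0]
    have := mul_le_mul_of_nonneg_right hBd hN0.le
    linarith
  · exact div_le_div_of_nonneg_right hBQ hN0.le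
  · exact div_nonneg hB0 hN0.le
  · have h2 : N * N * ((((m : ℝ) + 1) * m * (P / N - Q / N) -
        (1 - n / N) * (h * (m + 1 + h))) * (n / N - B / N)) ≤
        N * N * (((m : ℝ) + 1) ^ 2 * ((A / N - B / N) * (n / N - A / N))) := by
      have e1 : N * N * ((((m : ℝ) + 1) * m * (P / N - Q / N) -
          (1 - n / N) * (h * (m + 1 + h))) * (n / N - B / N)) =
          (((m : ℝ) + 1) * m * (P - Q) - (N - n) * (h * (m + 1 + h))) * (n - B) := by
        field_simp
      have e2 : N * N * (((m : ℝ) + 1) ^ 2 * ((A / N - B / N) * (n / N - A / N))) =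
          ((m : ℝ) + 1) ^ 2 * ((A - B) * (n - A)) := by
        field_simp
      rw [e1, e2]
      push_cast at h1
      have e3 : ((m : ℝ) + 1) * ((m : ℝ) + 1 - 1) = ((m : ℝ) + 1) * m := by ring
      rw [e3] at h1
      exact h1
    exact le_of_mul_le_mul_left h2 (mul_pos hN0 hN0)

/-- The upper bound for all `m ≥ 2` and `s ≥ 2`. -/
theorem all_main (hm : 2 ≤ m) (a : Fin (m + 1) → G) {s : ℕ} (hs : 2 ≤ s)
    (hfull : Sg a s = Finset.univ) :
    (1 + min 1 ((s : ℝ) / m) / 1000) * Fintype.card G ≤ Nn (m + 1) s := by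
  have hmR : (2 : ℝ) ≤ m := by exact_mod_cast hm
  have hsR : (2 : ℝ) ≤ s := by exact_mod_cast hs
  have hm0 : (0 : ℝ) < m := by linarith
  obtain ⟨x, hx⟩ : ∃ x : ℝ, x = min 1 ((s : ℝ) / m) := ⟨_, rfl⟩
  have hx1 : x ≤ 1 := by rw [hx]; exact min_le_left _ _
  have hx2 : x * m ≤ s := by
    have h1 : x ≤ (s : ℝ) / m := by rw [hx]; exact min_le_right _ _
    rwa [le_div_iff₀ hm0] at h1
  have hx0 : 0 < x := by
    rw [hx]
    exact lt_min one_pos (by positivity)
  rw [← hx]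
  by_contra hcon
  rw [not_le] at hcon
  have hN0 : (0 : ℝ) < Nn (m + 1) s := Nn_pos' m s
  have hξ : 1 - (Fintype.card G : ℝ) / Nn (m + 1) s ≤ x / 1000 := by
    have h1 : (1 - x / 1000) * Nn (m + 1) s ≤ Fintype.card G := by
      have h2 : (1 - x / 1000) * Nn (m + 1) s ≤
          (1 - x / 1000) * ((1 + x / 1000) * Fintype.card G) :=
        mul_le_mul_of_nonneg_left hcon.le (by linarith)
      have h3 : (1 - x / 1000) * ((1 + x / 1000) * Fintype.card G) =
          Fintype.card G - (x / 1000) * (x / 1000) * Fintype.card G := by ring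
      have h4 : 0 ≤ (x / 1000) * (x / 1000) * (Fintype.card G : ℝ) := by positivity
      linarith
    have h2 : 1 - x / 1000 ≤ (Fintype.card G : ℝ) / Nn (m + 1) s := by
      rw [le_div_iff₀ hN0]
      exact h1
    linarith
  rcases le_total s (2 * m) with hsm | hsm
  · -- the first case
    obtain ⟨j, rfl⟩ : ∃ j, s = j + 1 + 1 := ⟨s - 2, by omega⟩
    have hh : ∀ v ∈ Dl (m + 1) (j + 1 + 1), hn 1 v ≤ min ((j + 1 + 1 : ℕ) : ℝ) (m + 1) := by
      intro v hv
      refine le_min ?_ ?_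
      · have h1 := hn_one_le v
        rwa [mem_Dl.1 hv] at h1
      · have h1 := hn_le 1 v
        push_cast at h1
        exact h1
    obtain ⟨p, q, ν, α, β, hp, hq, hν, hν1, hα, hα', hβ, hβ', hβ0, hmain⟩ := one_norm a hfull hh
    have hr1 := Nn_rec (Nat.succ_pos m) (j + 1)
    have hr2 := Nn_rec (Nat.succ_pos m) j
    have hr1' : ((j : ℝ) + 1 + 1) * Nn (m + 1) (j + 1 + 1) =
        ((j : ℝ) + 1 + (m + 1)) * Nn (m + 1) (j + 1) := by exact_mod_cast hr1
    have hr2' : ((j : ℝ) + 1) * Nn (m + 1) (j + 1) = ((j : ℝ) + (m + 1)) * Nn (m + 1) j := by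
      exact_mod_cast hr2
    have hsm' : ((j + 1 + 1 : ℕ) : ℝ) ≤ 2 * m := by exact_mod_cast hsm
    refine case_one (m := m) (s := ((j + 1 + 1 : ℕ) : ℝ)) (p := p) (q := q) (ν := ν) (α := α)
      (β := β) (ξ := 1 - ν) (h := min ((j + 1 + 1 : ℕ) : ℝ) (m + 1)) (x := x) hmR hsR hsm'
      (by ring) (by linarith) (by rw [hν]; exact hξ) hx1 hx2 hα hα' hβ hβ' hβ0 ?_ ?_
      (le_min (by positivity) (by positivity)) (min_le_left _ _) (min_le_right _ _) hmain
    · rw [hp]
      push_cast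
      rw [div_mul_eq_mul_div, div_eq_iff hN0.ne']
      linarith
    · rw [hp, hq]
      push_cast
      rw [div_mul_eq_mul_div, ← mul_div_assoc]
      congr 1
      have e1 : (m : ℝ) + ((j : ℝ) + 1 + 1) - 1 = (j : ℝ) + (m + 1) := by ring
      have e2 : (j : ℝ) + 1 + 1 - 1 = (j : ℝ) + 1 := by ring
      rw [e1, e2, hr2']
      ring
  · -- the second case
    obtain ⟨t, ht1, hts, hPr1, hPr2⟩ := exists_t_two hm hsm
    obtain ⟨j, rfl⟩ : ∃ j, s = j + t + t := ⟨s - (t + t), by omega⟩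
    have hh : ∀ v ∈ Dl (m + 1) (j + t + t), hn t v ≤ ((m + 1 : ℕ) : ℝ) := fun v _ => hn_le t v
    obtain ⟨p, q, ν, α, β, hp, hq, hν, hν1, hα, hα', hβ, hβ', hβ0, hmain⟩ := one_norm a hfull hh
    have hPr : Pr m t (j + t + t) = p := by
      unfold Pr
      rw [hp, Nat.add_sub_cancel]
    have hPr' : Pr m t (j + t) ≤ Pr m t (j + t + t) := by
      have hden : (0 : ℝ) < ((j + t : ℕ) : ℝ) - t + m := by
        push_cast
        have : (0 : ℝ) ≤ j := Nat.cast_nonneg j
        linarith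
      have ht0 : (0 : ℝ) ≤ t := Nat.cast_nonneg t
      refine (Pr_compare m (t := t) (J := j + t + t) (J' := j + t) (by omega) (by omega)
        (lam := 1 + (t : ℝ) / (((j + t : ℕ) : ℝ) - t + m)) ?_ ?_).1
      · have : 0 ≤ (t : ℝ) / (((j + t : ℕ) : ℝ) - t + m) := div_nonneg ht0 hden.le
        linarith
      · rw [add_sub_cancel_left, div_mul_cancel₀ _ hden.ne']
        push_cast
        linarith
    have hqp : q ≤ p * p := by
      have h1 : Pr m t (j + t) = (Nn (m + 1) j : ℝ) / Nn (m + 1) (j + t) := by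
        unfold Pr
        rw [Nat.add_sub_cancel]
      have h2 : q = p * Pr m t (j + t) := by
        have h3 : (0 : ℝ) < Nn (m + 1) (j + t) := Nn_pos' m _
        rw [h1, hp, hq]
        field_simp
      rw [h2]
      refine mul_le_mul_of_nonneg_left (hPr'.trans (le_of_eq hPr)) ?_
      linarith
    rw [hPr] at hPr1 hPr2
    obtain ⟨κ, hκ⟩ : ∃ κ : ℝ, κ = (m : ℝ) / (m + 1) := ⟨_, rfl⟩
    have hκ1 : 2 / 3 ≤ κ := by
      rw [hκ, div_le_div_iff₀ (by norm_num) (by linarith)]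
      linarith
    refine case_two (κ := κ) (p := p) (q := q) (ν := ν) (α := α) (β := β) (ξ := 1 - ν) hκ1
      (by ring) (by linarith) (by rw [hν]; linarith) hα hα' hβ hβ' hPr1 hPr2 hqp ?_
    have hm1 : (0 : ℝ) < ((m : ℝ) + 1) ^ 2 := by positivity
    have h1 : ((m : ℝ) + 1) ^ 2 * ((κ * (p - q) - 2 * (1 - ν)) * (ν - β)) ≤
        ((m : ℝ) + 1) ^ 2 * ((α - β) * (ν - α)) := by
      refine le_trans (le_of_eq ?_) hmain
      rw [hκ]
      push_cast
      field_simp
      ring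
    exact le_of_mul_le_mul_left h1 hm1

/-- The upper bound for all `m ≥ 2` and `s ≥ 2`, for sets. -/
theorem all_pairs (hm : 2 ≤ m) (A : Finset G) (hA : A.card ≤ m) {s : ℕ} (hs : 2 ≤ s)
    (hfull : ∀ x : G, ∃ M : Multiset G, (∀ y ∈ M, y ∈ A) ∧ Multiset.card M ≤ s ∧ M.sum = x) :
    (1 + min 1 ((s : ℝ) / m) / 1000) * Fintype.card G ≤ (m + s).choose s := by
  obtain ⟨a, h0, ha⟩ := exists_fun A hA
  rw [← Nn_succ_left]
  refine all_main hm a hs ?_
  ext x
  simp only [Finset.mem_univ, iff_true]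
  obtain ⟨M, hM, hMs, rfl⟩ := hfull x
  exact Sg_mono h0 hMs (mem_Sg_of_multiset a h0 M fun y hy => ha y (hM y hy))

end

end Pool.Agent.Lib_helper56.UB
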