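import Pool.Agent.Lib_helper56.UB.Levels

/-!
# The recursion
-/

set_option autoImplicit false

namespace Pool.Agent.Lib_helper56.UB

open Finset

variable {k : ℕ} {G : Type} [AddCommGroup G] [Fintype G] [DecidableEq G]

/-- The number of the elements which are not sums of `s - j t` elements. -/
noncomputable def xx (a : Fin k → G) (s t j : ℕ) : ℝ :=
  (Fintype.card G : ℝ) - (Sg a (s - j * t)).card

theorem xx_mono {a : Fin k → G} {i0 : Fin k} (h0 : a i0 = 0) (s t j : ℕ) :
    xx a s t j ≤ xx a s t (j + 1) := by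
  unfold xx
  have h1 : (Sg a (s - (j + 1) * t)).card ≤ (Sg a (s - j * t)).card := by
    refine Finset.card_le_card (Sg_mono h0 ?_)
    have : j * t ≤ (j + 1) * t := Nat.mul_le_mul_right _ (by omega)
    omega
  have h2 : ((Sg a (s - (j + 1) * t)).card : ℝ) ≤ (Sg a (s - j * t)).card := by exact_mod_cast h1
  linarith

/-- The levels. -/
noncomputable def AA (k s t j : ℕ) : ℝ := Nn k (s - j * t)

theorem AA_pos (hk : 0 < k) (s t j : ℕ) : 0 < AA k s t j := by
  unfold AA
  exact_mod_cast Nn_pos hk _

theorem AA_anti (hk : 0 < k) (s t : ℕ) {j j' : ℕ} (h : j ≤ j') : AA k s t j' ≤ AA k s t j := by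
  unfold AA
  have : j * t ≤ j' * t := Nat.mul_le_mul_right _ h
  exact_mod_cast Nn_mono hk (by omega)

/-- The bound for the number of the bad vectors. -/
theorem bad_le (hk : 0 < k) {s t j r l : ℕ} (hj : (j + 1) * t ≤ s) (hl : l ≤ r) {w : ℝ}
    (hw : 1 - AA k s t (j + 1) / AA k s t j ≤ w) :
    (((Dl k (s - j * t)).filter fun v => r ≤ Zn t v).card : ℝ) ≤
      (k.choose l : ℝ) / r.choose l * w ^ l * AA k s t 0 := by
  have h1 : s - j * t = (s - (j + 1) * t) + t := by
    have : (j + 1) * t = j * t + t := by ring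
    omega
  have hr : (0 : ℝ) < r.choose l := by exact_mod_cast Nat.choose_pos hl
  have h2 := tail hk t (s - (j + 1) * t) l r
  rw [← h1] at h2
  have h3 : 0 ≤ 1 - AA k s t (j + 1) / AA k s t j := by
    rw [sub_nonneg, div_le_one (AA_pos hk s t j)]
    exact AA_anti hk s t (by omega)
  have h4 : (1 - AA k s t (j + 1) / AA k s t j) ^ l ≤ w ^ l := pow_le_pow_left₀ h3 hw l
  have h5 : AA k s t j ≤ AA k s t 0 := AA_anti hk s t (by omega)
  have h6 : (((Dl k (s - j * t)).filter fun v => r ≤ Zn t v).card : ℝ) * r.choose l ≤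
      k.choose l * (w ^ l * AA k s t 0) := by
    refine h2.trans (mul_le_mul_of_nonneg_left ?_ (Nat.cast_nonneg _))
    exact mul_le_mul h4 h5 (AA_pos hk s t j).le (h3.trans hw |> fun h => pow_nonneg h l)
  calc (((Dl k (s - j * t)).filter fun v => r ≤ Zn t v).card : ℝ)
      = (((Dl k (s - j * t)).filter fun v => r ≤ Zn t v).card : ℝ) * r.choose l / r.choose l := by
        rw [mul_div_cancel_right₀ _ hr.ne']
    _ ≤ k.choose l * (w ^ l * AA k s t 0) / r.choose l := by
        exact div_le_div_of_nonneg_right h6 hr.le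
    _ = _ := by ring

theorem core (a : Fin k → G) {i0 : Fin k} (h0 : a i0 = 0) {s t J r l : ℕ}
    (hfull : Sg a s = Finset.univ) (hJ : (J + 1) * t ≤ s) (hr : r < k) (hl : l ≤ r) {w η : ℝ}
    (hw : ∀ j < J, 1 - AA k s t (j + 1) / AA k s t j ≤ w) (hw0 : 0 ≤ w) (hη : 0 < η) (hη1 : η ≤ 1)
    (hA : AA k s t J < Fintype.card G)
    (hcond : ((k : ℝ) / (k - r)) ^ J * ((AA k s t J - AA k s t (J + 1)) +
      J * ((k.choose l : ℝ) / r.choose l * w ^ l * AA k s t 0 / η ^ J)) ≤
      (1 - η) * (Fintype.card G - AA k s t J)) : False := by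
  have hk : 0 < k := by omega
  have hkr : (0 : ℝ) < k - r := by
    rw [sub_pos]
    exact_mod_cast hr
  have hk' : (0 : ℝ) < k := by exact_mod_cast hk
  set q : ℝ := (k : ℝ) / (k - r) with hq
  set τ : ℝ := (k.choose l : ℝ) / r.choose l * w ^ l * AA k s t 0 with hτ
  set D : ℝ := (Fintype.card G : ℝ) - AA k s t J with hD
  have hD0 : 0 < D := by rw [hD]; linarith
  have hτ0 : 0 ≤ τ := by
    rw [hτ]
    exact mul_nonneg (mul_nonneg (div_nonneg (Nat.cast_nonneg _) (Nat.cast_nonneg _))
      (pow_nonneg hw0 l)) (AA_pos hk s t 0).le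
  have hq1 : 1 ≤ q := by
    rw [hq, one_le_div hkr]
    linarith [Nat.cast_nonneg (α := ℝ) r]
  have hηJ : 0 < η ^ J := pow_pos hη J
  set e : ℝ := τ / η ^ J / D with he
  have he0 : 0 ≤ e := div_nonneg (div_nonneg hτ0 hηJ.le) hD0.le
  set ρ0 : ℝ := (AA k s t J - AA k s t (J + 1)) / D with hρ0
  have hρ00 : 0 ≤ ρ0 := by
    refine div_nonneg ?_ hD0.le
    linarith [AA_anti hk s t (Nat.le_succ J)]
  have hcond' : q ^ J * (ρ0 + J * e) ≤ 1 - η := by
    have h1 : q ^ J * (ρ0 + J * e) = q ^ J * ((AA k s t J - AA k s t (J + 1)) +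
        J * (τ / η ^ J)) / D := by
      rw [hρ0, he]
      field_simp
    rw [h1, div_le_iff₀ hD0]
    exact hcond
  have hτe : τ = e * (η ^ J * D) := by
    rw [he]
    field_simp
  have key : ∀ i ≤ J, η ^ i * D ≤ xx a s t (J - i) ∧
      xx a s t (J - i + 1) - xx a s t (J - i) ≤ (q ^ i * (ρ0 + i * e)) * xx a s t (J - i + 1) := by
    intro i
    induction i with
    | zero =>
      intro _
      have h1 : D ≤ xx a s t J := by
        unfold xx
        have : ((Sg a (s - J * t)).card : ℝ) ≤ AA k s t J := by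
          unfold AA
          exact_mod_cast card_Sg_le a _
        rw [hD]
        linarith
      refine ⟨by simpa using h1, ?_⟩
      have h2 := Sg_density a hk (j := s - (J + 1) * t) (J := s - J * t) (by
        have : J * t ≤ (J + 1) * t := Nat.mul_le_mul_right _ (by omega)
        omega)
      have h2' : ((Sg a (s - J * t)).card : ℝ) * AA k s t (J + 1) ≤
          (Sg a (s - (J + 1) * t)).card * AA k s t J := by
        unfold AA
        exact_mod_cast h2
      have hAJ := AA_pos hk s t J
      have hS : ((Sg a (s - J * t)).card : ℝ) ≤ AA k s t J := by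
        unfold AA
        exact_mod_cast card_Sg_le a _
      have h3 : ((Sg a (s - J * t)).card : ℝ) - (Sg a (s - (J + 1) * t)).card ≤
          AA k s t J - AA k s t (J + 1) := by
        have h4 : ((Sg a (s - J * t)).card : ℝ) * (AA k s t (J + 1) / AA k s t J) ≤
            (Sg a (s - (J + 1) * t)).card := by
          rw [← mul_div_assoc, div_le_iff₀ hAJ]
          exact h2'
        have h5 : 0 ≤ 1 - AA k s t (J + 1) / AA k s t J := by
          rw [sub_nonneg, div_le_one hAJ]
          exact AA_anti hk s t (by omega)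
        have h6 : ((Sg a (s - J * t)).card : ℝ) * (1 - AA k s t (J + 1) / AA k s t J) ≤
            AA k s t J * (1 - AA k s t (J + 1) / AA k s t J) := mul_le_mul_of_nonneg_right hS h5
        have h7 : AA k s t J * (1 - AA k s t (J + 1) / AA k s t J) =
            AA k s t J - AA k s t (J + 1) := by
          field_simp
        linarith
      have h8 : D ≤ xx a s t (J + 1) := h1.trans (xx_mono h0 s t J)
      have h9 : xx a s t (J + 1) - xx a s t J =
          (Sg a (s - J * t)).card - (Sg a (s - (J + 1) * t)).card := by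
        unfold xx
        ring
      have h10 : ρ0 * D = AA k s t J - AA k s t (J + 1) := by
        rw [hρ0]
        field_simp
      have h11 : ρ0 * D ≤ ρ0 * xx a s t (J + 1) := mul_le_mul_of_nonneg_left h8 hρ00
      rw [Nat.sub_zero, h9]
      simp only [pow_zero, CharP.cast_eq_zero, zero_mul, add_zero, one_mul]
      linarith
    | succ i ih =>
      intro hi
      obtain ⟨ih1, ih2⟩ := ih (by omega)
      obtain ⟨j, hj⟩ : ∃ j, J = j + (i + 1) := ⟨J - (i + 1), by omega⟩
      have e1 : J - (i + 1) = j := by omega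
      have e2 : J - i = j + 1 := by omega
      rw [e1]
      rw [e2] at ih1 ih2
      have hx1 : 0 < xx a s t (j + 1) := lt_of_lt_of_le (mul_pos (pow_pos hη i) hD0) ih1
      have hx2 : 0 < xx a s t (j + 2) := hx1.trans_le (xx_mono h0 s t (j + 1))
      -- the energy inequality
      have hjt : (j + 2) * t ≤ s := by
        refine le_trans (Nat.mul_le_mul_right t ?_) hJ
        omega
      have l1 : s - (j + 2) * t + t = s - (j + 1) * t := by
        have : (j + 2) * t = (j + 1) * t + t := by ring
        omega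
      have l2 : s - (j + 1) * t + t = s - j * t := by
        have h1 : (j + 1) * t = j * t + t := by ring
        have h2 : (j + 1) * t ≤ (j + 2) * t := Nat.mul_le_mul_right _ (by omega)
        omega
      have hlev := level a t (s - (j + 2) * t) r hr.le
      rw [l1, l2] at hlev
      have hbad := bad_le hk (s := s) (t := t) (j := j) (r := r) (l := l)
        (le_trans (Nat.mul_le_mul_right t (by omega)) hjt) hl (hw j (by omega))
      rw [← hτ] at hbad
      set b : ℝ := (((Dl k (s - j * t)).filter fun v => r ≤ Zn t v).card : ℝ) with hb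
      have hlev' : ((k : ℝ) - r) * k * (xx a s t (j + 1) - xx a s t j - b) * xx a s t (j + 2) ≤
          k ^ 2 * ((xx a s t (j + 2) - xx a s t (j + 1)) * xx a s t (j + 1)) := by
        unfold xx
        calc _ = ((k : ℝ) - r) * k * (((Sg a (s - j * t)).card : ℝ) -
              (Sg a (s - (j + 1) * t)).card - b) *
              ((Fintype.card G : ℝ) - (Sg a (s - (j + 2) * t)).card) := by ring
          _ ≤ _ := hlev
          _ = _ := by ring
      have h1 : ((k : ℝ) - r) * (xx a s t (j + 1) - xx a s t j - b) ≤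
          k * ((q ^ i * (ρ0 + i * e)) * xx a s t (j + 1)) := by
        have h2 : k ^ 2 * ((xx a s t (j + 2) - xx a s t (j + 1)) * xx a s t (j + 1)) ≤
            k ^ 2 * (((q ^ i * (ρ0 + i * e)) * xx a s t (j + 2)) * xx a s t (j + 1)) :=
          mul_le_mul_of_nonneg_left (mul_le_mul_of_nonneg_right ih2 hx1.le) (by positivity)
        have h3 := hlev'.trans h2
        have h4 : (k * xx a s t (j + 2)) * (((k : ℝ) - r) * (xx a s t (j + 1) - xx a s t j - b)) ≤
            (k * xx a s t (j + 2)) * (k * ((q ^ i * (ρ0 + i * e)) * xx a s t (j + 1))) := by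
          nlinarith [h3]
        exact le_of_mul_le_mul_left h4 (mul_pos hk' hx2)
      have h2 : xx a s t (j + 1) - xx a s t j - b ≤
          q * ((q ^ i * (ρ0 + i * e)) * xx a s t (j + 1)) := by
        rw [hq, div_mul_eq_mul_div, le_div_iff₀ hkr, mul_comm]
        exact h1
      have h3 : b ≤ e * xx a s t (j + 1) := by
        refine hbad.trans ?_
        rw [hτe]
        refine mul_le_mul_of_nonneg_left (le_trans ?_ ih1) he0
        refine mul_le_mul_of_nonneg_right ?_ hD0.le
        exact pow_le_pow_of_le_one hη.le hη1 (by omega)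
      have hqi : 1 ≤ q ^ (i + 1) := one_le_pow₀ hq1
      have h4 : xx a s t (j + 1) - xx a s t j ≤
          (q ^ (i + 1) * (ρ0 + ((i + 1 : ℕ) : ℝ) * e)) * xx a s t (j + 1) := by
        have h5 : e * xx a s t (j + 1) ≤ q ^ (i + 1) * (e * xx a s t (j + 1)) := by
          have := mul_le_mul_of_nonneg_right hqi (mul_nonneg he0 hx1.le)
          linarith
        have h6 : (q ^ (i + 1) * (ρ0 + ((i + 1 : ℕ) : ℝ) * e)) * xx a s t (j + 1) =
            q * ((q ^ i * (ρ0 + i * e)) * xx a s t (j + 1)) +
              q ^ (i + 1) * (e * xx a s t (j + 1)) := by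
          push_cast
          ring
        rw [h6]
        linarith
      refine ⟨?_, h4⟩
      have h7 : q ^ (i + 1) * (ρ0 + ((i + 1 : ℕ) : ℝ) * e) ≤ 1 - η := by
        refine le_trans ?_ hcond'
        refine mul_le_mul (pow_le_pow_right₀ hq1 hi) ?_ ?_ (pow_nonneg (by linarith) _)
        · have : ((i + 1 : ℕ) : ℝ) ≤ J := by exact_mod_cast hi
          have := mul_le_mul_of_nonneg_right this he0
          linarith
        · exact add_nonneg hρ00 (mul_nonneg (Nat.cast_nonneg _) he0)
      have h8 := mul_le_mul_of_nonneg_right h7 hx1.le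
      have h9 : η * (η ^ i * D) ≤ η * xx a s t (j + 1) := mul_le_mul_of_nonneg_left ih1 hη.le
      calc η ^ (i + 1) * D = η * (η ^ i * D) := by ring
        _ ≤ η * xx a s t (j + 1) := h9
        _ ≤ xx a s t j := by linarith
  obtain ⟨h1, -⟩ := key J le_rfl
  rw [Nat.sub_self] at h1
  have h2 : xx a s t 0 = 0 := by
    unfold xx
    rw [Nat.zero_mul, Nat.sub_zero, hfull, Finset.card_univ, sub_self]
  rw [h2] at h1
  have h3 := mul_pos hηJ hD0
  linarith

end Pool.Agent.Lib_helper56.UB
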