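import Mathlib

/-!
# The energy inequality
-/

set_option autoImplicit false

namespace Pool.Agent.Lib_helper56.UB

open Finset

variable {k : ℕ} {G : Type} [AddCommGroup G] [Fintype G] [DecidableEq G]

/-- The indicator function. -/
noncomputable def chi (T : Finset G) (x : G) : ℝ := if x ∈ T then 1 else 0

/-- The number of the translates `b i + T` which contain `x`. -/
noncomputable def Hf (b : Fin k → G) (T : Finset G) (x : G) : ℝ := ∑ i, chi T (x - b i)

/-- The number of the translates `T - b i` which contain `y`. -/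
noncomputable def Df (b : Fin k → G) (T : Finset G) (y : G) : ℝ := ∑ i, chi T (y + b i)

theorem chi_nonneg (T : Finset G) (x : G) : 0 ≤ chi T x := by
  unfold chi
  split_ifs <;> norm_num

theorem chi_le_one (T : Finset G) (x : G) : chi T x ≤ 1 := by
  unfold chi
  split_ifs <;> norm_num

theorem sum_chi (T : Finset G) : ∑ x, chi T x = T.card := by
  unfold chi
  rw [Finset.sum_boole, Finset.filter_mem_eq_inter, Finset.univ_inter]

theorem sum_chi_sub (T : Finset G) (b : G) : ∑ x, chi T (x - b) = T.card := by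
  rw [← sum_chi T]
  exact Equiv.sum_comp (Equiv.subRight b) (chi T)

theorem sum_chi_add (T : Finset G) (b : G) : ∑ x, chi T (x + b) = T.card := by
  rw [← sum_chi T]
  exact Equiv.sum_comp (Equiv.addRight b) (chi T)

theorem sum_Hf (b : Fin k → G) (T : Finset G) : ∑ x, Hf b T x = k * T.card := by
  unfold Hf
  rw [Finset.sum_comm, Finset.sum_congr rfl fun i _ => sum_chi_sub T (b i)]
  simp

theorem sum_Df (b : Fin k → G) (T : Finset G) : ∑ x, Df b T x = k * T.card := by
  unfold Df
  rw [Finset.sum_comm, Finset.sum_congr rfl fun i _ => sum_chi_add T (b i)]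
  simp

/-- The energy identity. -/
theorem sum_sq (b : Fin k → G) (T : Finset G) : ∑ x, Hf b T x ^ 2 = ∑ y, Df b T y ^ 2 := by
  have h1 : ∑ x, Hf b T x ^ 2 = ∑ i, ∑ j, ∑ x, chi T (x - b i) * chi T (x - b j) := by
    calc ∑ x, Hf b T x ^ 2 = ∑ x, ∑ i, ∑ j, chi T (x - b i) * chi T (x - b j) := by
          refine Finset.sum_congr rfl fun x _ => ?_
          rw [sq, Hf, Finset.sum_mul_sum]
      _ = ∑ i, ∑ x, ∑ j, chi T (x - b i) * chi T (x - b j) := Finset.sum_comm
      _ = _ := Finset.sum_congr rfl fun i _ => Finset.sum_comm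
  have h2 : ∑ y, Df b T y ^ 2 = ∑ i, ∑ j, ∑ y, chi T (y + b i) * chi T (y + b j) := by
    calc ∑ y, Df b T y ^ 2 = ∑ y, ∑ i, ∑ j, chi T (y + b i) * chi T (y + b j) := by
          refine Finset.sum_congr rfl fun x _ => ?_
          rw [sq, Df, Finset.sum_mul_sum]
      _ = ∑ i, ∑ y, ∑ j, chi T (y + b i) * chi T (y + b j) := Finset.sum_comm
      _ = _ := Finset.sum_congr rfl fun i _ => Finset.sum_comm
  rw [h1, h2]
  refine Finset.sum_congr rfl fun i _ => Finset.sum_congr rfl fun j _ => ?_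
  rw [← Equiv.sum_comp (Equiv.addRight (b i + b j)) (fun x => chi T (x - b i) * chi T (x - b j))]
  refine Finset.sum_congr rfl fun y _ => ?_
  change chi T (y + (b i + b j) - b i) * chi T (y + (b i + b j) - b j) = _
  have h3 : y + (b i + b j) - b i = y + b j := by abel
  have h4 : y + (b i + b j) - b j = y + b i := by abel
  rw [h3, h4, mul_comm]

theorem Hf_nonneg (b : Fin k → G) (T : Finset G) (x : G) : 0 ≤ Hf b T x :=
  Finset.sum_nonneg fun _ _ => chi_nonneg _ _

theorem Hf_le (b : Fin k → G) (T : Finset G) (x : G) : Hf b T x ≤ k := by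
  calc Hf b T x ≤ ∑ _i : Fin k, (1 : ℝ) := Finset.sum_le_sum fun _ _ => chi_le_one _ _
    _ = k := by simp

theorem energy (b : Fin k → G) (S T U : Finset G)
    (hS : ∀ x i, x - b i ∈ T → x ∈ S) (hU : ∀ y ∈ U, ∀ i, y + b i ∈ T) (θ B : ℝ) (hθ : 0 ≤ θ)
    (hB : ((S.filter fun x => Hf b T x < θ).card : ℝ) ≤ B) :
    θ * k * ((S.card : ℝ) - T.card - B) * (Fintype.card G - U.card) ≤
      k ^ 2 * ((T.card - U.card) * (Fintype.card G - T.card)) := by
  have hz : ∀ x, x ∉ S → Hf b T x = 0 := by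
    intro x hx
    unfold Hf chi
    refine Finset.sum_eq_zero fun i _ => ?_
    rw [if_neg fun h => hx (hS x i h)]
  have hk0 : (0 : ℝ) ≤ k := Nat.cast_nonneg k
  -- the lower bound
  have h1 : θ * k * ((S.card : ℝ) - T.card - B) ≤ ∑ x, Hf b T x * (k - Hf b T x) := by
    have h2 : ∑ x ∈ S, Hf b T x * (k - Hf b T x) = ∑ x, Hf b T x * (k - Hf b T x) := by
      refine Finset.sum_subset (Finset.subset_univ S) fun x _ hx => ?_
      rw [hz x hx, zero_mul]
    have h3 : ∑ x ∈ S, Hf b T x = k * T.card := by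
      rw [← sum_Hf b T]
      exact Finset.sum_subset (Finset.subset_univ S) fun x _ hx => hz x hx
    rw [← h2]
    have h4 : ∀ x ∈ S, θ * (k - Hf b T x) - (if Hf b T x < θ then θ * k else 0) ≤
        Hf b T x * (k - Hf b T x) := by
      intro x _
      have h5 := Hf_nonneg b T x
      have h6 := Hf_le b T x
      split_ifs with h7
      · have h8 : 0 ≤ Hf b T x * (k - Hf b T x) := mul_nonneg h5 (by linarith)
        have h9 : 0 ≤ θ * Hf b T x := mul_nonneg hθ h5
        nlinarith
      · have h8 : 0 ≤ (Hf b T x - θ) * (k - Hf b T x) := mul_nonneg (by linarith) (by linarith)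
        nlinarith
    have h5 := Finset.sum_le_sum h4
    rw [Finset.sum_sub_distrib, ← Finset.mul_sum, Finset.sum_sub_distrib, h3, Finset.sum_const,
      nsmul_eq_mul, ← Finset.sum_filter, Finset.sum_const, nsmul_eq_mul] at h5
    have h6 : ((S.filter fun x => Hf b T x < θ).card : ℝ) * (θ * k) ≤ B * (θ * k) :=
      mul_le_mul_of_nonneg_right hB (mul_nonneg hθ hk0)
    nlinarith
  -- the upper bound
  have h10 : ∑ x, Hf b T x * (k - Hf b T x) = ∑ y, Df b T y * (k - Df b T y) := by
    have h11 : ∀ g : G → ℝ, ∑ x, g x * (k - g x) = k * ∑ x, g x - ∑ x, g x ^ 2 := by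
      intro g
      rw [Finset.mul_sum, ← Finset.sum_sub_distrib]
      exact Finset.sum_congr rfl fun x _ => by ring
    rw [h11, h11, sum_Hf, sum_Df, sum_sq]
  have hDU : ∀ y ∈ U, Df b T y = k := by
    intro y hy
    unfold Df chi
    rw [Finset.sum_congr rfl fun i _ => if_pos (hU y hy i)]
    simp
  have h12 : ∑ y, Df b T y * (k - Df b T y) = ∑ y ∈ Uᶜ, Df b T y * (k - Df b T y) := by
    symm
    refine Finset.sum_subset (Finset.subset_univ _) fun y _ hy => ?_
    rw [Finset.mem_compl, not_not] at hy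
    rw [hDU y hy, sub_self, mul_zero]
  have h13 : ∑ y ∈ Uᶜ, Df b T y = k * T.card - k * U.card := by
    have h14 : ∑ y ∈ U, Df b T y + ∑ y ∈ Uᶜ, Df b T y = ∑ y, Df b T y :=
      Finset.sum_add_sum_compl U _
    rw [sum_Df, Finset.sum_congr rfl hDU, Finset.sum_const, nsmul_eq_mul] at h14
    linarith
  have hc : ((Uᶜ).card : ℝ) = Fintype.card G - U.card := by
    rw [Finset.card_compl, Nat.cast_sub (Finset.card_le_univ U)]
  have h15 : (∑ y ∈ Uᶜ, Df b T y) ^ 2 ≤ (Uᶜ).card * ∑ y ∈ Uᶜ, Df b T y ^ 2 :=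
    sq_sum_le_card_mul_sum_sq
  have h16 : ∑ y ∈ Uᶜ, Df b T y * (k - Df b T y) =
      k * ∑ y ∈ Uᶜ, Df b T y - ∑ y ∈ Uᶜ, Df b T y ^ 2 := by
    rw [Finset.mul_sum, ← Finset.sum_sub_distrib]
    exact Finset.sum_congr rfl fun x _ => by ring
  rw [h13, hc] at h15
  have hc0 : (0 : ℝ) ≤ Fintype.card G - U.card := by
    rw [← hc]
    exact Nat.cast_nonneg _
  have h17 : θ * k * ((S.card : ℝ) - T.card - B) * (Fintype.card G - U.card) ≤
      (k * (k * T.card - k * U.card) - ∑ y ∈ Uᶜ, Df b T y ^ 2) * (Fintype.card G - U.card) := by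
    refine mul_le_mul_of_nonneg_right ?_ hc0
    rw [← h13, ← h16, ← h12, ← h10]
    exact h1
  nlinarith

end Pool.Agent.Lib_helper56.UB
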