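import Pool.Agent.Lib_helper56.UB.All
import Pool.Agent.Lib_helper56.UB.BasisDef

/-!
# The upper bounds, final form
-/

set_option autoImplicit false

namespace Pool.Agent.Lib_helper56.UB

/-- The numerical conditions hold if `m` is at least `exp (1000 / ε ^ 2)`. -/
theorem conditions {ε : ℝ} (hε : 0 < ε) (hε2 : ε ≤ 1 / 2) {m : ℕ}
    (hm : Real.exp (1000 / ε ^ 2) ≤ m) :
    1000 / ε ^ 2 ≤ Real.log m ∧ 8 * Real.log m ^ 3 ≤ ε ^ 2 * m ∧ Real.log m ^ 3 ≤ √m := by
  have hm0 : (0 : ℝ) < m := lt_of_lt_of_le (Real.exp_pos _) hm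
  have h1 : 1000 / ε ^ 2 ≤ Real.log m := (Real.le_log_iff_exp_le hm0).2 hm
  obtain ⟨-, -, -, hL0, -, -⟩ := basics hε hε2 h1
  obtain ⟨L, hL⟩ : ∃ L : ℝ, L = Real.log m := ⟨_, rfl⟩
  have hexp : (m : ℝ) = Real.exp L := by rw [hL, Real.exp_log hm0]
  rw [← hL] at h1 hL0 ⊢
  have hLpos : 0 < L := by linarith
  refine ⟨h1, ?_, ?_⟩
  · have h2 : 1000 ≤ L * ε ^ 2 := by rwa [div_le_iff₀ (by positivity)] at h1
    have h3 := Real.pow_div_factorial_le_exp L hLpos.le 5
    rw [← hexp] at h3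
    have h4 : ((Nat.factorial 5 : ℕ) : ℝ) = 120 := by norm_num [Nat.factorial]
    rw [h4] at h3
    have h5 : L * (8 * L ^ 3) ≤ L * (ε ^ 2 * m) := by
      have h6 : 1000 * (L ^ 5 / 120) ≤ L * ε ^ 2 * m :=
        mul_le_mul h2 h3 (by positivity) (by positivity)
      have h7 : L ^ 4 * 1 ≤ L ^ 4 * L := mul_le_mul_of_nonneg_left (by linarith) (by positivity)
      have h8 : L ^ 4 * L = L ^ 5 := by ring
      have h9 : L * (8 * L ^ 3) = 8 * L ^ 4 := by ring
      have h10 : L * (ε ^ 2 * m) = L * ε ^ 2 * m := by ring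
      have h11 : 0 ≤ L ^ 5 := by positivity
      rw [h9, h10]
      linarith
    exact le_of_mul_le_mul_left h5 hLpos
  · have h2 : √(m : ℝ) = Real.exp (L / 2) := by
      rw [hexp, Real.exp_half]
    rw [h2]
    have h3 := Real.pow_div_factorial_le_exp (L / 2) (by linarith) 4
    have h4 : ((Nat.factorial 4 : ℕ) : ℝ) = 24 := by norm_num [Nat.factorial]
    rw [h4] at h3
    have h5 : L ^ 3 * 4000 ≤ L ^ 3 * L := mul_le_mul_of_nonneg_left hL0 (by positivity)
    have h6 : (L / 2) ^ 4 / 24 = L ^ 3 * L / 384 := by ring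
    rw [h6] at h3
    have h7 : 0 ≤ L ^ 3 := by positivity
    linarith

/-- The bound for all `m` and `s`. -/
theorem final_all {m s : ℕ} (hm : 2 ≤ m) (hs : 2 ≤ s) (G : Type) [AddCommGroup G] [Finite G]
    (A : Finset G) (hA : A.card ≤ m) (hfull : IsBasis A s) :
    (1 + min 1 ((s : ℝ) / m) / 1000) * Nat.card G ≤ (m + s).choose s := by
  classical
  have : Fintype G := Fintype.ofFinite G
  rw [Nat.card_eq_fintype_card]
  exact all_pairs hm A hA hs hfull

/-- The bound for large `m`. -/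
theorem final_large {ε : ℝ} (hε : 0 < ε) (hε2 : ε ≤ 1 / 2) {m s : ℕ}
    (hm : Real.exp (1000 / ε ^ 2) ≤ m) (hs : 1 ≤ s) (G : Type) [AddCommGroup G] [Finite G]
    (A : Finset G) (hA : A.card ≤ m) (hfull : IsBasis A s) :
    (1 - ε) * min (1 + (s : ℝ) / m) (√m / Real.log m ^ 3) * Nat.card G ≤
      (m + s).choose s := by
  classical
  have : Fintype G := Fintype.ofFinite G
  rw [Nat.card_eq_fintype_card]
  obtain ⟨h1, h2, h3⟩ := conditions hε hε2 hm
  exact main_set A hA hs hfull hε hε2 rfl h1 h2 h3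

end Pool.Agent.Lib_helper56.UB
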