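import Pool.Agent.Lib_helper56.UB.Final

/-!
# Lattice coverings by simplices
-/

set_option autoImplicit false

open MeasureTheory Filter Topology

namespace Pool.Agent.Lib_helper56.UB

namespace Lat

/-- The simplex with the vertices `0` and the unit vectors. -/
def corner (m : ℕ) : Set (Fin m → ℝ) := {x | (∀ i, 0 ≤ x i) ∧ ∑ i, x i ≤ 1}

theorem corner_closed (m : ℕ) : IsClosed (corner m) := by
  have h1 : corner m = (⋂ i, {x : Fin m → ℝ | 0 ≤ x i}) ∩ {x | ∑ i, x i ≤ 1} := by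
    ext x
    simp [corner]
  rw [h1]
  refine IsClosed.inter (isClosed_iInter fun i => ?_) ?_
  · exact isClosed_le continuous_const (continuous_apply i)
  · exact isClosed_le (continuous_finsetSum _ fun i _ => continuous_apply i) continuous_const

theorem corner_le_one {m : ℕ} {x : Fin m → ℝ} (hx : x ∈ corner m) (i : Fin m) : x i ≤ 1 :=
  (Finset.single_le_sum (f := x) (fun j _ => hx.1 j) (Finset.mem_univ i)).trans hx.2

/-- change of the signs of some coordinates -/
def flip {m : ℕ} (σ : Fin m → Bool) (x : Fin m → ℝ) : Fin m → ℝ :=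
  fun i => (if σ i then id else Neg.neg : ℝ → ℝ) (x i)

theorem flip_mp {m : ℕ} (σ : Fin m → Bool) : MeasurePreserving (flip σ) volume volume := by
  unfold flip
  refine volume_preserving_pi (f := fun i => (if σ i then id else Neg.neg : ℝ → ℝ)) fun i => ?_
  split_ifs
  · exact MeasurePreserving.id _
  · exact Measure.measurePreserving_neg _

theorem vol_corner (m : ℕ) :
    ENNReal.ofReal (1 / (m.factorial : ℝ)) ≤ volume (corner m) := by
  have h1 := MeasureTheory.volume_sum_rpow_lt_one (Fin m) (p := 1) le_rfl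
  have h2 : (2 * Real.Gamma (1 / 1 + 1)) ^ (Fintype.card (Fin m)) /
      Real.Gamma ((Fintype.card (Fin m) : ℝ) / 1 + 1) = 2 ^ m * (1 / (m.factorial : ℝ)) := by
    rw [Fintype.card_fin, div_one, div_one, Real.Gamma_nat_eq_factorial,
      show (1 : ℝ) + 1 = 2 by norm_num, Real.Gamma_two]
    ring
  rw [h2] at h1
  have h3 : {x : Fin m → ℝ | ∑ i, |x i| ^ (1 : ℝ) < 1} ⊆
      ⋃ σ : Fin m → Bool, flip σ ⁻¹' corner m := by
    intro x hx
    rw [Set.mem_iUnion]
    refine ⟨fun i => decide (0 ≤ x i), ?_⟩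
    have h4 : flip (fun i => decide (0 ≤ x i)) x = fun i => |x i| := by
      funext i
      unfold flip
      by_cases h : 0 ≤ x i
      · simp [h, abs_of_nonneg h]
      · simp [h, abs_of_neg (not_le.1 h)]
    rw [Set.mem_preimage, h4]
    refine ⟨fun i => abs_nonneg _, ?_⟩
    have h5 : ∑ i, |x i| ^ (1 : ℝ) < 1 := hx
    simp only [Real.rpow_one] at h5
    exact h5.le
  have h4 : volume {x : Fin m → ℝ | ∑ i, |x i| ^ (1 : ℝ) < 1} ≤ 2 ^ m * volume (corner m) := by
    calc _ ≤ volume (⋃ σ : Fin m → Bool, flip σ ⁻¹' corner m) := measure_mono h3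
      _ ≤ ∑ σ : Fin m → Bool, volume (flip σ ⁻¹' corner m) := measure_iUnion_fintype_le _ _
      _ = ∑ _σ : Fin m → Bool, volume (corner m) := by
          refine Finset.sum_congr rfl fun σ _ => ?_
          exact (flip_mp σ).measure_preimage (corner_closed m).measurableSet.nullMeasurableSet
      _ = 2 ^ m * volume (corner m) := by
          rw [Finset.sum_const, Finset.card_univ, nsmul_eq_mul]
          simp
  rw [h1, ENNReal.ofReal_mul (by positivity), ENNReal.ofReal_pow (by norm_num),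
    ENNReal.ofReal_ofNat] at h4
  exact (ENNReal.mul_le_mul_iff_right (by simp) (by simp)).1 h4

/-! ### the quotients of `ℤ^m` -/

section Quot

variable {m : ℕ} (N : Matrix (Fin m) (Fin m) ℤ)

/-- the quotient of `ℤ^m` by the lattice generated by the columns of `N` -/
abbrev Q : Type := (Fin m → ℤ) ⧸ LinearMap.range N.mulVecLin

theorem card_Q (h : N.det ≠ 0) : Nat.card (Q N) = N.det.natAbs := by
  have hinj : Function.Injective N.mulVecLin := by
    rw [← LinearMap.ker_eq_bot, LinearMap.ker_eq_bot']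
    intro v hv
    by_contra hv0
    exact h (Matrix.exists_mulVec_eq_zero_iff.1 ⟨v, hv0, hv⟩)
  have h1 := Submodule.natAbs_det_equiv (LinearMap.range N.mulVecLin)
    (LinearEquiv.ofInjective N.mulVecLin hinj)
  have h2 : (LinearMap.range N.mulVecLin).subtype ∘ₗ AddMonoidHom.toIntLinearMap
      (LinearEquiv.ofInjective N.mulVecLin hinj : (Fin m → ℤ) →+ LinearMap.range N.mulVecLin) =
      N.mulVecLin := by
    ext v
    rfl
  rw [h2, ← Matrix.toLin'_apply', LinearMap.det_toLin'] at h1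
  rw [h1, Matrix.toLin'_apply']

theorem basis_Q {s : ℕ} (h : ∀ z : Fin m → ℤ, ∃ l : Fin m → ℤ, (∀ i, 0 ≤ (z - N.mulVec l) i) ∧
    ∑ i, (z - N.mulVec l) i ≤ s) :
    ∃ A : Finset (Q N), A.card ≤ m ∧ IsBasis A s := by
  classical
  let a : Fin m → Q N := fun i => Submodule.Quotient.mk (Pi.single i 1)
  refine ⟨Finset.univ.image a, ?_, ?_⟩
  · exact Finset.card_image_le.trans (by simp)
  · intro x
    obtain ⟨z, rfl⟩ := Submodule.Quotient.mk_surjective _ x
    obtain ⟨l, h1, h2⟩ := h z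
    set y : Fin m → ℤ := z - N.mulVec l with hy
    refine ⟨∑ i, Multiset.replicate (y i).toNat (a i), ?_, ?_, ?_⟩
    · intro g hg
      rw [Multiset.mem_sum] at hg
      obtain ⟨i, -, hi⟩ := hg
      rw [Multiset.eq_of_mem_replicate hi]
      exact Finset.mem_image_of_mem _ (Finset.mem_univ i)
    · rw [Multiset.card_sum]
      simp only [Multiset.card_replicate]
      have h3 : ((∑ i, (y i).toNat : ℕ) : ℤ) = ∑ i, y i := by
        push_cast
        exact Finset.sum_congr rfl fun i _ => by rw [Int.toNat_of_nonneg (h1 i)]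
      omega
    · rw [Multiset.sum_sum]
      simp only [Multiset.sum_replicate]
      have h3 : (Submodule.Quotient.mk z : Q N) = Submodule.Quotient.mk y := by
        rw [Submodule.Quotient.eq]
        refine ⟨l, ?_⟩
        rw [hy]
        simp
      rw [h3]
      have h4 : y = ∑ i, (y i).toNat • (Pi.single i 1 : Fin m → ℤ) := by
        funext j
        rw [Finset.sum_apply]
        simp only [Pi.smul_apply, Pi.single_apply, smul_ite, smul_zero]
        rw [Finset.sum_ite_eq Finset.univ j]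
        simp [Int.toNat_of_nonneg (h1 j)]
      conv_rhs => rw [h4]
      rw [← Submodule.mkQ_apply, map_sum]
      refine Finset.sum_congr rfl fun i _ => ?_
      rw [map_nsmul]
      rfl

end Quot

/-! ### approximation -/

section Approx

open Matrix

variable {m : ℕ}

theorem approx (B : Matrix (Fin m) (Fin m) ℝ) (hB : B.det ≠ 0)
    (hcov : ∀ x : Fin m → ℝ, ∃ l : Fin m → ℤ, x - B *ᵥ (fun i => (l i : ℝ)) ∈ corner m) :
    ∃ K : ℕ, ∀ (q : ℕ) (N : Matrix (Fin m) (Fin m) ℤ), N.det ≠ 0 →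
      (∀ i j, |(N i j : ℝ) - q * B i j| ≤ 1) → ∀ z : Fin m → ℤ, ∃ l : Fin m → ℤ,
        (∀ i, 0 ≤ (z - N *ᵥ l) i) ∧ ∑ i, (z - N *ᵥ l) i ≤ (q + 2 * m * K : ℕ) := by
  obtain ⟨K, hK⟩ := exists_nat_ge ((m : ℝ) * ∑ i, ∑ j, |B⁻¹ i j|)
  refine ⟨K, fun q N hN hNB z' => ?_⟩
  set z : Fin m → ℤ := fun i => z' i - K with hz
  have hU : IsUnit B.det := isUnit_iff_ne_zero.2 hB
  set NR : Matrix (Fin m) (Fin m) ℝ := N.map (fun a : ℤ => (a : ℝ)) with hNR
  have hNd : NR.det ≠ 0 := by
    have h1 : NR.det = ((N.det : ℤ) : ℝ) := by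
      rw [hNR, Int.cast_det]
    rw [h1]
    exact_mod_cast hN
  have hNU : IsUnit NR.det := isUnit_iff_ne_zero.2 hNd
  set y : Fin m → ℝ := NR⁻¹ *ᵥ (fun i => (z i : ℝ)) with hy
  obtain ⟨l, hl⟩ := hcov (B *ᵥ y)
  set t : Fin m → ℝ := B *ᵥ y - B *ᵥ (fun i => (l i : ℝ)) with ht
  have h1 : y - (fun i => (l i : ℝ)) = B⁻¹ *ᵥ t := by
    rw [ht, ← Matrix.mulVec_sub, Matrix.mulVec_mulVec, Matrix.nonsing_inv_mul _ hU,
      Matrix.one_mulVec]
  have h2 : (fun i => (z i : ℝ)) - NR *ᵥ (fun i => (l i : ℝ)) = NR *ᵥ (B⁻¹ *ᵥ t) := by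
    rw [← h1, Matrix.mulVec_sub, hy, Matrix.mulVec_mulVec, Matrix.mul_nonsing_inv _ hNU,
      Matrix.one_mulVec]
  have h3 : NR *ᵥ (B⁻¹ *ᵥ t) = (q : ℝ) • t + (NR - (q : ℝ) • B) *ᵥ (B⁻¹ *ᵥ t) := by
    rw [Matrix.sub_mulVec, Matrix.smul_mulVec, Matrix.mulVec_mulVec t B B⁻¹,
      Matrix.mul_nonsing_inv _ hU, Matrix.one_mulVec]
    abel
  have h4 : ∀ j, |(B⁻¹ *ᵥ t) j| ≤ ∑ i, ∑ j, |B⁻¹ i j| := by
    intro j
    have e1 : (B⁻¹ *ᵥ t) j = ∑ k, B⁻¹ j k * t k := rfl
    rw [e1]
    calc |∑ k, B⁻¹ j k * t k| ≤ ∑ k, |B⁻¹ j k * t k| := Finset.abs_sum_le_sum_abs _ _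
      _ ≤ ∑ k, |B⁻¹ j k| := by
          refine Finset.sum_le_sum fun k _ => ?_
          rw [abs_mul, abs_of_nonneg (hl.1 k)]
          exact mul_le_of_le_one_right (abs_nonneg _) (corner_le_one hl k)
      _ ≤ _ := Finset.single_le_sum (f := fun i => ∑ j, |B⁻¹ i j|)
          (fun i _ => Finset.sum_nonneg fun k _ => abs_nonneg _) (Finset.mem_univ j)
  have h5 : ∀ i, |((NR - (q : ℝ) • B) *ᵥ (B⁻¹ *ᵥ t)) i| ≤ K := by
    intro i
    have e1 : ((NR - (q : ℝ) • B) *ᵥ (B⁻¹ *ᵥ t)) i =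
        ∑ j, (NR - (q : ℝ) • B) i j * (B⁻¹ *ᵥ t) j := rfl
    rw [e1]
    calc |∑ j, (NR - (q : ℝ) • B) i j * (B⁻¹ *ᵥ t) j| ≤
          ∑ j, |(NR - (q : ℝ) • B) i j * (B⁻¹ *ᵥ t) j| := Finset.abs_sum_le_sum_abs _ _
      _ ≤ ∑ _j : Fin m, ∑ i, ∑ j, |B⁻¹ i j| := by
          refine Finset.sum_le_sum fun j _ => ?_
          rw [abs_mul]
          have h6 : |(NR - (q : ℝ) • B) i j| ≤ 1 := hNB i j
          calc _ ≤ 1 * |(B⁻¹ *ᵥ t) j| := mul_le_mul_of_nonneg_right h6 (abs_nonneg _)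
            _ ≤ _ := by rw [one_mul]; exact h4 j
      _ = (m : ℝ) * ∑ i, ∑ j, |B⁻¹ i j| := by
          rw [Finset.sum_const, Finset.card_univ, Fintype.card_fin, nsmul_eq_mul]
      _ ≤ K := hK
  have h6 : ∀ i, (((z' - N *ᵥ l) i : ℤ) : ℝ) =
      q * t i + ((NR - (q : ℝ) • B) *ᵥ (B⁻¹ *ᵥ t)) i + K := by
    intro i
    have h7 := congrFun (h2.trans h3) i
    simp only [Pi.sub_apply, Pi.add_apply, Pi.smul_apply, smul_eq_mul] at h7
    have h8 : (((N *ᵥ l) i : ℤ) : ℝ) = (NR *ᵥ (fun i => (l i : ℝ))) i := by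
      rw [hNR]
      simp only [Matrix.mulVec, dotProduct, Matrix.map_apply]
      push_cast
      rfl
    have h9 : (z i : ℝ) = z' i - K := by
      rw [hz]
      push_cast
      rfl
    rw [Pi.sub_apply, Int.cast_sub, h8]
    linarith
  refine ⟨l, fun i => ?_, ?_⟩
  · have h7 := h6 i
    have h8 := (abs_le.1 (h5 i)).1
    have h9 : 0 ≤ (q : ℝ) * t i := mul_nonneg (Nat.cast_nonneg _) (hl.1 i)
    have h10 : (0 : ℝ) ≤ (((z' - N *ᵥ l) i : ℤ) : ℝ) := by linarith
    exact_mod_cast h10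
  · have h7 : ((∑ i, (z' - N *ᵥ l) i : ℤ) : ℝ) ≤ ((q + 2 * m * K : ℕ) : ℝ) := by
      rw [Int.cast_sum]
      calc ∑ i, (((z' - N *ᵥ l) i : ℤ) : ℝ) ≤ ∑ i, (q * t i + 2 * K) := by
            refine Finset.sum_le_sum fun i _ => ?_
            rw [h6 i]
            have h8 := (abs_le.1 (h5 i)).2
            linarith
        _ = q * ∑ i, t i + m * (2 * K) := by
            rw [Finset.sum_add_distrib, ← Finset.mul_sum, Finset.sum_const, Finset.card_univ,
              Fintype.card_fin, nsmul_eq_mul]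
        _ ≤ q * 1 + m * (2 * K) := by
            have h8 := mul_le_mul_of_nonneg_left hl.2 (Nat.cast_nonneg (α := ℝ) q)
            linarith
        _ = ((q + 2 * m * K : ℕ) : ℝ) := by
            push_cast
            ring
    exact_mod_cast h7

/-- Lattice coverings by the standard simplex. -/
theorem std {C : ℝ} {s₀ : ℕ} (hC : ∀ s : ℕ, s₀ ≤ s → ∀ (G : Type) [AddCommGroup G] [Finite G]
      (A : Finset G), A.card ≤ m → IsBasis A s → C * Nat.card G ≤ (m + s).choose s)
    (B : Matrix (Fin m) (Fin m) ℝ) (hB : B.det ≠ 0)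
    (hcov : ∀ x : Fin m → ℝ, ∃ l : Fin m → ℤ, x - B *ᵥ (fun i => (l i : ℝ)) ∈ corner m) :
    C * |B.det| ≤ 1 / (m.factorial : ℝ) := by
  obtain ⟨K, hK⟩ := approx B hB hcov
  let N : ℕ → Matrix (Fin m) (Fin m) ℤ := fun q => Matrix.of fun i j => ⌊(q : ℝ) * B i j⌋
  have hN : ∀ q i j, |((N q i j : ℤ) : ℝ) - q * B i j| ≤ 1 := by
    intro q i j
    have h1 := Int.floor_le ((q : ℝ) * B i j)
    have h2 := Int.lt_floor_add_one ((q : ℝ) * B i j)
    rw [abs_le]
    constructor
    · show -1 ≤ ((⌊(q : ℝ) * B i j⌋ : ℤ) : ℝ) - q * B i j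
      linarith
    · show ((⌊(q : ℝ) * B i j⌋ : ℤ) : ℝ) - q * B i j ≤ 1
      linarith
  have hinv : Tendsto (fun q : ℕ => 1 / (q : ℝ)) atTop (𝓝 0) := tendsto_one_div_atTop_nhds_zero_nat
  -- the limit of the determinants
  have hlim : Tendsto (fun q : ℕ => (Matrix.of fun i j => ((N q i j : ℤ) : ℝ) / q).det) atTop
      (𝓝 B.det) := by
    have h1 : Tendsto (fun q : ℕ => (Matrix.of fun i j => ((N q i j : ℤ) : ℝ) / q :
        Matrix (Fin m) (Fin m) ℝ)) atTop (𝓝 B) := by
      refine tendsto_pi_nhds.2 fun i => tendsto_pi_nhds.2 fun j => ?_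
      rw [tendsto_iff_dist_tendsto_zero]
      refine squeeze_zero' (Eventually.of_forall fun q => dist_nonneg) ?_ hinv
      filter_upwards [eventually_gt_atTop 0] with q hq
      have hq' : (0 : ℝ) < q := by exact_mod_cast hq
      rw [Real.dist_eq, Matrix.of_apply]
      have h2 : ((N q i j : ℤ) : ℝ) / q - B i j = (((N q i j : ℤ) : ℝ) - q * B i j) / q := by
        field_simp
      rw [h2, abs_div, abs_of_pos hq']
      exact div_le_div_of_nonneg_right (hN q i j) hq'.le
    exact ((continuous_id.matrix_det).tendsto B).comp h1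
  have hdet : ∀ q : ℕ, 0 < q → (Matrix.of fun i j => ((N q i j : ℤ) : ℝ) / q).det =
      ((N q).det : ℝ) / (q : ℝ) ^ m := by
    intro q hq
    have hq' : (0 : ℝ) < q := by exact_mod_cast hq
    have h1 : (Matrix.of fun i j => ((N q i j : ℤ) : ℝ) / q : Matrix (Fin m) (Fin m) ℝ) =
        (q : ℝ)⁻¹ • (N q).map (fun a : ℤ => (a : ℝ)) := by
      ext i j
      rw [Matrix.of_apply, Matrix.smul_apply, Matrix.map_apply, smul_eq_mul]
      ring
    have h2 : ((N q).map (fun a : ℤ => (a : ℝ))).det = (((N q).det : ℤ) : ℝ) := by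
      rw [Int.cast_det]
    rw [h1, Matrix.det_smul, h2, Fintype.card_fin, inv_pow]
    ring
  have hne : ∀ᶠ q : ℕ in atTop, (Matrix.of fun i j => ((N q i j : ℤ) : ℝ) / q).det ≠ 0 :=
    hlim.eventually_ne hB
  -- the limit of the right side
  have hr : Tendsto (fun q : ℕ => (1 + ((2 * m * K + m : ℕ) : ℝ) * (1 / (q : ℝ))) ^ m /
      (m.factorial : ℝ)) atTop (𝓝 (1 / (m.factorial : ℝ))) := by
    have h1 : Tendsto (fun q : ℕ => 1 + ((2 * m * K + m : ℕ) : ℝ) * (1 / (q : ℝ))) atTop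
        (𝓝 (1 + ((2 * m * K + m : ℕ) : ℝ) * 0)) := (hinv.const_mul _).const_add _
    have h2 := (h1.pow m).div_const (m.factorial : ℝ)
    rw [mul_zero, add_zero, one_pow] at h2
    exact h2
  have hl2 := (hlim.abs.const_mul C)
  refine le_of_tendsto_of_tendsto hl2 hr ?_
  filter_upwards [eventually_gt_atTop 0, eventually_ge_atTop s₀, hne] with q hq hqs hqd
  have hq' : (0 : ℝ) < q := by exact_mod_cast hq
  rw [hdet q hq] at hqd ⊢
  have hNd : (N q).det ≠ 0 := by
    intro h1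
    apply hqd
    rw [h1, Int.cast_zero, zero_div]
  have h1 := hK q (N q) hNd (hN q)
  obtain ⟨A, hA, hbas⟩ := basis_Q (N q) h1
  have hcard := card_Q (N q) hNd
  have hfin : Finite (Q (N q)) := Nat.finite_of_card_ne_zero (by
    rw [hcard]
    exact Int.natAbs_ne_zero.2 hNd)
  have h2 := hC (q + 2 * m * K) (by
    have : 0 ≤ 2 * m * K := Nat.zero_le _
    omega) (Q (N q)) A hA hbas
  rw [hcard, Nat.cast_natAbs, Int.cast_abs] at h2
  have h3 : ((m + (q + 2 * m * K)).choose (q + 2 * m * K) : ℝ) ≤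
      ((q : ℝ) + (2 * m * K + m : ℕ)) ^ m / (m.factorial : ℝ) := by
    rw [← Nat.choose_symm_add]
    refine (Nat.choose_le_pow_div m (m + (q + 2 * m * K))).trans (le_of_eq ?_)
    push_cast
    ring
  have h4 : C * |(((N q).det : ℤ) : ℝ)| ≤
      ((q : ℝ) + (2 * m * K + m : ℕ)) ^ m / (m.factorial : ℝ) := h2.trans h3
  rw [abs_div, abs_of_pos (pow_pos hq' m)]
  have h5 : (1 + ((2 * m * K + m : ℕ) : ℝ) * (1 / (q : ℝ))) ^ m =
      ((q : ℝ) + (2 * m * K + m : ℕ)) ^ m / (q : ℝ) ^ m := by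
    rw [← div_pow]
    congr 1
    field_simp
  rw [h5, ← mul_div_assoc, div_div, mul_comm ((q : ℝ) ^ m), ← div_div]
  exact div_le_div_of_nonneg_right h4 (pow_pos hq' m).le

end Approx

/-! ### arbitrary simplices and lattices -/

section General

open Matrix

variable {m : ℕ}

/-- the matrix with the columns `p (j + 1) - p 0` -/
def edges (p : Fin (m + 1) → Fin m → ℝ) : Matrix (Fin m) (Fin m) ℝ :=
  Matrix.of fun i j => p j.succ i - p 0 i

theorem edges_mulVec (p : Fin (m + 1) → Fin m → ℝ) (t : Fin m → ℝ) :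
    edges p *ᵥ t = ∑ j, t j • (p j.succ - p 0) := by
  funext i
  rw [Finset.sum_apply]
  simp only [Matrix.mulVec, dotProduct, edges, Matrix.of_apply, Pi.smul_apply, Pi.sub_apply,
    smul_eq_mul]
  exact Finset.sum_congr rfl fun j _ => by ring

theorem edges_det {p : Fin (m + 1) → Fin m → ℝ} (hp : AffineIndependent ℝ p) :
    (edges p).det ≠ 0 := by
  intro h0
  obtain ⟨v, hv0, hv⟩ := Matrix.exists_mulVec_eq_zero_iff.2 h0
  rw [affineIndependent_iff] at hp
  apply hv0
  rw [edges_mulVec] at hv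
  have h1 := hp Finset.univ (Fin.cons (- ∑ j, v j) v : Fin (m + 1) → ℝ) (by
    rw [Fin.sum_univ_succ]
    simp) (by
    rw [Fin.sum_univ_succ]
    simp only [Fin.cons_zero, Fin.cons_succ]
    rw [← hv]
    simp only [smul_sub, Finset.sum_sub_distrib, ← Finset.sum_smul, neg_smul]
    abel)
  funext j
  have h2 := h1 j.succ (Finset.mem_univ _)
  rw [Fin.cons_succ] at h2
  exact h2

theorem corner_convex (m : ℕ) : Convex ℝ (corner m) := by
  intro x hx y hy a b ha hb hab
  refine ⟨fun i => ?_, ?_⟩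
  · simp only [Pi.add_apply, Pi.smul_apply, smul_eq_mul]
    exact add_nonneg (mul_nonneg ha (hx.1 i)) (mul_nonneg hb (hy.1 i))
  · simp only [Pi.add_apply, Pi.smul_apply, smul_eq_mul, Finset.sum_add_distrib, ← Finset.mul_sum]
    calc a * ∑ i, x i + b * ∑ i, y i ≤ a * 1 + b * 1 :=
          add_le_add (mul_le_mul_of_nonneg_left hx.2 ha) (mul_le_mul_of_nonneg_left hy.2 hb)
      _ = 1 := by rw [mul_one, mul_one, hab]

theorem hull_eq (p : Fin (m + 1) → Fin m → ℝ) :
    convexHull ℝ (Set.range p) = (fun t => p 0 + edges p *ᵥ t) '' corner m := by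
  apply Set.Subset.antisymm
  · refine convexHull_min ?_ ?_
    · rintro _ ⟨i, rfl⟩
      refine Fin.cases ?_ (fun j => ?_) i
      · refine ⟨0, ⟨fun i => le_rfl, by simp⟩, ?_⟩
        simp
      · refine ⟨Pi.single j 1, ⟨fun i => ?_, ?_⟩, ?_⟩
        · rw [Pi.single_apply]
          split_ifs <;> norm_num
        · simp [Finset.sum_pi_single']
        · show p 0 + edges p *ᵥ Pi.single j 1 = p j.succ
          rw [edges_mulVec]
          simp [Pi.single_apply]
    · rintro _ ⟨x, hx, rfl⟩ _ ⟨y, hy, rfl⟩ a b ha hb hab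
      refine ⟨a • x + b • y, corner_convex m hx hy ha hb hab, ?_⟩
      simp only [Matrix.mulVec_add, Matrix.mulVec_smul, smul_add]
      have h1 : p 0 = a • p 0 + b • p 0 := by rw [← add_smul, hab, one_smul]
      conv_lhs => rw [h1]
      abel
  · rintro _ ⟨t, ht, rfl⟩
    have h1 : p 0 + edges p *ᵥ t =
        ∑ i, (Fin.cons (1 - ∑ j, t j) t : Fin (m + 1) → ℝ) i • p i := by
      rw [Fin.sum_univ_succ, edges_mulVec]
      simp only [Fin.cons_zero, Fin.cons_succ, smul_sub, Finset.sum_sub_distrib, sub_smul,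
        one_smul, ← Finset.sum_smul]
      abel
    show p 0 + edges p *ᵥ t ∈ _
    rw [h1]
    refine (convex_convexHull ℝ (Set.range p)).sum_mem ?_ ?_ ?_
    · intro i _
      refine Fin.cases ?_ (fun j => ?_) i
      · rw [Fin.cons_zero]
        linarith [ht.2]
      · rw [Fin.cons_succ]
        exact ht.1 j
    · rw [Fin.sum_univ_succ]
      simp
    · intro i _
      exact subset_convexHull ℝ _ ⟨i, rfl⟩

theorem vol_hull (p : Fin (m + 1) → Fin m → ℝ) :
    |(edges p).det| / (m.factorial : ℝ) ≤ volume.real (convexHull ℝ (Set.range p)) := by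
  have hfin : volume (convexHull ℝ (Set.range p)) ≠ ⊤ :=
    ((Set.finite_range p).isCompact_convexHull (𝕜 := ℝ)).measure_lt_top.ne
  rw [← ENNReal.ofReal_le_ofReal_iff measureReal_nonneg, Measure.real,
    ENNReal.ofReal_toReal hfin, hull_eq]
  have h1 : (fun t => p 0 + edges p *ᵥ t) '' corner m =
      (fun x => p 0 + x) '' ((edges p).toLin' '' corner m) := by
    rw [Set.image_image]
    rfl
  rw [h1, Set.image_add_left, measure_preimage_add, Measure.addHaar_image_linearMap,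
    LinearMap.det_toLin', div_eq_mul_inv, ENNReal.ofReal_mul (abs_nonneg _), ← one_div]
  exact mul_le_mul_right (vol_corner m) _

/-- Lattice coverings by simplices. -/
theorem general {C : ℝ} {s₀ : ℕ} (hC : ∀ s : ℕ, s₀ ≤ s → ∀ (G : Type) [AddCommGroup G] [Finite G]
      (A : Finset G), A.card ≤ m → IsBasis A s → C * Nat.card G ≤ (m + s).choose s)
    (L : Submodule ℤ (Fin m → ℝ)) [DiscreteTopology L] [IsZLattice ℝ L]
    (p : Fin (m + 1) → Fin m → ℝ) (hp : AffineIndependent ℝ p)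
    (hcov : ∀ x, ∃ y ∈ L, ∃ z ∈ convexHull ℝ (Set.range p), x = y + z) :
    C * ZLattice.covolume L ≤ volume.real (convexHull ℝ (Set.range p)) := by
  let b : Module.Basis (Fin m) ℤ L := IsZLattice.basis L
  set M : Matrix (Fin m) (Fin m) ℝ := Matrix.of ((↑) ∘ b) with hM
  have hcovol : ZLattice.covolume L = |M.det| := ZLattice.covolume_eq_det L b
  have hMd : M.det ≠ 0 := by
    have h1 := ZLattice.covolume_ne_zero L volume
    rw [hcovol] at h1
    exact fun h2 => h1 (by rw [h2, abs_zero])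
  have hP := edges_det hp
  have hPU : IsUnit (edges p).det := isUnit_iff_ne_zero.2 hP
  have hL : ∀ y ∈ L, ∃ l : Fin m → ℤ, y = Mᵀ *ᵥ (fun i => (l i : ℝ)) := by
    intro y hy
    refine ⟨fun i => b.repr ⟨y, hy⟩ i, ?_⟩
    have h1 := b.sum_repr ⟨y, hy⟩
    have h2 := congrArg (fun v : L => (v : Fin m → ℝ)) h1
    simp only [Submodule.coe_sum, Submodule.coe_smul] at h2
    refine h2.symm.trans ?_
    funext i
    rw [Finset.sum_apply]
    simp only [Matrix.mulVec, dotProduct, Matrix.transpose_apply, hM, Matrix.of_apply,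
      Function.comp_apply, Pi.smul_apply, zsmul_eq_mul]
    exact Finset.sum_congr rfl fun j _ => by ring
  have hdet : ((edges p)⁻¹ * Mᵀ).det = M.det / (edges p).det := by
    rw [Matrix.det_mul, Matrix.det_transpose, Matrix.det_nonsing_inv, Ring.inverse_eq_inv']
    field_simp
  have h1 := std hC ((edges p)⁻¹ * Mᵀ) (by
    rw [hdet]
    exact div_ne_zero hMd hP) (fun x => by
    obtain ⟨y, hy, z, hz, hxyz⟩ := hcov (p 0 + edges p *ᵥ x)
    obtain ⟨l, hl⟩ := hL y hy
    rw [hull_eq] at hz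
    obtain ⟨t, ht, rfl⟩ := hz
    refine ⟨l, ?_⟩
    have h2 : edges p *ᵥ x = Mᵀ *ᵥ (fun i => (l i : ℝ)) + edges p *ᵥ t := by
      rw [← hl]
      have h3 : p 0 + edges p *ᵥ x = y + (p 0 + edges p *ᵥ t) := hxyz
      have h4 : edges p *ᵥ x = (p 0 + edges p *ᵥ x) - p 0 := by abel
      rw [h4, h3]
      abel
    have h3 : x - ((edges p)⁻¹ * Mᵀ) *ᵥ (fun i => (l i : ℝ)) = t := by
      have h4 := congrArg (fun v => (edges p)⁻¹ *ᵥ v) h2
      simp only [Matrix.mulVec_add, Matrix.mulVec_mulVec, Matrix.nonsing_inv_mul _ hPU,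
        Matrix.one_mulVec] at h4
      rw [h4]
      abel
    rw [h3]
    exact ht)
  rw [hdet, abs_div] at h1
  refine le_trans ?_ (vol_hull p)
  have hPpos : 0 < |(edges p).det| := abs_pos.2 hP
  rw [hcovol, le_div_iff₀ (by positivity)]
  rw [← mul_div_assoc, div_le_div_iff₀ hPpos (by positivity), one_mul] at h1
  exact h1

end General

end Lat


/-- The density of a lattice covering by translates of a simplex is at least `1.001`. -/
theorem density_all {m : ℕ} (hm : 2 ≤ m) (L : Submodule ℤ (Fin m → ℝ)) [DiscreteTopology L]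
    [IsZLattice ℝ L] (p : Fin (m + 1) → Fin m → ℝ) (hp : AffineIndependent ℝ p)
    (hcov : ∀ x, ∃ y ∈ L, ∃ z ∈ convexHull ℝ (Set.range p), x = y + z) :
    1001 / 1000 * ZLattice.covolume L ≤ volume.real (convexHull ℝ (Set.range p)) := by
  refine Lat.general (s₀ := m) (fun s hs G _ _ A hA hbas => ?_) L p hp hcov
  have h1 := final_all hm (hm.trans hs) G A hA hbas
  have hm' : (0 : ℝ) < m := by
    have : 0 < m := by omega
    exact_mod_cast this
  have h2 : min 1 ((s : ℝ) / m) = 1 := by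
    refine min_eq_left ?_
    rw [le_div_iff₀ hm', one_mul]
    exact_mod_cast hs
  rw [h2] at h1
  norm_num at h1
  exact h1


/-- The density of a lattice covering by translates of a simplex, large dimension. -/
theorem density_large {ε : ℝ} (hε : 0 < ε) (hε2 : ε ≤ 1 / 2) {m : ℕ}
    (hm : Real.exp (1000 / ε ^ 2) ≤ m) (L : Submodule ℤ (Fin m → ℝ)) [DiscreteTopology L]
    [IsZLattice ℝ L] (p : Fin (m + 1) → Fin m → ℝ) (hp : AffineIndependent ℝ p)
    (hcov : ∀ x, ∃ y ∈ L, ∃ z ∈ convexHull ℝ (Set.range p), x = y + z) :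
    (1 - ε) * (√m / Real.log m ^ 3) * ZLattice.covolume L ≤
      volume.real (convexHull ℝ (Set.range p)) := by
  have hm' : (0 : ℝ) < m := (Real.exp_pos _).trans_le hm
  obtain ⟨s₁, hs₁⟩ := exists_nat_ge ((m : ℝ) * (√m / Real.log m ^ 3))
  refine Lat.general (s₀ := s₁ + 1) (fun s hs G _ _ A hA hbas => ?_) L p hp hcov
  have h1 := final_large hε hε2 hm (by omega : 1 ≤ s) G A hA hbas
  have h2 : min (1 + (s : ℝ) / m) (√m / Real.log m ^ 3) = √m / Real.log m ^ 3 := by
    refine min_eq_right ?_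
    have h3 : (s₁ : ℝ) ≤ s := by
      have : s₁ ≤ s := by omega
      exact_mod_cast this
    have h4 : √m / Real.log m ^ 3 ≤ (s : ℝ) / m := by
      rw [le_div_iff₀ hm', mul_comm]
      exact hs₁.trans h3
    linarith
  rw [h2] at h1
  exact h1

end Pool.Agent.Lib_helper56.UB
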