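import Pool.Agent.Lib_helper56.UB.Tail
import Pool.Agent.Lib_helper56.UB.Energy

/-!
# The sets of sums of exactly `j` elements
-/

set_option autoImplicit false

namespace Pool.Agent.Lib_helper56.UB

open Finset

variable {k : ℕ} {G : Type} [AddCommGroup G] [Fintype G] [DecidableEq G]

/-- The value of a vector. -/
def phi (a : Fin k → G) (v : Fin k → ℕ) : G := ∑ i, v i • a i

theorem phi_add (a : Fin k → G) (v w : Fin k → ℕ) : phi a (v + w) = phi a v + phi a w := by
  unfold phi
  rw [← Finset.sum_add_distrib]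
  exact Finset.sum_congr rfl fun i _ => by rw [Pi.add_apply, add_smul]

theorem phi_single (a : Fin k → G) (i : Fin k) (t : ℕ) : phi a (Pi.single i t) = t • a i := by
  unfold phi
  rw [Finset.sum_eq_single i]
  · rw [Pi.single_eq_same]
  · intro j _ hj
    rw [Pi.single_eq_of_ne hj, zero_smul]
  · intro h
    exact absurd (Finset.mem_univ i) h

/-- The sums of `j` elements. -/
def Sg (a : Fin k → G) (j : ℕ) : Finset G := (Dl k j).image (phi a)

theorem mem_Sg {a : Fin k → G} {j : ℕ} {x : G} :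
    x ∈ Sg a j ↔ ∃ v : Fin k → ℕ, ∑ i, v i = j ∧ phi a v = x := by
  simp [Sg, mem_Dl]

theorem Sg_add {a : Fin k → G} {j : ℕ} {x : G} (hx : x ∈ Sg a j) (i : Fin k) (t : ℕ) :
    x + t • a i ∈ Sg a (j + t) := by
  rw [mem_Sg] at hx ⊢
  obtain ⟨v, hv, rfl⟩ := hx
  exact ⟨v + Pi.single i t, by rw [sum_add_single, hv], by rw [phi_add, phi_single]⟩

theorem Sg_mono {a : Fin k → G} {i0 : Fin k} (h0 : a i0 = 0) {j j' : ℕ} (h : j ≤ j') :
    Sg a j ⊆ Sg a j' := by
  intro x hx
  have h1 := Sg_add hx i0 (j' - j)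
  rw [h0, smul_zero, add_zero, Nat.add_sub_cancel' h] at h1
  exact h1

theorem card_Sg_le (a : Fin k → G) (j : ℕ) : (Sg a j).card ≤ Nn k j := Finset.card_image_le

/-- The standard vectors. -/
def Std (a : Fin k → G) : Set (Fin k → ℕ) :=
  {v | ∀ w : Fin k → ℕ, ∑ i, w i = ∑ i, v i → phi a w = phi a v → toLex v ≤ toLex w}

theorem Std_DC (a : Fin k → G) : DC (Std a) := by
  intro v i hv w hw hφ
  have h1 := hv (w + Pi.single i 1) (by rw [sum_add_single, sum_add_single, hw])
    (by rw [phi_add, phi_add, hφ])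
  rw [toLex_add, toLex_add] at h1
  exact le_of_add_le_add_right h1

theorem card_Std (a : Fin k → G) (j : ℕ) : (lev (Std a) j).card = (Sg a j).card := by
  classical
  have h1 : (lev (Std a) j).image (phi a) = Sg a j := by
    ext x
    rw [Finset.mem_image]
    constructor
    · rintro ⟨v, hv, rfl⟩
      rw [mem_lev] at hv
      exact mem_Sg.2 ⟨v, hv.1, rfl⟩
    · intro hx
      obtain ⟨v, hv, hvx⟩ := mem_Sg.1 hx
      obtain ⟨w, hw, hmin⟩ := Finset.exists_min_image ((Dl k j).filter fun v => phi a v = x)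
        (fun v => toLex v) ⟨v, Finset.mem_filter.2 ⟨mem_Dl.2 hv, hvx⟩⟩
      rw [Finset.mem_filter, mem_Dl] at hw
      refine ⟨w, mem_lev.2 ⟨hw.1, ?_⟩, hw.2⟩
      intro u hu hφ
      exact hmin u (Finset.mem_filter.2 ⟨mem_Dl.2 (hu.trans hw.1), hφ.trans hw.2⟩)
  rw [← h1, Finset.card_image_of_injOn]
  intro v hv w hw hvw
  rw [Finset.mem_coe, mem_lev] at hv hw
  have h2 := hv.2 w (hw.1.trans hv.1.symm) hvw.symm
  have h3 := hw.2 v (hv.1.trans hw.1.symm) hvw
  exact toLex_inj.1 (le_antisymm h2 h3)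

/-- The density of the sets of sums decreases. -/
theorem Sg_density (a : Fin k → G) (hk : 0 < k) {j J : ℕ} (h : j ≤ J) :
    (Sg a J).card * Nn k j ≤ (Sg a j).card * Nn k J := by
  rw [← card_Std, ← card_Std]
  exact mono (Std_DC a) hk h

theorem Hf_ge (a : Fin k → G) (t j : ℕ) (v : Fin k → ℕ) (hv : ∑ i, v i = j + t) :
    (k : ℝ) - Zn t v ≤ Hf (fun i => t • a i) (Sg a j) (phi a v) := by
  classical
  have h1 : (k : ℝ) - Zn t v = ∑ i : Fin k, if v i < t then (0 : ℝ) else 1 := by
    have h2 : ∀ i : Fin k, (if v i < t then (0 : ℝ) else 1) = 1 - if v i < t then (1 : ℝ) else 0 := by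
      intro i
      split_ifs <;> norm_num
    rw [Finset.sum_congr rfl fun i _ => h2 i, Finset.sum_sub_distrib, Finset.sum_boole, Zn]
    simp
  rw [h1, Hf]
  refine Finset.sum_le_sum fun i _ => ?_
  split_ifs with h2
  · exact chi_nonneg _ _
  · obtain ⟨w, hw⟩ := exists_sub (v := v) (i := i) (t := t) (by omega)
    unfold chi
    rw [if_pos]
    rw [mem_Sg]
    refine ⟨w, ?_, ?_⟩
    · rw [← hw, sum_add_single] at hv
      omega
    · rw [← hw, phi_add, phi_single, add_sub_cancel_right]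

/-- The energy inequality for three consecutive levels. -/
theorem level (a : Fin k → G) (t j r : ℕ) (hr : r ≤ k) :
    ((k : ℝ) - r) * k * (((Sg a (j + t + t)).card : ℝ) - (Sg a (j + t)).card -
        ((Dl k (j + t + t)).filter fun v => r ≤ Zn t v).card) *
        (Fintype.card G - (Sg a j).card) ≤
      k ^ 2 * (((Sg a (j + t)).card - (Sg a j).card) * (Fintype.card G - (Sg a (j + t)).card)) := by
  classical
  refine energy (fun i => t • a i) (Sg a (j + t + t)) (Sg a (j + t)) (Sg a j) ?_ ?_ _ _ ?_ ?_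
  · intro x i hx
    have h1 := Sg_add hx i t
    rw [sub_add_cancel] at h1
    exact h1
  · intro y hy i
    exact Sg_add hy i t
  · rw [sub_nonneg]
    exact_mod_cast hr
  · refine Nat.cast_le.2 ((Finset.card_le_card ?_).trans (Finset.card_image_le (f := phi a)))
    intro x hx
    rw [Finset.mem_filter] at hx
    obtain ⟨v, hv, rfl⟩ := mem_Sg.1 hx.1
    rw [Finset.mem_image]
    refine ⟨v, Finset.mem_filter.2 ⟨mem_Dl.2 hv, ?_⟩, rfl⟩
    have h1 := Hf_ge a t (j + t) v hv
    have h2 : (r : ℝ) < Zn t v := by linarith [hx.2]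
    exact le_of_lt (by exact_mod_cast h2)

end Pool.Agent.Lib_helper56.UB
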