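import Pool.Agent.Lib_helper56.UB.Ratio

/-!
# The lemmas about the parameters
-/

set_option autoImplicit false

namespace Pool.Agent.Lib_helper56.UB

open Real

theorem exp_neg_two_le {x : ℝ} (h0 : 0 ≤ x) (h1 : x ≤ 1 / 2) : exp (-(2 * x)) ≤ 1 - x := by
  have h2 := add_one_le_exp (2 * x)
  have h3 : 0 < exp (2 * x) := exp_pos _
  have h4 : 1 ≤ (1 - x) * exp (2 * x) := by
    have h5 : (1 - x) * (2 * x + 1) ≤ (1 - x) * exp (2 * x) :=
      mul_le_mul_of_nonneg_left h2 (by linarith)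
    nlinarith
  rw [exp_neg, inv_le_comm₀ h3 (by linarith), inv_eq_one_div, div_le_iff₀ (by linarith), mul_comm]
  exact h4

theorem exp_neg_div_le {x : ℝ} (h1 : x < 1) : exp (-(x / (1 - x))) ≤ 1 - x := by
  have h2 := add_one_le_exp (x / (1 - x))
  have h3 : 0 < exp (x / (1 - x)) := exp_pos _
  have h4 : 0 < 1 - x := by linarith
  have h5 : x / (1 - x) + 1 = 1 / (1 - x) := by
    field_simp
    ring
  rw [h5] at h2
  rw [exp_neg, inv_le_comm₀ h3 h4, inv_eq_one_div]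
  exact h2

theorem exp_le_one_add_two {x : ℝ} (h0 : 0 ≤ x) (h1 : x ≤ 1 / 2) : exp x ≤ 1 + 2 * x := by
  have h2 := add_one_le_exp (-x)
  have h3 : 0 < exp x := exp_pos _
  have h4 : exp (-x) * exp x = 1 := by rw [← exp_add]; simp
  have h5 : (1 - x) * exp x ≤ 1 := by
    have : (-x + 1) * exp x ≤ exp (-x) * exp x := mul_le_mul_of_nonneg_right h2 h3.le
    linarith
  nlinarith

/-- The bound of the proportion of the bad vectors. -/
theorem tau_le {k l r : ℕ} {w δ : ℝ} (hlr : l ≤ r) (hw : 0 ≤ w) (hδ0 : 0 ≤ δ) (hδ1 : δ ≤ 1)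
    (h : (1 + δ / 2) * w * k ≤ (r : ℝ) - l) :
    (k.choose l : ℝ) / r.choose l * w ^ l ≤ exp (-(δ / 4 * l)) := by
  have h1 : (k.choose l : ℝ) ≤ (k : ℝ) ^ l / (l.factorial : ℝ) := Nat.choose_le_pow_div l k
  have h2 : ((r + 1 - l : ℕ) : ℝ) ^ l / (l.factorial : ℝ) ≤ r.choose l := Nat.pow_le_choose l r
  have h3 : ((r + 1 - l : ℕ) : ℝ) = (r : ℝ) + 1 - l := by
    rw [Nat.cast_sub (by omega)]
    push_cast
    ring
  rw [h3] at h2
  have hf : (0 : ℝ) < l.factorial := by exact_mod_cast l.factorial_pos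
  have hr : (0 : ℝ) < r.choose l := by exact_mod_cast Nat.choose_pos hlr
  have hrl : (0 : ℝ) ≤ (r : ℝ) - l := by
    rw [sub_nonneg]
    exact_mod_cast hlr
  have h4 : (1 + δ / 2) ^ l * ((k : ℝ) ^ l * w ^ l) ≤ ((r : ℝ) + 1 - l) ^ l := by
    rw [← mul_pow, ← mul_pow]
    refine pow_le_pow_left₀ (by positivity) ?_ l
    nlinarith
  have h5 : exp (δ / 4 * l) ≤ (1 + δ / 2) ^ l := by
    have h6 : exp (δ / 4) ≤ 1 + 2 * (δ / 4) := exp_le_one_add_two (by linarith) (by linarith)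
    have h7 : exp (δ / 4 * l) = exp (δ / 4) ^ l := by
      rw [← exp_nat_mul]
      congr 1
      ring
    rw [h7]
    refine pow_le_pow_left₀ (exp_nonneg _) ?_ l
    linarith
  have h8 : exp (δ / 4 * l) * ((k.choose l : ℝ) * w ^ l) ≤ r.choose l := by
    calc exp (δ / 4 * l) * ((k.choose l : ℝ) * w ^ l)
        ≤ (1 + δ / 2) ^ l * ((k : ℝ) ^ l / (l.factorial : ℝ) * w ^ l) := by
          refine mul_le_mul h5 (mul_le_mul_of_nonneg_right h1 (pow_nonneg hw l)) (by positivity)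
            (by positivity)
      _ = (1 + δ / 2) ^ l * ((k : ℝ) ^ l * w ^ l) / (l.factorial : ℝ) := by ring
      _ ≤ ((r : ℝ) + 1 - l) ^ l / (l.factorial : ℝ) := div_le_div_of_nonneg_right h4 hf.le
      _ ≤ r.choose l := h2
  have h9 : 0 < exp (δ / 4 * l) := exp_pos _
  rw [exp_neg, div_mul_eq_mul_div, div_le_iff₀ hr, inv_mul_eq_div, le_div_iff₀ h9, mul_comm]
  exact h8

theorem q_bound {k r u δ ε : ℝ} (hk : 0 < k) (hr : r ≤ (1 + 4 * δ) * u * k) (hu0 : 0 ≤ u)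
    (hu : u < 1 - ε) (hε : 0 < ε) (hδ0 : 0 ≤ δ) (hδ : 4 * δ ≤ ε / 2) :
    0 < k - r ∧ k / (k - r) * (1 - u) ≤ exp (8 * δ * u * (1 / ε)) := by
  have hu1 : u ≤ 1 := by linarith
  set x : ℝ := 4 * δ * u * (1 / ε) with hx
  have hx0 : 0 ≤ x := by positivity
  have hεx : ε * x = 4 * δ * u := by
    rw [hx]
    field_simp
  have hx1 : x ≤ 1 / 2 := by
    have h1 : 4 * δ * u ≤ 4 * δ * 1 := mul_le_mul_of_nonneg_left hu1 (by positivity)
    have h2 : ε * x ≤ ε * (1 / 2) := by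
      rw [hεx]
      linarith
    exact le_of_mul_le_mul_left h2 hε
  have h1 : (1 - u) * (1 - x) ≤ 1 - (1 + 4 * δ) * u := by
    have h2 : ε * x ≤ (1 - u) * x := mul_le_mul_of_nonneg_right (by linarith) hx0
    nlinarith
  have h3 := exp_neg_two_le hx0 hx1
  have h4 : (1 - u) * exp (-(2 * x)) ≤ 1 - (1 + 4 * δ) * u :=
    (mul_le_mul_of_nonneg_left h3 (by linarith)).trans h1
  have h5 : k * ((1 - u) * exp (-(2 * x))) ≤ k - r := by
    have := mul_le_mul_of_nonneg_left h4 hk.le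
    nlinarith
  have h6 : 0 < k * ((1 - u) * exp (-(2 * x))) :=
    mul_pos hk (mul_pos (by linarith) (exp_pos _))
  have h7 : 0 < k - r := lt_of_lt_of_le h6 h5
  refine ⟨h7, ?_⟩
  have h8 : 8 * δ * u * (1 / ε) = 2 * x := by rw [hx]; ring
  rw [h8, div_mul_eq_mul_div, div_le_iff₀ h7]
  have h9 : exp (2 * x) * exp (-(2 * x)) = 1 := by rw [← exp_add]; simp
  calc k * (1 - u) = exp (2 * x) * (k * ((1 - u) * exp (-(2 * x)))) := by
        have : exp (2 * x) * (k * ((1 - u) * exp (-(2 * x)))) =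
          k * (1 - u) * (exp (2 * x) * exp (-(2 * x))) := by ring
        rw [this, h9, mul_one]
    _ ≤ exp (2 * x) * (k - r) := mul_le_mul_of_nonneg_left h5 (exp_nonneg _)

/-- The final numerical inequality for the first term. -/
theorem term_one {ε L δ : ℝ} (hε : 0 < ε) (hε2 : ε ≤ 1 / 2) (hL : 1000 * (1 / ε ^ 2) ≤ L)
    (hδ0 : 0 ≤ δ) (hδ : δ ≤ ε / 1000) :
    exp (8 * δ * L * (1 / ε)) * ((1 + δ) * (1 - ε)) ≤ 1 - 3 / 4 * ε ∨ δ * L ^ 2 ≠ 1 := by
  by_cases h : δ * L ^ 2 = 1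
  · left
    have hL0 : 0 < L := lt_of_lt_of_le (by positivity) hL
    have h1 : δ * L * L = 1 := by rw [← h]; ring
    have h2 : δ * L ≤ ε ^ 2 / 1000 := by
      have h3 : 1000 ≤ L * ε ^ 2 := by
        have := mul_le_mul_of_nonneg_right hL (by positivity : (0 : ℝ) ≤ ε ^ 2)
        have h4 : 1000 * (1 / ε ^ 2) * ε ^ 2 = 1000 := by field_simp
        linarith
      rw [le_div_iff₀ (by norm_num)]
      have h5 : 0 ≤ δ * L := by positivity
      calc δ * L * 1000 ≤ δ * L * (L * ε ^ 2) := mul_le_mul_of_nonneg_left h3 h5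
        _ = ε ^ 2 * (δ * L * L) := by ring
        _ = ε ^ 2 := by rw [h1, mul_one]
    have h6 : 8 * δ * L * (1 / ε) ≤ ε / 125 := by
      have h7 : 8 * δ * L * (1 / ε) ≤ 8 * (ε ^ 2 / 1000) * (1 / ε) := by
        refine mul_le_mul_of_nonneg_right ?_ (by positivity)
        linarith
      have h8 : 8 * (ε ^ 2 / 1000) * (1 / ε) = ε / 125 := by
        field_simp
        ring
      linarith
    have h9 : exp (8 * δ * L * (1 / ε)) ≤ 1 + ε / 60 := by
      have h10 := exp_le_one_add_two (x := 8 * δ * L * (1 / ε)) (by positivity) (by linarith)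
      linarith
    have h11 : 0 ≤ (1 + δ) * (1 - ε) := mul_nonneg (by linarith) (by linarith)
    have h12 : (1 + δ) * (1 - ε) ≤ (1 + ε / 1000) * (1 - ε) :=
      mul_le_mul_of_nonneg_right (by linarith) (by linarith)
    calc exp (8 * δ * L * (1 / ε)) * ((1 + δ) * (1 - ε))
        ≤ (1 + ε / 60) * ((1 + ε / 1000) * (1 - ε)) :=
          mul_le_mul h9 h12 h11 (by positivity)
      _ ≤ 1 - 3 / 4 * ε := by nlinarith [mul_pos hε hε, mul_pos (mul_pos hε hε) hε]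
  · right
    exact h

theorem Pr_anti (m s : ℕ) {t t' : ℕ} (h : t ≤ t') : Pr m t' s ≤ Pr m t s := by
  unfold Pr
  refine div_le_div_of_nonneg_right ?_ (Nn_pos' m s).le
  exact_mod_cast Nn_mono (Nat.succ_pos m) (Nat.sub_le_sub_left h s)


theorem basics {ε L : ℝ} (hε : 0 < ε) (hε2 : ε ≤ 1 / 2) (hL1 : 1000 / ε ^ 2 ≤ L) :
    2 ≤ 1 / ε ∧ 1000 * (1 / ε ^ 2) ≤ L ∧ 2000 * (1 / ε) ≤ L ∧ 4000 ≤ L ∧ 4000 * L ≤ L ^ 2 ∧
      4000 * L ^ 2 ≤ L ^ 3 := by
  have hεinv : 2 ≤ 1 / ε := by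
    rw [le_div_iff₀ hε]
    linarith
  have hε2inv : 1 / ε * 2 ≤ 1 / ε ^ 2 := by
    have : 1 / ε ^ 2 = (1 / ε) * (1 / ε) := by
      field_simp
    rw [this]
    exact mul_le_mul_of_nonneg_left hεinv (by linarith)
  have hLε2 : 1000 * (1 / ε ^ 2) ≤ L := by
    rw [mul_one_div]
    exact hL1
  have hLε : 2000 * (1 / ε) ≤ L := by linarith
  have hL0 : 4000 ≤ L := by linarith
  have hL3 : 4000 * L ^ 2 ≤ L ^ 3 := by
    have : L ^ 3 = L * L ^ 2 := by ring
    rw [this]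
    exact mul_le_mul_of_nonneg_right hL0 (by positivity)
  have hL2 : 4000 * L ≤ L ^ 2 := by
    rw [sq]
    exact mul_le_mul_of_nonneg_right hL0 (by linarith)
  exact ⟨hεinv, hLε2, hLε, hL0, hL2, hL3⟩

/-- The exponent of the second term. -/
theorem expo_le {ε L v κ : ℝ} (hε : 0 < ε) (hεinv : 2 ≤ 1 / ε) (hLε : 2000 * (1 / ε) ≤ L)
    (hL0 : 4000 ≤ L) (hv : 1 ≤ v) (hκ : κ ≤ 8 * (1 / ε) - 1) :
    2 * L * (1 / ε) + (L + L / 2) + (1 - L ^ 2 * v / 128) + L / 2 + 4 * (1 / ε) * (L * v) ≤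
      -κ := by
  have hi : 0 < 1 / ε := by positivity
  generalize 1 / ε = i at *
  have hLpos : 0 < L := by linarith
  have hLi : 0 < L * i := mul_pos hLpos hi
  have h27 : 2 * L ≤ L * i := by
    have := mul_le_mul_of_nonneg_left hεinv hLpos.le
    linarith
  have h26 : 2 * L * i + (L + L / 2) + 1 + L / 2 ≤ 4 * (L * i) := by
    linarith
  have h28 : 4 * (L * i) ≤ 4 * (L * i) * v := by
    have := mul_le_mul_of_nonneg_left hv (by linarith : (0 : ℝ) ≤ 4 * (L * i))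
    linarith
  have h29 : 15 * (L * i) ≤ L ^ 2 / 128 := by
    have h30 := mul_le_mul_of_nonneg_left hLε hLpos.le
    have h31 : L * (2000 * i) = 2000 * (L * i) := by ring
    have h32 : L ^ 2 = L * L := sq L
    linarith
  have h31 : 15 * (L * i) * v ≤ L ^ 2 / 128 * v :=
    mul_le_mul_of_nonneg_right h29 (by linarith)
  have h33 : κ ≤ 7 * (L * i) := by
    have : 4000 * i ≤ L * i := mul_le_mul_of_nonneg_right hL0 hi.le
    linarith
  have h32 : κ ≤ 7 * (L * i) * v := by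
    have h34 := mul_le_mul_of_nonneg_left hv (by linarith : (0 : ℝ) ≤ 7 * (L * i))
    linarith
  have h35 : 4 * i * (L * v) = 4 * (L * i) * v := by ring
  have h36 : L ^ 2 * v / 128 = L ^ 2 / 128 * v := by ring
  have h37 : 15 * (L * i) * v = 4 * (L * i) * v + 4 * (L * i) * v + 7 * (L * i) * v := by ring
  rw [h35, h36]
  linarith

theorem delta_le {R L u δ k m : ℝ} (hL : 0 < L) (hRR : R * R = m) (hRu : L ^ 3 / 4 ≤ R * u)
    (hu : 0 < u) (hδ : 0 < δ) (hδL : δ * L ^ 2 = 1) (hk : m ≤ k) :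
    L ^ 2 * (1 / u) / 128 ≤ δ * δ * u * k / 8 := by
  have h7 : L ^ 6 / 16 ≤ m * (u * u) := by
    have h8 : L ^ 3 / 4 * (L ^ 3 / 4) ≤ R * u * (R * u) :=
      mul_le_mul hRu hRu (by positivity) (le_trans (by positivity) hRu)
    have h9 : R * u * (R * u) = m * (u * u) := by rw [← hRR]; ring
    have h10 : L ^ 3 / 4 * (L ^ 3 / 4) = L ^ 6 / 16 := by ring
    rw [h9, h10] at h8
    exact h8
  have h10 : m * (u * u) ≤ k * (u * u) := mul_le_mul_of_nonneg_right hk (by positivity)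
  have h11 : δ * δ * (L ^ 6 / 16) ≤ δ * δ * (k * (u * u)) :=
    mul_le_mul_of_nonneg_left (h7.trans h10) (by positivity)
  have h12 : δ * δ * (L ^ 6 / 16) = (δ * L ^ 2) * (δ * L ^ 2) * L ^ 2 / 16 := by ring
  rw [h12, hδL, one_mul, one_mul] at h11
  have h13 : L ^ 2 * (1 / u) ≤ 16 * (δ * δ * u * k) := by
    rw [mul_one_div, div_le_iff₀ hu]
    have h14 : 16 * (δ * δ * u * k) * u = 16 * (δ * δ * (k * (u * u))) := by ring
    rw [h14]
    linarith
  linarith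

theorem l_bound {u w δ k l : ℝ} (hδ : 0 < δ) (hδ1 : δ ≤ 1) (hu : 0 < u) (hw : w = (1 + δ) * u)
    (hk : 0 < k) (hl : δ * w * k / 2 < l + 1) : δ * δ * u * k / 8 - 1 ≤ δ / 4 * l := by
  have h3 : δ / 4 * (δ * w * k / 2) ≤ δ / 4 * (l + 1) :=
    mul_le_mul_of_nonneg_left hl.le (by positivity)
  have h5 : u ≤ w := by
    rw [hw]
    have : 0 < δ * u := mul_pos hδ hu
    linarith
  have h4 : δ * δ * k * u ≤ δ * δ * k * w := mul_le_mul_of_nonneg_left h5 (by positivity)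
  have h6 : δ / 4 * (δ * w * k / 2) = δ * δ * k * w / 8 := by ring
  have h7 : δ * δ * u * k = δ * δ * k * u := by ring
  rw [h6] at h3
  rw [h7]
  linarith

theorem t_bound {m s t : ℕ} {u ε : ℝ} (hs : 0 < s) (hm : 0 < m) (hts : t ≤ s)
    (hPr : Pr m t s = 1 - u) (hu : 0 < u) (hu1 : u < 1 - ε) (hε : 0 < ε) :
    (t : ℝ) * m ≤ (s + m) * (u * (1 / ε)) := by
  have hsR : (0 : ℝ) < s := by exact_mod_cast hs
  have hmR : (0 : ℝ) < m := by exact_mod_cast hm
  have h1 := Pr_le_exp m hts hs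
  rw [hPr] at h1
  have h2 := exp_neg_div_le (x := u) (by linarith)
  have h3 := Real.exp_le_exp.1 (h2.trans h1)
  have h4 : (t : ℝ) * (m / ((s : ℝ) + m)) ≤ u / (1 - u) := by linarith
  have h5 : u / (1 - u) ≤ u * (1 / ε) := by
    rw [mul_one_div]
    exact div_le_div_of_nonneg_left hu.le hε (by linarith)
  have h6 : (t : ℝ) * m / (s + m) ≤ u * (1 / ε) := by
    rw [mul_div_assoc]
    linarith
  rw [div_le_iff₀ (by positivity)] at h6
  linarith

theorem s_bound {m s t : ℕ} {u ε : ℝ} (hs : 0 < s) (hm : 0 < m) (ht : 1 ≤ t)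
    (hPr : Pr m t s = 1 - u) (hu1 : u < 1 - ε) :
    ε * ((s : ℝ) + m) ≤ s := by
  have hsR : (0 : ℝ) < s := by exact_mod_cast hs
  have hmR : (0 : ℝ) < m := by exact_mod_cast hm
  have h1 := Pr_anti m s ht
  have h2 := Pr_succ m (t := 0) (J := s) (by omega)
  rw [Pr_zero, one_mul] at h2
  rw [Nat.zero_add] at h2
  rw [h2, hPr] at h1
  have h3 : ε ≤ 1 - (m : ℝ) / ((s : ℝ) - ((0 : ℕ) : ℝ) + m) := by linarith
  rw [Nat.cast_zero, sub_zero] at h3
  have h4 : (0 : ℝ) < (s : ℝ) + m := by positivity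
  have h5 : ε * ((s : ℝ) + m) ≤ (1 - (m : ℝ) / ((s : ℝ) + m)) * ((s : ℝ) + m) :=
    mul_le_mul_of_nonneg_right h3 h4.le
  have h6 : (1 - (m : ℝ) / ((s : ℝ) + m)) * ((s : ℝ) + m) = s := by
    field_simp
    ring
  linarith

theorem T_bound {m s t J u ε L : ℝ} (hε : 0 < ε) (hL : 0 < L) (ht : 0 ≤ t) (hJ : 0 ≤ J)
    (hu0 : 0 < u) (hu1 : u ≤ L) (hJL : J * u ≤ L) (hs : 0 < s)
    (htM : t * m ≤ (s + m) * (u * (1 / ε))) (hsM : ε * (s + m) ≤ s)
    (hmL : 8 * L ^ 3 ≤ ε ^ 2 * m) : (J + 1) * t * (4 * L ^ 2) ≤ s := by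
  have hT0 : 0 ≤ (J + 1) * t := by positivity
  have h1 : (J + 1) * t * (ε ^ 2 * m) ≤ 2 * L * s := by
    calc (J + 1) * t * (ε ^ 2 * m) = (J + 1) * ε ^ 2 * (t * m) := by ring
      _ ≤ (J + 1) * ε ^ 2 * ((s + m) * (u * (1 / ε))) :=
          mul_le_mul_of_nonneg_left htM (by positivity)
      _ = (J * u + u) * (ε * (s + m)) := by
          field_simp
      _ ≤ (J * u + u) * s := mul_le_mul_of_nonneg_left hsM (by positivity)
      _ ≤ 2 * L * s := mul_le_mul_of_nonneg_right (by linarith) hs.le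
  have h2 : (J + 1) * t * (8 * L ^ 3) ≤ (J + 1) * t * (ε ^ 2 * m) :=
    mul_le_mul_of_nonneg_left hmL hT0
  have h3 : 2 * L * ((J + 1) * t * (4 * L ^ 2)) ≤ 2 * L * s := by
    calc 2 * L * ((J + 1) * t * (4 * L ^ 2)) = (J + 1) * t * (8 * L ^ 3) := by ring
      _ ≤ 2 * L * s := h2.trans h1
  exact le_of_mul_le_mul_left h3 (by positivity)

/-- The comparison of the steps. -/
theorem step_bound {m s t J j : ℕ} {u δ L : ℝ} (hPr : Pr m t s = 1 - u) (hj : j ≤ J)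
    (hJt : (J + 1) * t ≤ s) (hTs : ((J : ℝ) + 1) * t * (4 * L ^ 2) ≤ s) (hδ : 0 < δ)
    (hδ1 : δ ≤ 1) (hδL : δ * L ^ 2 = 1) :
    Pr m t (s - j * t) ≤ 1 - u ∧ 1 - Pr m t (s - j * t) ≤ (1 + δ) * u := by
  have h1 : (j + 1) * t ≤ s := (Nat.mul_le_mul_right t (by omega)).trans hJt
  have h2 : (j + 1) * t = j * t + t := by ring
  have h3 : ((s - j * t : ℕ) : ℝ) = (s : ℝ) - j * t := by
    rw [Nat.cast_sub (by omega)]
    push_cast
    ring
  have hjJ : (j : ℝ) ≤ J := by exact_mod_cast hj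
  have h6 : (j : ℝ) + 1 ≤ (J : ℝ) + 1 := by linarith
  have h7 := mul_le_mul_of_nonneg_right h6 (Nat.cast_nonneg (α := ℝ) t)
  have h4' : (j : ℝ) * t + t ≤ ((J : ℝ) + 1) * t := by linarith
  have ht0 : (0 : ℝ) ≤ t := Nat.cast_nonneg t
  have hm0 : (0 : ℝ) ≤ m := Nat.cast_nonneg m
  have hs0 : (0 : ℝ) ≤ s := Nat.cast_nonneg s
  generalize ((J : ℝ) + 1) * t = T at *
  have h8 : T ≤ δ * (s / 4) := by
    have h9 := mul_le_mul_of_nonneg_left hTs hδ.le
    have h10 : δ * (T * (4 * L ^ 2)) = 4 * T * (δ * L ^ 2) := by ring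
    rw [h10, hδL] at h9
    linarith
  have h11 : δ * (s / 4) ≤ s / 4 := by
    have := mul_le_mul_of_nonneg_right hδ1 (by positivity : (0 : ℝ) ≤ (s : ℝ) / 4)
    linarith
  have h := Pr_compare m (t := t) (J := s) (J' := s - j * t) (Nat.sub_le _ _) (by omega)
    (lam := 1 + δ) (by linarith) (by
      rw [h3]
      have h12 : δ * (s / 4) ≤ δ * ((s : ℝ) - j * t - t + m) :=
        mul_le_mul_of_nonneg_left (by linarith) hδ.le
      linarith)
  rw [hPr] at h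
  refine ⟨h.1, ?_⟩
  have h13 := h.2
  have h14 : (1 : ℝ) - (1 - u) = u := by ring
  rw [h14] at h13
  exact h13

theorem pow_bound {m s t J : ℕ} {u δ : ℝ} (hu : u < 1) (hJt : (J + 1) * t ≤ s)
    (hcomp : ∀ j ≤ J, Pr m t (s - j * t) ≤ 1 - u ∧ 1 - Pr m t (s - j * t) ≤ (1 + δ) * u) :
    AA (m + 1) s t J ≤ AA (m + 1) s t 0 * (1 - u) ^ J ∧
      AA (m + 1) s t J - AA (m + 1) s t (J + 1) ≤
        (1 + δ) * u * (AA (m + 1) s t 0 * (1 - u) ^ J) := by
  have hAstep : ∀ j ≤ J, AA (m + 1) s t (j + 1) = AA (m + 1) s t j * Pr m t (s - j * t) := by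
    intro j hj
    have h1 := AA_ratio m s t j ((Nat.mul_le_mul_right t (by omega)).trans hJt)
    have h2 := AA_pos (Nat.succ_pos m) s t j
    rw [← h1]
    field_simp
  have h1u : 0 < 1 - u := by linarith
  have hA0 := AA_pos (Nat.succ_pos m) s t 0
  have hApow : ∀ j ≤ J, AA (m + 1) s t j ≤ AA (m + 1) s t 0 * (1 - u) ^ j := by
    intro j
    induction j with
    | zero => intro _; rw [pow_zero, mul_one]
    | succ j ih =>
      intro hj
      rw [hAstep j (by omega), pow_succ, ← mul_assoc]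
      exact mul_le_mul (ih (by omega)) (hcomp j (by omega)).1 (Pr_pos _ _ _).le (by positivity)
  refine ⟨hApow J le_rfl, ?_⟩
  rw [hAstep J le_rfl]
  have h2 : AA (m + 1) s t J - AA (m + 1) s t J * Pr m t (s - J * t) =
      (1 - Pr m t (s - J * t)) * AA (m + 1) s t J := by ring
  rw [h2]
  have h3 : 0 ≤ (1 + δ) * u := by
    refine le_trans ?_ (hcomp J le_rfl).2
    have := Pr_le_one m t (s - J * t)
    linarith
  exact mul_le_mul (hcomp J le_rfl).2 (hApow J le_rfl) (AA_pos (Nat.succ_pos m) s t J).le h3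

theorem powexp {u c κ ε : ℝ} {J : ℕ} (hu0 : u < 1) (hc : 0 < c) (hε : 0 < ε)
    (hexpκ : Real.exp κ = 8 / ε) (hJ1 : Real.log c + κ ≤ J * u) :
    (1 - u) ^ J ≤ ε / 8 * (1 / c) := by
  have h1u : 0 < 1 - u := by linarith
  have h1 : 1 - u ≤ Real.exp (-u) := by
    have := Real.add_one_le_exp (-u)
    linarith
  have h2 : (1 - u) ^ J ≤ Real.exp (-(J * u)) := by
    calc (1 - u) ^ J ≤ Real.exp (-u) ^ J := pow_le_pow_left₀ h1u.le h1 J
      _ = Real.exp (-(J * u)) := by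
        rw [← Real.exp_nat_mul]
        congr 1
        ring
  have h3 : Real.exp (-(J * u)) ≤ Real.exp (-(Real.log c + κ)) :=
    Real.exp_le_exp.2 (by linarith)
  have h4 : Real.exp (-(Real.log c + κ)) = ε / 8 * (1 / c) := by
    rw [Real.exp_neg, Real.exp_add, Real.exp_log hc, hexpκ]
    field_simp
  linarith

theorem q_pow_one {q u δ ε L : ℝ} {J : ℕ} (hq : 0 ≤ q * (1 - u))
    (hqexp : q * (1 - u) ≤ Real.exp (8 * δ * u * (1 / ε))) (hδ : 0 < δ) (hε : 0 < ε)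
    (hJL : J * u ≤ L) : q ^ J * (1 - u) ^ J ≤ Real.exp (8 * δ * L * (1 / ε)) := by
  rw [← mul_pow]
  calc (q * (1 - u)) ^ J ≤ Real.exp (8 * δ * u * (1 / ε)) ^ J :=
        pow_le_pow_left₀ hq hqexp J
    _ = Real.exp (8 * δ * (1 / ε) * (J * u)) := by
        rw [← Real.exp_nat_mul]
        congr 1
        ring
    _ ≤ Real.exp (8 * δ * L * (1 / ε)) := by
        refine Real.exp_le_exp.2 ?_
        have h1 := mul_le_mul_of_nonneg_left hJL (by positivity : (0 : ℝ) ≤ 8 * δ * (1 / ε))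
        have h2 : 8 * δ * L * (1 / ε) = 8 * δ * (1 / ε) * L := by ring
        rw [h2]
        exact h1

theorem q_pow_two {q u δ ε L : ℝ} {J : ℕ} (hq0 : 0 < q)
    (hqexp : q * (1 - u) ≤ Real.exp (8 * δ * u * (1 / ε))) (hδ8 : 8 * δ ≤ 1)
    (hε : 0 < ε) (hu : 0 < u) (hu1 : u < 1 - ε)
    (hJL : J * u ≤ L) : q ^ J ≤ Real.exp (2 * L * (1 / ε)) := by
  have h1 : q ≤ Real.exp (2 * u * (1 / ε)) := by
    have h2 := exp_neg_div_le (x := u) (by linarith)
    have h3 : Real.exp (-(u * (1 / ε))) ≤ 1 - u := by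
      refine le_trans (Real.exp_le_exp.2 ?_) h2
      have : u / (1 - u) ≤ u * (1 / ε) := by
        rw [mul_one_div]
        exact div_le_div_of_nonneg_left hu.le hε (by linarith)
      linarith
    have h4 : q * Real.exp (-(u * (1 / ε))) ≤ Real.exp (8 * δ * u * (1 / ε)) :=
      (mul_le_mul_of_nonneg_left h3 hq0.le).trans hqexp
    have h5 : Real.exp (8 * δ * u * (1 / ε)) ≤ Real.exp (u * (1 / ε)) := by
      refine Real.exp_le_exp.2 ?_
      have h6 := mul_le_mul_of_nonneg_right hδ8 (by positivity : (0 : ℝ) ≤ u * (1 / ε))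
      have h7 : 8 * δ * u * (1 / ε) = 8 * δ * (u * (1 / ε)) := by ring
      rw [h7]
      linarith
    have h7 : Real.exp (-(u * (1 / ε))) * Real.exp (u * (1 / ε)) = 1 := by
      rw [← Real.exp_add]
      simp
    calc q = q * Real.exp (-(u * (1 / ε))) * Real.exp (u * (1 / ε)) := by
          rw [mul_assoc, h7, mul_one]
      _ ≤ Real.exp (u * (1 / ε)) * Real.exp (u * (1 / ε)) :=
          mul_le_mul_of_nonneg_right (h4.trans h5) (Real.exp_nonneg _)
      _ = Real.exp (2 * u * (1 / ε)) := by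
          rw [← Real.exp_add]
          congr 1
          ring
  calc q ^ J ≤ Real.exp (2 * u * (1 / ε)) ^ J := pow_le_pow_left₀ hq0.le h1 J
    _ = Real.exp (2 * (1 / ε) * (J * u)) := by
        rw [← Real.exp_nat_mul]
        congr 1
        ring
    _ ≤ Real.exp (2 * L * (1 / ε)) := by
        refine Real.exp_le_exp.2 ?_
        have h1 := mul_le_mul_of_nonneg_left hJL (by positivity : (0 : ℝ) ≤ 2 * (1 / ε))
        have h2 : 2 * L * (1 / ε) = 2 * (1 / ε) * L := by ring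
        rw [h2]
        exact h1

theorem eta_bound {ε L u : ℝ} {J : ℕ} (hε : 0 < ε) (hJL' : (J : ℝ) ≤ L / u) :
    (1 : ℝ) / (ε / 4) ^ J ≤ Real.exp (4 * (1 / ε) * (L / u)) := by
  have h15 : 1 / (ε / 4) ≤ Real.exp (4 * (1 / ε)) := by
    have h16 := Real.add_one_le_exp (4 * (1 / ε))
    have h17 : 1 / (ε / 4) = 4 * (1 / ε) := by
      field_simp
    rw [h17]
    linarith
  calc (1 : ℝ) / (ε / 4) ^ J = (1 / (ε / 4)) ^ J := by rw [one_div_pow]
    _ ≤ Real.exp (4 * (1 / ε)) ^ J := pow_le_pow_left₀ (by positivity) h15 J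
    _ = Real.exp (4 * (1 / ε) * J) := by
        rw [← Real.exp_nat_mul]
        congr 1
        ring
    _ ≤ Real.exp (4 * (1 / ε) * (L / u)) :=
        Real.exp_le_exp.2 (mul_le_mul_of_nonneg_left hJL' (by positivity))

theorem exp_five (a b c d e n : ℝ) :
    Real.exp a * (Real.exp b * (Real.exp c * (Real.exp d * n) * Real.exp e)) =
      Real.exp (a + b + c + d + e) * n := by
  rw [Real.exp_add, Real.exp_add, Real.exp_add, Real.exp_add]
  ring

/-- The bound of the second term. -/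
theorem second {ε L R u κ n N c q Jr C W : ℝ} {J : ℕ} (hε : 0 < ε) (hεinv : 2 ≤ 1 / ε)
    (hLε : 2000 * (1 / ε) ≤ L) (hL0 : 4000 ≤ L) (hR : R = Real.exp (L / 2))
    (huinv : 1 / u ≤ R) (huinv1 : 1 ≤ 1 / u) (hκ : κ ≤ 8 * (1 / ε) - 1)
    (hexpκ : Real.exp κ = 8 / ε) (hn : 0 < n) (hN : 0 < N) (hNc : N = c * n) (hcR : c ≤ R)
    (hqpow : q ^ J ≤ Real.exp (2 * L * (1 / ε))) (hJr : (J : ℝ) = Jr)
    (hJL : (J : ℝ) ≤ L / u) (hC0 : 0 ≤ C)
    (hC : C ≤ Real.exp (1 - L ^ 2 * (1 / u) / 128)) (hW : W = C * N / (ε / 4) ^ J) :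
    q ^ J * (Jr * W) ≤ ε / 8 * n := by
  have hLpos : 0 < L := by linarith
  have hRpos : 0 < R := by
    rw [hR]
    exact Real.exp_pos _
  have h18 : Jr ≤ Real.exp (L + L / 2) := by
    rw [← hJr]
    have h19 : (J : ℝ) ≤ L * R := by
      refine hJL.trans ?_
      rw [← mul_one_div]
      exact mul_le_mul_of_nonneg_left huinv hLpos.le
    have h20 : L ≤ Real.exp L := by
      have := Real.add_one_le_exp L
      linarith
    rw [Real.exp_add, ← hR]
    exact h19.trans (mul_le_mul_of_nonneg_right h20 hRpos.le)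
  have hJr0 : 0 ≤ Jr := by
    rw [← hJr]
    exact Nat.cast_nonneg J
  have h21 : N ≤ Real.exp (L / 2) * n := by
    rw [hNc, ← hR]
    exact mul_le_mul_of_nonneg_right hcR hn.le
  have h14 := eta_bound (J := J) hε hJL
  have e3 : C * N ≤ Real.exp (1 - L ^ 2 * (1 / u) / 128) * (Real.exp (L / 2) * n) :=
    mul_le_mul hC h21 hN.le (Real.exp_nonneg _)
  have e4 : W ≤ Real.exp (1 - L ^ 2 * (1 / u) / 128) * (Real.exp (L / 2) * n) *
      Real.exp (4 * (1 / ε) * (L / u)) := by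
    have e5 : W = C * N * (1 / (ε / 4) ^ J) := by rw [hW]; ring
    rw [e5]
    exact mul_le_mul e3 h14 (by positivity) (by positivity)
  have hW0 : 0 ≤ W := by
    rw [hW]
    positivity
  have e5 := mul_le_mul h18 e4 hW0 (Real.exp_nonneg _)
  have e6 := mul_le_mul hqpow e5 (mul_nonneg hJr0 hW0) (Real.exp_nonneg _)
  refine e6.trans ?_
  have h23 : Real.exp (2 * L * (1 / ε)) * (Real.exp (L + L / 2) *
        (Real.exp (1 - L ^ 2 * (1 / u) / 128) * (Real.exp (L / 2) * n) *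
          Real.exp (4 * (1 / ε) * (L / u)))) =
      Real.exp (2 * L * (1 / ε) + (L + L / 2) + (1 - L ^ 2 * (1 / u) / 128) + L / 2 +
        4 * (1 / ε) * (L / u)) * n := exp_five _ _ _ _ _ n
  rw [h23]
  refine mul_le_mul_of_nonneg_right ?_ hn.le
  have h24 : 2 * L * (1 / ε) + (L + L / 2) + (1 - L ^ 2 * (1 / u) / 128) + L / 2 +
      4 * (1 / ε) * (L / u) ≤ -κ := by
    have h25 : L / u = L * (1 / u) := by rw [mul_one_div]
    rw [h25]
    exact expo_le hε hεinv hLε hL0 huinv1 hκ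
  calc Real.exp _ ≤ Real.exp (-κ) := Real.exp_le_exp.2 h24
    _ = ε / 8 := by
      rw [Real.exp_neg, hexpκ, inv_div]

/-- The bound of the first term. -/
theorem first {ε L u n N c q δ A A' : ℝ} {J : ℕ} (hε : 0 < ε) (hε2 : ε ≤ 1 / 2)
    (hLε2 : 1000 * (1 / ε ^ 2) ≤ L) (hδ : 0 < δ) (hδε : δ ≤ ε / 1000) (hδL : δ * L ^ 2 = 1)
    (hn : 0 < n) (hNc : N = c * n) (hcu0 : 0 ≤ c * u) (hcu : c * u ≤ 1 - ε) (hq : 0 < q)
    (hqpow : q ^ J * (1 - u) ^ J ≤ Real.exp (8 * δ * L * (1 / ε)))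
    (hAA : A - A' ≤ (1 + δ) * u * (N * (1 - u) ^ J)) :
    q ^ J * (A - A') ≤ (1 - 3 / 4 * ε) * n := by
  rcases term_one hε hε2 hLε2 hδ.le hδε with h3 | h3
  · have h4 : 0 ≤ (1 + δ) * (c * u) * n :=
      mul_nonneg (mul_nonneg (by linarith) hcu0) hn.le
    calc q ^ J * (A - A')
        ≤ q ^ J * ((1 + δ) * u * (N * (1 - u) ^ J)) :=
          mul_le_mul_of_nonneg_left hAA (by positivity)
      _ = (q ^ J * (1 - u) ^ J) * ((1 + δ) * (c * u) * n) := by
          rw [hNc]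
          ring
      _ ≤ Real.exp (8 * δ * L * (1 / ε)) * ((1 + δ) * (1 - ε) * n) := by
          refine mul_le_mul hqpow ?_ h4 (Real.exp_nonneg _)
          refine mul_le_mul_of_nonneg_right ?_ hn.le
          exact mul_le_mul_of_nonneg_left hcu (by linarith)
      _ = Real.exp (8 * δ * L * (1 / ε)) * ((1 + δ) * (1 - ε)) * n := by ring
      _ ≤ (1 - 3 / 4 * ε) * n := mul_le_mul_of_nonneg_right h3 hn.le
  · exact absurd hδL h3

/-- The final inequality. -/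
theorem final_ineq {ε n x y A : ℝ} (hε : 0 < ε) (hε2 : ε ≤ 1 / 2) (hn : 0 < n)
    (hx : x ≤ (1 - 3 / 4 * ε) * n) (hy : y ≤ ε / 8 * n) (hA : A ≤ ε / 8 * n) :
    x + y ≤ (1 - ε / 4) * (n - A) := by
  have h1 : (1 - ε / 4) * (n - ε / 8 * n) ≤ (1 - ε / 4) * (n - A) :=
    mul_le_mul_of_nonneg_left (by linarith) (by linarith)
  have h2 : (1 - 3 / 4 * ε) * n + ε / 8 * n ≤ (1 - ε / 4) * (n - ε / 8 * n) := by
    have h3 : 0 < ε * n := mul_pos hε hn
    have h4 : 0 < ε * (ε * n) := mul_pos hε h3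
    have h5 : (1 - ε / 4) * (n - ε / 8 * n) = n - 3 / 8 * (ε * n) + ε * (ε * n) / 32 := by ring
    have h6 : (1 - 3 / 4 * ε) * n + ε / 8 * n = n - 5 / 8 * (ε * n) := by ring
    rw [h5, h6]
    linarith
  linarith

end Pool.Agent.Lib_helper56.UB
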