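import Pool.Agent.Lib_helper56.UB.NumLemmas

/-!
# The choice of the parameters
-/

set_option autoImplicit false

namespace Pool.Agent.Lib_helper56.UB

open Real

/-- The facts about `u`, `c`, `κ`, `J`. -/
theorem setup {m s t : ℕ} {n ε L : ℝ} (hε : 0 < ε) (hε2 : ε ≤ 1 / 2) (hL : L = Real.log m)
    (hL1 : 1000 / ε ^ 2 ≤ L)
    (hn : 0 < n) (hnA : n ≤ Nn (m + 1) s) (hu1 : 1 - Pr m t s < 1 - ε)
    (hu2 : L ^ 3 / (4 * √m) ≤ 1 - Pr m t s)
    (hc : Nn (m + 1) s * (1 - Pr m t s) < (1 - ε) * n) :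
    ∃ (R u c κ : ℝ) (J : ℕ), 0 < (m : ℝ) ∧ R = Real.exp (L / 2) ∧ R * R = m ∧ 1 ≤ R ∧
      Pr m t s = 1 - u ∧ L ^ 3 / 4 ≤ R * u ∧ 0 < u ∧ u < 1 - ε ∧ 1 / u ≤ R ∧ 1 ≤ 1 / u ∧
      0 < c ∧ c * u ≤ 1 - ε ∧ (Nn (m + 1) s : ℝ) = c * n ∧ c ≤ R ∧ κ ≤ 8 * (1 / ε) - 1 ∧
      Real.exp κ = 8 / ε ∧ Real.log c + κ ≤ J * u ∧ J * u ≤ L := by
  obtain ⟨hεinv, hLε2, hLε, hL0, hL2, hL3⟩ := basics hε hε2 hL1
  have hLpos : 0 < L := by linarith
  have hmpos : (0 : ℝ) < m := by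
    by_contra h
    have h1 : (m : ℝ) = 0 := le_antisymm (not_lt.1 h) (Nat.cast_nonneg m)
    rw [h1, Real.log_zero] at hL
    linarith
  have hMexp : (m : ℝ) = Real.exp L := by rw [hL, Real.exp_log hmpos]
  have hRexp : √(m : ℝ) = Real.exp (L / 2) := by
    rw [hMexp, Real.exp_half]
  have hRR : √(m : ℝ) * √(m : ℝ) = m := Real.mul_self_sqrt hmpos.le
  have hR1 : 1 ≤ √(m : ℝ) := by
    rw [hRexp]
    exact Real.one_le_exp (by linarith)
  generalize √(m : ℝ) = R at *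
  have hRpos : 0 < R := by linarith
  obtain ⟨u, hu⟩ : ∃ u : ℝ, u = 1 - Pr m t s := ⟨_, rfl⟩
  have hPr : Pr m t s = 1 - u := by rw [hu]; ring
  rw [← hu] at hu1 hu2 hc
  have hRu : L ^ 3 / 4 ≤ R * u := by
    rw [div_le_iff₀ (by positivity)] at hu2
    linarith
  have hRu1 : 1 ≤ R * u := by linarith
  have hupos : 0 < u := by
    by_contra h
    have := mul_nonpos_of_nonneg_of_nonpos hRpos.le (not_lt.1 h)
    linarith
  have huinv : 1 / u ≤ R := by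
    rw [div_le_iff₀ hupos]
    exact hRu1
  have huinv1 : 1 ≤ 1 / u := by
    rw [le_div_iff₀ hupos]
    linarith
  have hNpos : (0 : ℝ) < Nn (m + 1) s := Nn_pos' m s
  obtain ⟨c, hcdef⟩ : ∃ c : ℝ, c = (Nn (m + 1) s : ℝ) / n := ⟨_, rfl⟩
  have hc1 : 1 ≤ c := by
    rw [hcdef, one_le_div hn]
    exact hnA
  have hcpos : 0 < c := by linarith
  have hcu : c * u < 1 - ε := by
    rw [hcdef, div_mul_eq_mul_div, div_lt_iff₀ hn]
    exact hc
  have hNc : (Nn (m + 1) s : ℝ) = c * n := by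
    rw [hcdef]
    field_simp
  have hcR : c ≤ R := by
    have h1 : c ≤ 1 / u := by
      rw [le_div_iff₀ hupos]
      linarith
    linarith
  have hlogc : Real.log c ≤ L / 2 := by
    have h1 := Real.log_le_log hcpos hcR
    rw [hRexp, Real.log_exp] at h1
    exact h1
  have hlogc0 : 0 ≤ Real.log c := Real.log_nonneg hc1
  obtain ⟨κ, hκ⟩ : ∃ κ : ℝ, κ = Real.log (8 / ε) := ⟨_, rfl⟩
  have h8ε : 0 < 8 / ε := by positivity
  have hκ1 : κ ≤ 8 * (1 / ε) - 1 := by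
    have h1 := Real.log_le_sub_one_of_pos h8ε
    rw [hκ]
    have h2 : 8 * (1 / ε) = 8 / ε := by ring
    rw [h2]
    exact h1
  have hκ0 : 0 ≤ κ := by
    rw [hκ]
    refine Real.log_nonneg ?_
    rw [le_div_iff₀ hε]
    linarith
  have hexpκ : Real.exp κ = 8 / ε := by rw [hκ, Real.exp_log h8ε]
  have hJ0 : 0 ≤ (Real.log c + κ) / u := div_nonneg (by linarith) hupos.le
  have hJ1 : Real.log c + κ ≤ (⌈(Real.log c + κ) / u⌉₊ : ℝ) * u := by
    have h1 : (Real.log c + κ) / u ≤ (⌈(Real.log c + κ) / u⌉₊ : ℝ) := Nat.le_ceil _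
    rwa [div_le_iff₀ hupos] at h1
  have hJ2 : (⌈(Real.log c + κ) / u⌉₊ : ℝ) * u ≤ Real.log c + κ + u := by
    have h1 : (⌈(Real.log c + κ) / u⌉₊ : ℝ) < (Real.log c + κ) / u + 1 :=
      Nat.ceil_lt_add_one hJ0
    have h2 := mul_le_mul_of_nonneg_right h1.le hupos.le
    have h3 : ((Real.log c + κ) / u + 1) * u = Real.log c + κ + u := by
      field_simp
    linarith
  refine ⟨R, u, c, κ, ⌈(Real.log c + κ) / u⌉₊, hmpos, hRexp, hRR, hR1, hPr, hRu, hupos, hu1,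
    huinv, huinv1, hcpos, hcu.le, hNc, hcR, hκ1, hexpκ, hJ1, ?_⟩
  linarith

/-- The facts about `r` and `l`. -/
theorem choose_rl {m : ℕ} {ε L R u δ : ℝ} (hε : 0 < ε) (hε2 : ε ≤ 1 / 2)
    (hL0 : 4000 ≤ L) (hL3 : 4000 * L ^ 2 ≤ L ^ 3) (hRR : R * R = m) (hR1 : 1 ≤ R)
    (hRu : L ^ 3 / 4 ≤ R * u) (hu : 0 < u) (hu1 : u < 1 - ε) (hδ : 0 < δ)
    (hδε : δ ≤ ε / 1000) (hδL : δ * L ^ 2 = 1) :
    ∃ r l : ℕ, r < m + 1 ∧ l ≤ r ∧ 0 < ((m + 1 : ℕ) : ℝ) - r ∧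
      ((m + 1 : ℕ) : ℝ) / (((m + 1 : ℕ) : ℝ) - r) * (1 - u) ≤
        Real.exp (8 * δ * u * (1 / ε)) ∧
      (((m + 1).choose l : ℕ) : ℝ) / r.choose l * ((1 + δ) * u) ^ l ≤
        Real.exp (1 - L ^ 2 * (1 / u) / 128) := by
  obtain ⟨k, hk⟩ : ∃ k : ℝ, k = ((m + 1 : ℕ) : ℝ) := ⟨_, rfl⟩
  have hkm : k = m + 1 := by rw [hk]; push_cast; ring
  have hm0 : (0 : ℝ) ≤ m := Nat.cast_nonneg m
  have hkpos : 0 < k := by rw [hkm]; positivity
  have hδ1 : δ ≤ 1 := by linarith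
  obtain ⟨w, hw⟩ : ∃ w : ℝ, w = (1 + δ) * u := ⟨_, rfl⟩
  have hwpos : 0 < w := by rw [hw]; positivity
  have hRpos : 0 < R := by linarith
  have huk : 1 ≤ δ * u * k := by
    have h1 : L ^ 2 ≤ u * k := by
      have h2 : R * (L ^ 3 / 4) ≤ R * (R * u) := mul_le_mul_of_nonneg_left hRu hRpos.le
      have h3 : R * (R * u) = m * u := by rw [← hRR]; ring
      have h4 : L ^ 3 / 4 ≤ R * (L ^ 3 / 4) := by
        have := mul_le_mul_of_nonneg_right hR1 (by positivity : (0 : ℝ) ≤ L ^ 3 / 4)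
        linarith
      have h5 : (m : ℝ) * u ≤ u * k := by
        rw [hkm]
        linarith
      have h6 : 0 ≤ L ^ 2 := sq_nonneg L
      linarith
    have h6 := mul_le_mul_of_nonneg_left h1 hδ.le
    rw [hδL] at h6
    linarith
  have hwk : 0 < w * k := mul_pos hwpos hkpos
  have hr1 : (1 + δ) * w * k ≤ (⌈(1 + δ) * w * k⌉₊ : ℝ) := Nat.le_ceil _
  have hr2 : (⌈(1 + δ) * w * k⌉₊ : ℝ) ≤ (1 + 4 * δ) * u * k := by
    have h1 : (⌈(1 + δ) * w * k⌉₊ : ℝ) < (1 + δ) * w * k + 1 :=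
      Nat.ceil_lt_add_one (by positivity)
    have h2 : (1 + δ) * w * k ≤ (1 + 3 * δ) * u * k := by
      rw [hw]
      have h3 : (1 + δ) * (1 + δ) ≤ 1 + 3 * δ := by
        have : δ * δ ≤ 1 * δ := mul_le_mul_of_nonneg_right hδ1 hδ.le
        linarith
      have h4 := mul_le_mul_of_nonneg_right h3 (by positivity : (0 : ℝ) ≤ u * k)
      linarith
    have h5 : (1 + 4 * δ) * u * k = (1 + 3 * δ) * u * k + δ * u * k := by ring
    linarith
  obtain ⟨hkr, hqexp⟩ := q_bound hkpos hr2 hu.le hu1 hε hδ.le (by linarith)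
  have hl1 : (⌊δ * w * k / 2⌋₊ : ℝ) ≤ δ * w * k / 2 := Nat.floor_le (by positivity)
  have hl2 : δ * w * k / 2 < (⌊δ * w * k / 2⌋₊ : ℝ) + 1 := Nat.lt_floor_add_one _
  generalize ⌊δ * w * k / 2⌋₊ = l at *
  generalize ⌈(1 + δ) * w * k⌉₊ = r at *
  have hlr : l ≤ r := by
    have h1 : (l : ℝ) ≤ r := by
      have h2 : 0 < δ * (w * k) := mul_pos hδ hwk
      have h3 : δ * w * k = δ * (w * k) := by ring
      have h4 : (1 + δ) * w * k = w * k + δ * (w * k) := by ring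
      rw [h3] at hl1
      rw [h4] at hr1
      linarith
    exact_mod_cast h1
  have htau := tau_le (k := m + 1) (l := l) (r := r) hlr hwpos.le hδ.le hδ1 (by
    rw [← hk]
    have h3 : (1 + δ / 2) * w * k = w * k + δ * w * k / 2 := by ring
    have h4 : (1 + δ) * w * k = w * k + δ * w * k := by ring
    rw [h3]
    rw [h4] at hr1
    linarith)
  refine ⟨r, l, ?_, hlr, ?_, ?_, ?_⟩
  · have h1 : (r : ℝ) < k := by linarith
    rw [hk] at h1
    exact_mod_cast h1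
  · rw [← hk]
    exact hkr
  · rw [← hk]
    exact hqexp
  · rw [← hw]
    refine htau.trans (Real.exp_le_exp.2 ?_)
    have h1 := l_bound hδ hδ1 hu hw hkpos hl2
    have h2 := delta_le (by linarith) hRR hRu hu hδ hδL (by linarith : (m : ℝ) ≤ k)
    linarith

/-- The main choice of parameters. -/
theorem numeric {m s t : ℕ} {n ε L : ℝ} (hε : 0 < ε) (hε2 : ε ≤ 1 / 2) (hL : L = Real.log m)
    (hL1 : 1000 / ε ^ 2 ≤ L) (hmL : 8 * L ^ 3 ≤ ε ^ 2 * m) (ht : 1 ≤ t) (hts : t ≤ s)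
    (hn : 0 < n) (hnA : n ≤ Nn (m + 1) s) (hu1 : 1 - Pr m t s < 1 - ε)
    (hu2 : L ^ 3 / (4 * √m) ≤ 1 - Pr m t s)
    (hc : Nn (m + 1) s * (1 - Pr m t s) < (1 - ε) * n) :
    ∃ (J r l : ℕ) (w η : ℝ), (J + 1) * t ≤ s ∧ r < m + 1 ∧ l ≤ r ∧
      (∀ j < J, 1 - AA (m + 1) s t (j + 1) / AA (m + 1) s t j ≤ w) ∧ 0 ≤ w ∧ 0 < η ∧ η ≤ 1 ∧
      AA (m + 1) s t J < n ∧
      ((((m + 1 : ℕ) : ℝ)) / (((m + 1 : ℕ) : ℝ) - r)) ^ J *
        ((AA (m + 1) s t J - AA (m + 1) s t (J + 1)) +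
          J * ((((m + 1).choose l : ℕ) : ℝ) / r.choose l * w ^ l * AA (m + 1) s t 0 / η ^ J)) ≤
        (1 - η) * (n - AA (m + 1) s t J) := by
  obtain ⟨R, u, c, κ, J, hmpos, hRexp, hRR, hR1, hPr, hRu, hu, hu1', huinv, huinv1, hcpos, hcu,
    hNc, hcR, hκ1, hexpκ, hJ1, hJL⟩ := setup (t := t) hε hε2 hL hL1 hn hnA hu1 hu2 hc
  obtain ⟨hεinv, hLε2, hLε, hL0, hL2, hL3⟩ := basics hε hε2 hL1
  have hLpos : 0 < L := by linarith
  have hJL' : (J : ℝ) ≤ L / u := by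
    rw [le_div_iff₀ hu]
    exact hJL
  have hspos : 0 < s := by omega
  have hsR : (0 : ℝ) < s := by exact_mod_cast hspos
  have hm : 0 < m := by exact_mod_cast hmpos
  have htM := t_bound hspos hm hts hPr hu hu1' hε
  have hsM := s_bound hspos hm ht hPr hu1'
  have hTs := T_bound hε hLpos (Nat.cast_nonneg t) (Nat.cast_nonneg J) hu (by linarith) hJL hsR
    htM hsM hmL
  have hJt : (J + 1) * t ≤ s := by
    have hT0 : (0 : ℝ) ≤ ((J : ℝ) + 1) * t := by positivity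
    have h1 : ((J : ℝ) + 1) * t * 1 ≤ ((J : ℝ) + 1) * t * (4 * L ^ 2) :=
      mul_le_mul_of_nonneg_left (by linarith) hT0
    have h2 : ((J : ℝ) + 1) * t ≤ s := by linarith
    exact_mod_cast h2
  obtain ⟨δ, hδ⟩ : ∃ δ : ℝ, δ = 1 / L ^ 2 := ⟨_, rfl⟩
  have hL2pos : 0 < L ^ 2 := by positivity
  have hδpos : 0 < δ := by rw [hδ]; positivity
  have hδL : δ * L ^ 2 = 1 := by
    rw [hδ]
    field_simp
  have hδε : δ ≤ ε / 1000 := by
    rw [hδ, div_le_div_iff₀ hL2pos (by norm_num), one_mul]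
    have h1 : 2000 ≤ ε * L := by
      have := mul_le_mul_of_nonneg_left hLε hε.le
      have h2 : ε * (2000 * (1 / ε)) = 2000 := by
        field_simp
      linarith
    have h3 : ε * L * 1 ≤ ε * L * L := mul_le_mul_of_nonneg_left (by linarith) (by positivity)
    have h4 : ε * L ^ 2 = ε * L * L := by ring
    rw [h4]
    linarith
  have hδ1 : δ ≤ 1 := by linarith
  have hcomp : ∀ j ≤ J, Pr m t (s - j * t) ≤ 1 - u ∧
      1 - Pr m t (s - j * t) ≤ (1 + δ) * u := fun j hj =>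
    step_bound hPr hj hJt hTs hδpos hδ1 hδL
  obtain ⟨hA1, hA2⟩ := pow_bound (by linarith) hJt hcomp
  have hA0 : AA (m + 1) s t 0 = Nn (m + 1) s := by
    unfold AA
    rw [Nat.zero_mul, Nat.sub_zero]
  have hNpos : (0 : ℝ) < Nn (m + 1) s := Nn_pos' m s
  have hAJ : AA (m + 1) s t J ≤ ε / 8 * n := by
    calc AA (m + 1) s t J ≤ AA (m + 1) s t 0 * (1 - u) ^ J := hA1
      _ ≤ AA (m + 1) s t 0 * (ε / 8 * (1 / c)) := by
        refine mul_le_mul_of_nonneg_left (powexp (by linarith) hcpos hε hexpκ hJ1) ?_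
        rw [hA0]
        exact hNpos.le
      _ = ε / 8 * n := by
        rw [hA0, hNc]
        field_simp
  obtain ⟨r, l, hrm, hlr, hkr, hq1, hC⟩ := choose_rl hε hε2 hL0 hL3 hRR hR1 hRu hu hu1' hδpos
    hδε hδL
  have hkpos : (0 : ℝ) < ((m + 1 : ℕ) : ℝ) := by positivity
  have hq0 : 0 < ((m + 1 : ℕ) : ℝ) / (((m + 1 : ℕ) : ℝ) - r) := div_pos hkpos hkr
  have hq2 := q_pow_one (J := J) (mul_nonneg hq0.le (by linarith)) hq1 hδpos hε hJL
  have hq3 := q_pow_two (J := J) hq0 hq1 (by linarith) hε hu hu1' hJL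
  have hC0 : 0 ≤ (((m + 1).choose l : ℕ) : ℝ) / r.choose l * ((1 + δ) * u) ^ l := by positivity
  have hT1 := first (A := AA (m + 1) s t J) (A' := AA (m + 1) s t (J + 1)) hε hε2 hLε2 hδpos
    hδε hδL hn hNc (mul_nonneg hcpos.le hu.le) hcu hq0 hq2 (by
      rw [← hA0]
      exact hA2)
  have hT2 := second (J := J) (W := (((m + 1).choose l : ℕ) : ℝ) / r.choose l *
    ((1 + δ) * u) ^ l * AA (m + 1) s t 0 / (ε / 4) ^ J) hε hεinv hLε hL0 hRexp huinv huinv1 hκ1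
    hexpκ hn hNpos hNc hcR hq3 rfl hJL' hC0 hC (by rw [hA0])
  refine ⟨J, r, l, (1 + δ) * u, ε / 4, hJt, hrm, hlr, ?_, by positivity, by positivity,
    by linarith, ?_, ?_⟩
  · intro j hj
    rw [AA_ratio m s t j ((Nat.mul_le_mul_right t (by omega)).trans hJt)]
    exact (hcomp j hj.le).2
  · have : ε / 8 * n < 1 * n := mul_lt_mul_of_pos_right (by linarith) hn
    linarith
  · rw [mul_add]
    exact final_ineq hε hε2 hn hT1 hT2 hAJ

end Pool.Agent.Lib_helper56.UB
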