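import Pool.Agent.Lib_helper56.UB.Ratio

/-!
# The inequality for one step, with all the terms
-/

set_option autoImplicit false

namespace Pool.Agent.Lib_helper56.UB

open Finset

/-! ### the moments of the number of large coordinates -/

section

variable {k : ℕ}

/-- The number of the coordinates which are at least `t`. -/
noncomputable def hn (t : ℕ) (v : Fin k → ℕ) : ℝ := ∑ i : Fin k, if t ≤ v i then (1 : ℝ) else 0

theorem hn_nonneg (t : ℕ) (v : Fin k → ℕ) : 0 ≤ hn t v :=
  Finset.sum_nonneg fun i _ => by split_ifs <;> norm_num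

theorem hn_le (t : ℕ) (v : Fin k → ℕ) : hn t v ≤ k := by
  calc hn t v ≤ ∑ _i : Fin k, (1 : ℝ) := Finset.sum_le_sum fun i _ => by split_ifs <;> norm_num
    _ = k := by simp

theorem hn_one_le (v : Fin k → ℕ) : hn 1 v ≤ (∑ i, v i : ℕ) := by
  unfold hn
  push_cast
  refine Finset.sum_le_sum fun i _ => ?_
  split_ifs with h
  · exact_mod_cast h
  · exact Nat.cast_nonneg _

theorem cnt_one (t j : ℕ) (i : Fin k) :
    ((Dl k (j + t)).filter fun v => t ≤ v i).card = Nn k j := by
  classical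
  have h2 : (Dl k j).map (addRightEmbedding (Pi.single i t)) =
      (Dl k (j + t)).filter (fun v => t ≤ v i) := by
    ext v
    rw [Finset.mem_map, Finset.mem_filter]
    constructor
    · rintro ⟨w, hw, rfl⟩
      rw [mem_Dl] at hw ⊢
      change (∑ l, (w + Pi.single i t : Fin k → ℕ) l = j + t) ∧
        t ≤ (w + Pi.single i t : Fin k → ℕ) i
      refine ⟨?_, ?_⟩
      · rw [sum_add_single, hw]
      · simp
    · rintro ⟨hv, hvi⟩
      obtain ⟨w, rfl⟩ := exists_sub (v := v) (i := i) (t := t) hvi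
      refine ⟨w, ?_, by simp⟩
      rw [mem_Dl] at hv ⊢
      rw [sum_add_single] at hv
      omega
  rw [← h2, Finset.card_map]
  rfl

theorem cnt_two (t j : ℕ) {i l : Fin k} (h : i ≠ l) :
    ((Dl k (j + t + t)).filter fun v => t ≤ v i ∧ t ≤ v l).card = Nn k j := by
  classical
  have h2 : ((Dl k (j + t)).filter fun v => t ≤ v l).map (addRightEmbedding (Pi.single i t)) =
      (Dl k (j + t + t)).filter (fun v => t ≤ v i ∧ t ≤ v l) := by
    ext v
    rw [Finset.mem_map, Finset.mem_filter]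
    constructor
    · rintro ⟨w, hw, rfl⟩
      rw [Finset.mem_filter, mem_Dl] at hw
      rw [mem_Dl]
      change (∑ l, (w + Pi.single i t : Fin k → ℕ) l = j + t + t) ∧
        t ≤ (w + Pi.single i t : Fin k → ℕ) i ∧ t ≤ (w + Pi.single i t : Fin k → ℕ) l
      refine ⟨?_, ?_, ?_⟩
      · rw [sum_add_single, hw.1]
      · simp
      · rw [Pi.add_apply]
        omega
    · rintro ⟨hv, hvi, hvl⟩
      obtain ⟨w, rfl⟩ := exists_sub (v := v) (i := i) (t := t) hvi
      refine ⟨w, ?_, by simp⟩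
      rw [mem_Dl] at hv
      rw [Finset.mem_filter, mem_Dl]
      rw [sum_add_single] at hv
      rw [Pi.add_apply, Pi.single_eq_of_ne h.symm, add_zero] at hvl
      exact ⟨by omega, hvl⟩
  rw [← h2, Finset.card_map]
  exact cnt_one t j l

theorem sum_hn (t j : ℕ) : ∑ v ∈ Dl k (j + t), hn t v = k * Nn k j := by
  unfold hn
  rw [Finset.sum_comm]
  have h1 : ∀ i : Fin k, ∑ v ∈ Dl k (j + t), (if t ≤ v i then (1 : ℝ) else 0) = Nn k j := by
    intro i
    rw [Finset.sum_boole, cnt_one]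
  rw [Finset.sum_congr rfl fun i _ => h1 i]
  simp

theorem sum_hn_sq (t j : ℕ) :
    ∑ v ∈ Dl k (j + t + t), hn t v ^ 2 = k * Nn k (j + t) + k * (k - 1) * Nn k j := by
  have h0 : ∀ v : Fin k → ℕ, hn t v ^ 2 =
      ∑ i : Fin k, ∑ l : Fin k, if t ≤ v i ∧ t ≤ v l then (1 : ℝ) else 0 := by
    intro v
    rw [sq, hn, Finset.sum_mul_sum]
    refine Finset.sum_congr rfl fun i _ => Finset.sum_congr rfl fun l _ => ?_
    by_cases h1 : t ≤ v i <;> by_cases h2 : t ≤ v l <;> simp [h1, h2]
  rw [Finset.sum_congr rfl fun v _ => h0 v, Finset.sum_comm]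
  have h1 : ∀ i : Fin k, ∑ v ∈ Dl k (j + t + t), ∑ l : Fin k,
      (if t ≤ v i ∧ t ≤ v l then (1 : ℝ) else 0) = Nn k (j + t) + (k - 1) * Nn k j := by
    intro i
    rw [Finset.sum_comm]
    have h2 : ∀ l : Fin k, ∑ v ∈ Dl k (j + t + t),
        (if t ≤ v i ∧ t ≤ v l then (1 : ℝ) else 0) =
        (if l = i then (Nn k (j + t) : ℝ) else 0) + (if l = i then (0 : ℝ) else Nn k j) := by
      intro l
      rw [Finset.sum_boole]
      split_ifs with h3
      · subst h3
        simp only [and_self]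
        rw [cnt_one, add_zero]
      · rw [cnt_two t j (Ne.symm h3), zero_add]
    rw [Finset.sum_congr rfl fun l _ => h2 l, Finset.sum_add_distrib, Finset.sum_ite_eq']
    rw [if_pos (Finset.mem_univ i)]
    congr 1
    have h4 : ∀ l : Fin k, (if l = i then (0 : ℝ) else Nn k j) =
        (Nn k j : ℝ) - (if l = i then (Nn k j : ℝ) else 0) := by
      intro l
      split_ifs <;> ring
    rw [Finset.sum_congr rfl fun l _ => h4 l, Finset.sum_sub_distrib, Finset.sum_ite_eq',
      if_pos (Finset.mem_univ i), Finset.sum_const, Finset.card_univ, Fintype.card_fin,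
      nsmul_eq_mul]
    ring
  rw [Finset.sum_congr rfl fun i _ => h1 i, Finset.sum_const, Finset.card_univ,
    Fintype.card_fin, nsmul_eq_mul]
  ring

end

section

variable {k : ℕ} {G : Type} [AddCommGroup G] [Fintype G] [DecidableEq G]

theorem energy_upper (b : Fin k → G) (T U : Finset G) (hU : ∀ y ∈ U, ∀ i, y + b i ∈ T) :
    (∑ x, Hf b T x * (k - Hf b T x)) * (Fintype.card G - U.card) ≤
      k ^ 2 * ((T.card - U.card) * (Fintype.card G - T.card)) := by
  have h10 : ∑ x, Hf b T x * (k - Hf b T x) = ∑ y, Df b T y * (k - Df b T y) := by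
    have h11 : ∀ g : G → ℝ, ∑ x, g x * (k - g x) = k * ∑ x, g x - ∑ x, g x ^ 2 := by
      intro g
      rw [Finset.mul_sum, ← Finset.sum_sub_distrib]
      exact Finset.sum_congr rfl fun x _ => by ring
    rw [h11, h11, sum_Hf, sum_Df, sum_sq]
  have hDU : ∀ y ∈ U, Df b T y = k := by
    intro y hy
    unfold Df chi
    rw [Finset.sum_congr rfl fun i _ => if_pos (hU y hy i)]
    simp
  have h12 : ∑ y, Df b T y * (k - Df b T y) = ∑ y ∈ Uᶜ, Df b T y * (k - Df b T y) := by
    symm
    refine Finset.sum_subset (Finset.subset_univ _) fun y _ hy => ?_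
    rw [Finset.mem_compl, not_not] at hy
    rw [hDU y hy, sub_self, mul_zero]
  have h13 : ∑ y ∈ Uᶜ, Df b T y = k * T.card - k * U.card := by
    have h14 : ∑ y ∈ U, Df b T y + ∑ y ∈ Uᶜ, Df b T y = ∑ y, Df b T y :=
      Finset.sum_add_sum_compl U _
    rw [sum_Df, Finset.sum_congr rfl hDU, Finset.sum_const, nsmul_eq_mul] at h14
    linarith
  have hc : ((Uᶜ).card : ℝ) = Fintype.card G - U.card := by
    rw [Finset.card_compl, Nat.cast_sub (Finset.card_le_univ U)]
  have h15 : (∑ y ∈ Uᶜ, Df b T y) ^ 2 ≤ (Uᶜ).card * ∑ y ∈ Uᶜ, Df b T y ^ 2 :=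
    sq_sum_le_card_mul_sum_sq
  have h16 : ∑ y ∈ Uᶜ, Df b T y * (k - Df b T y) =
      k * ∑ y ∈ Uᶜ, Df b T y - ∑ y ∈ Uᶜ, Df b T y ^ 2 := by
    rw [Finset.mul_sum, ← Finset.sum_sub_distrib]
    exact Finset.sum_congr rfl fun x _ => by ring
  rw [h13, hc] at h15
  have h17 : (∑ x, Hf b T x * (k - Hf b T x)) * (Fintype.card G - U.card) =
      k * (k * T.card - k * U.card) * (Fintype.card G - U.card) -
        (Fintype.card G - U.card) * ∑ y ∈ Uᶜ, Df b T y ^ 2 := by
    rw [h10, h12, h16, h13]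
    ring
  rw [h17]
  have h18 : (k : ℝ) * (k * T.card - k * U.card) * (Fintype.card G - U.card) -
      (k * T.card - k * U.card) ^ 2 =
      k ^ 2 * ((T.card - U.card) * (Fintype.card G - T.card)) := by ring
  linarith

/-- The sum over the representatives. -/
theorem sum_sec {s : ℕ} {σ : G → Fin k → ℕ} (hσ : ∀ x, σ x ∈ Dl k s)
    (hinj : Function.Injective σ) (F : (Fin k → ℕ) → ℝ) {c : ℝ}
    (hF : ∀ v ∈ Dl k s, F v ≤ c) :
    ∑ v ∈ Dl k s, F v - ((Nn k s : ℝ) - Fintype.card G) * c ≤ ∑ x, F (σ x) := by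
  classical
  have h1 : Finset.univ.image σ ⊆ Dl k s := by
    intro v hv
    obtain ⟨x, _, rfl⟩ := Finset.mem_image.1 hv
    exact hσ x
  have h2 : ∑ v ∈ Finset.univ.image σ, F v = ∑ x, F (σ x) :=
    Finset.sum_image fun x _ y _ h => hinj h
  have h3 := Finset.sum_sdiff (f := F) h1
  have h4 : ∑ v ∈ Dl k s \ Finset.univ.image σ, F v ≤
      (Dl k s \ Finset.univ.image σ).card • c :=
    Finset.sum_le_card_nsmul _ _ _ fun v hv => hF v (Finset.mem_sdiff.1 hv).1
  rw [nsmul_eq_mul, Finset.card_sdiff_of_subset h1, Finset.card_image_of_injective _ hinj,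
    Finset.card_univ, Nat.cast_sub] at h4
  · unfold Nn
    linarith
  · have h5 := Finset.card_le_card h1
    rw [Finset.card_image_of_injective _ hinj, Finset.card_univ] at h5
    exact h5

/-- The inequality for one step. -/
theorem one_step (a : Fin k → G) {t j : ℕ} {h : ℝ} (hfull : Sg a (j + t + t) = Finset.univ)
    (hh : ∀ v ∈ Dl k (j + t + t), hn t v ≤ h) :
    (k * (k - 1) * ((Nn k (j + t) : ℝ) - Nn k j) -
        ((Nn k (j + t + t) : ℝ) - Fintype.card G) * (h * (k + h))) *
        (Fintype.card G - (Sg a j).card) ≤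
      k ^ 2 * (((Sg a (j + t)).card - (Sg a j).card) * (Fintype.card G - (Sg a (j + t)).card)) := by
  classical
  have hsec : ∀ x : G, ∃ v : Fin k → ℕ, ∑ i, v i = j + t + t ∧ phi a v = x := by
    intro x
    have hx : x ∈ Sg a (j + t + t) := by
      rw [hfull]
      exact Finset.mem_univ x
    exact mem_Sg.1 hx
  choose σ hσ1 hσ2 using hsec
  have hσ : ∀ x, σ x ∈ Dl k (j + t + t) := fun x => mem_Dl.2 (hσ1 x)
  have hinj : Function.Injective σ := fun x y hxy => by rw [← hσ2 x, ← hσ2 y, hxy]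
  set b : Fin k → G := fun i => t • a i with hb
  set T := Sg a (j + t) with hT
  have hH : ∀ x, hn t (σ x) ≤ Hf b T x := by
    intro x
    have h1 := Hf_ge a t (j + t) (σ x) (hσ1 x)
    rw [hσ2] at h1
    refine le_trans (le_of_eq ?_) h1
    have h2 : ∀ i : Fin k, (if t ≤ σ x i then (1 : ℝ) else 0) =
        1 - if σ x i < t then (1 : ℝ) else 0 := by
      intro i
      by_cases h3 : t ≤ σ x i
      · rw [if_pos h3, if_neg (by omega)]
        norm_num
      · rw [if_neg h3, if_pos (by omega)]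
        norm_num
    unfold hn Zn
    rw [Finset.sum_congr rfl fun i _ => h2 i, Finset.sum_sub_distrib, Finset.sum_boole]
    simp
  have hk0 : (0 : ℝ) ≤ k := Nat.cast_nonneg k
  have hh0 : 0 ≤ h := by
    have h1 := hh _ (hσ 0)
    exact (hn_nonneg t _).trans h1
  have h1 : ∀ x, (hn t (σ x) * (k - hn t (σ x)) + h * hn t (σ x)) - h * Hf b T x ≤
      Hf b T x * (k - Hf b T x) := by
    intro x
    have h2 := hH x
    have h3 := Hf_le b T x
    have h4 := hh _ (hσ x)
    have h5 := hn_nonneg t (σ x)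
    have h6 : 0 ≤ (Hf b T x - hn t (σ x)) * (h - hn t (σ x)) :=
      mul_nonneg (by linarith) (by linarith)
    have h7 : 0 ≤ (Hf b T x - hn t (σ x)) * (k - Hf b T x) :=
      mul_nonneg (by linarith) (by linarith)
    nlinarith
  have h2 := Finset.sum_le_sum fun x (_ : x ∈ (Finset.univ : Finset G)) => h1 x
  rw [Finset.sum_sub_distrib, ← Finset.mul_sum, sum_Hf, Finset.sum_add_distrib] at h2
  have h3 := sum_sec hσ hinj (fun v => hn t v * (k - hn t v)) (c := h * k) (by
    intro v hv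
    have h4 := hh v hv
    have h5 := hn_nonneg t v
    have h6 := hn_le t v
    exact mul_le_mul h4 (by linarith) (by linarith) hh0)
  have h4 := sum_sec hσ hinj (fun v => h * hn t v) (c := h * h) (by
    intro v hv
    exact mul_le_mul_of_nonneg_left (hh v hv) hh0)
  have h5 : ∑ v ∈ Dl k (j + t + t), hn t v * (k - hn t v) =
      k * (k - 1) * ((Nn k (j + t) : ℝ) - Nn k j) := by
    have h6 : ∑ v ∈ Dl k (j + t + t), hn t v * (k - hn t v) =
        k * ∑ v ∈ Dl k (j + t + t), hn t v - ∑ v ∈ Dl k (j + t + t), hn t v ^ 2 := by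
      rw [Finset.mul_sum, ← Finset.sum_sub_distrib]
      exact Finset.sum_congr rfl fun x _ => by ring
    rw [h6, sum_hn, sum_hn_sq]
    ring
  have h6 : ∑ v ∈ Dl k (j + t + t), h * hn t v = h * (k * Nn k (j + t)) := by
    rw [← Finset.mul_sum, sum_hn]
  rw [h5] at h3
  rw [h6] at h4
  have h7 : (T.card : ℝ) ≤ Nn k (j + t) := by exact_mod_cast card_Sg_le a (j + t)
  have h8 : h * (k * (T.card : ℝ)) ≤ h * (k * Nn k (j + t)) :=
    mul_le_mul_of_nonneg_left (mul_le_mul_of_nonneg_left h7 hk0) hh0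
  have h9 : k * (k - 1) * ((Nn k (j + t) : ℝ) - Nn k j) -
      ((Nn k (j + t + t) : ℝ) - Fintype.card G) * (h * (k + h)) ≤
      ∑ x, Hf b T x * (k - Hf b T x) := by
    have h10 : ((Nn k (j + t + t) : ℝ) - Fintype.card G) * (h * (k + h)) =
        ((Nn k (j + t + t) : ℝ) - Fintype.card G) * (h * k) +
          ((Nn k (j + t + t) : ℝ) - Fintype.card G) * (h * h) := by ring
    rw [h10]
    linarith
  have hc0 : (0 : ℝ) ≤ Fintype.card G - (Sg a j).card := by
    rw [sub_nonneg]
    exact_mod_cast Finset.card_le_univ _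
  refine (mul_le_mul_of_nonneg_right h9 hc0).trans ?_
  exact energy_upper b T (Sg a j) fun y hy i => Sg_add hy i t

end

end Pool.Agent.Lib_helper56.UB
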