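import Pool.Agent.Lib_helper56.UB.Core

/-!
# The ratios of the numbers of vectors
-/

set_option autoImplicit false

namespace Pool.Agent.Lib_helper56.UB

/-- The ratio `N_{J-t} / N_J`. -/
noncomputable def Pr (m t J : ℕ) : ℝ := (Nn (m + 1) (J - t) : ℝ) / Nn (m + 1) J

theorem Nn_pos' (m j : ℕ) : (0 : ℝ) < Nn (m + 1) j := by
  exact_mod_cast Nn_pos (Nat.succ_pos m) j

theorem Pr_zero (m J : ℕ) : Pr m 0 J = 1 := by
  unfold Pr
  rw [Nat.sub_zero, div_self (Nn_pos' m J).ne']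

theorem Pr_pos (m t J : ℕ) : 0 < Pr m t J := div_pos (Nn_pos' _ _) (Nn_pos' _ _)

theorem Pr_le_one (m t J : ℕ) : Pr m t J ≤ 1 := by
  unfold Pr
  rw [div_le_one (Nn_pos' m J)]
  exact_mod_cast Nn_mono (Nat.succ_pos m) (Nat.sub_le J t)

theorem Pr_succ (m : ℕ) {t J : ℕ} (h : t + 1 ≤ J) :
    Pr m (t + 1) J = Pr m t J * (1 - (m : ℝ) / ((J : ℝ) - t + m)) := by
  obtain ⟨j, rfl⟩ : ∃ j, J = j + (t + 1) := ⟨J - (t + 1), by omega⟩
  have h1 := Nn_rec (Nat.succ_pos m) j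
  have h2 : ((j : ℝ) + 1) * Nn (m + 1) (j + 1) = ((j : ℝ) + (m + 1)) * Nn (m + 1) j := by
    exact_mod_cast h1
  have e1 : j + (t + 1) - (t + 1) = j := by omega
  have e2 : j + (t + 1) - t = j + 1 := by omega
  unfold Pr
  rw [e1, e2]
  have h3 : ((j + (t + 1) : ℕ) : ℝ) - t + m = (j : ℝ) + 1 + m := by
    push_cast
    ring
  rw [h3]
  have h4 : (0 : ℝ) < (j : ℝ) + 1 + m := by positivity
  have h5 := Nn_pos' m (j + (t + 1))
  have h6 : (Nn (m + 1) j : ℝ) = Nn (m + 1) (j + 1) * (1 - (m : ℝ) / ((j : ℝ) + 1 + m)) := by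
    field_simp
    linarith
  rw [h6]
  ring

theorem Pr_compare (m : ℕ) {t J J' : ℕ} (hJ : J' ≤ J) (ht : t ≤ J') {lam : ℝ} (hl : 1 ≤ lam)
    (h : (J : ℝ) - J' ≤ (lam - 1) * ((J' : ℝ) - t + m)) :
    Pr m t J' ≤ Pr m t J ∧ 1 - Pr m t J' ≤ lam * (1 - Pr m t J) := by
  induction t with
  | zero => simp [Pr_zero]
  | succ t ih =>
    have hJR : (J' : ℝ) ≤ J := by exact_mod_cast hJ
    have htR : (t : ℝ) + 1 ≤ J' := by exact_mod_cast ht
    have hmR : (0 : ℝ) ≤ m := Nat.cast_nonneg m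
    have h1 : (J : ℝ) - J' ≤ (lam - 1) * ((J' : ℝ) - t + m) := by
      push_cast at h
      nlinarith
    obtain ⟨ih1, ih2⟩ := ih (by omega) h1
    rw [Pr_succ m ht, Pr_succ m (ht.trans hJ)]
    set P := Pr m t J with hP
    set P' := Pr m t J' with hP'
    have hd' : (0 : ℝ) < (J' : ℝ) - t + m := by linarith
    have hd : (0 : ℝ) < (J : ℝ) - t + m := by linarith
    set y : ℝ := (m : ℝ) / ((J : ℝ) - t + m) with hy
    set y' : ℝ := (m : ℝ) / ((J' : ℝ) - t + m) with hy'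
    have hy0 : 0 ≤ y := div_nonneg hmR hd.le
    have hyy : y ≤ y' := div_le_div_of_nonneg_left hmR hd' (by linarith)
    have hy1 : y' ≤ 1 := by
      rw [hy', div_le_one hd']
      linarith
    have hyl : y' ≤ lam * y := by
      rw [hy', hy, div_le_iff₀ hd', mul_assoc, mul_comm, div_mul_eq_mul_div, div_mul_eq_mul_div,
        le_div_iff₀ hd]
      nlinarith
    have hP0 : 0 < P' := Pr_pos _ _ _
    have hP1 : 0 < P := Pr_pos _ _ _
    constructor
    · calc P' * (1 - y') ≤ P * (1 - y') := mul_le_mul_of_nonneg_right ih1 (by linarith)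
        _ ≤ P * (1 - y) := mul_le_mul_of_nonneg_left (by linarith) hP1.le
    · have h2 : y' * P' ≤ lam * y * P := mul_le_mul hyl ih1 hP0.le (by nlinarith)
      nlinarith

theorem Pr_le_exp (m : ℕ) {t s : ℕ} (ht : t ≤ s) (hs : 0 < s) :
    Pr m t s ≤ Real.exp (-(t * (m / ((s : ℝ) + m)))) := by
  induction t with
  | zero => simp [Pr_zero]
  | succ t ih =>
    have h1 := ih (by omega)
    rw [Pr_succ m ht]
    have hsR : (0 : ℝ) < s := by exact_mod_cast hs
    have hmR : (0 : ℝ) ≤ m := Nat.cast_nonneg m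
    have htR : (t : ℝ) + 1 ≤ s := by exact_mod_cast ht
    have ht0 : (0 : ℝ) ≤ t := Nat.cast_nonneg t
    have hd : (0 : ℝ) < (s : ℝ) - t + m := by linarith
    have h2 : 1 - (m : ℝ) / ((s : ℝ) - t + m) ≤ Real.exp (-(m / ((s : ℝ) + m))) := by
      have h3 : (m : ℝ) / ((s : ℝ) + m) ≤ (m : ℝ) / ((s : ℝ) - t + m) :=
        div_le_div_of_nonneg_left hmR hd (by linarith)
      have h4 := Real.add_one_le_exp (-((m : ℝ) / ((s : ℝ) + m)))
      linarith
    have h5 : 0 ≤ 1 - (m : ℝ) / ((s : ℝ) - t + m) := by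
      rw [sub_nonneg, div_le_one hd]
      linarith
    calc Pr m t s * (1 - (m : ℝ) / ((s : ℝ) - t + m))
        ≤ Real.exp (-(t * (m / ((s : ℝ) + m)))) * Real.exp (-(m / ((s : ℝ) + m))) :=
          mul_le_mul h1 h2 h5 (Real.exp_nonneg _)
      _ = Real.exp (-(((t + 1 : ℕ) : ℝ) * (m / ((s : ℝ) + m)))) := by
          rw [← Real.exp_add]
          congr 1
          push_cast
          ring

theorem AA_ratio (m s t j : ℕ) (h : (j + 1) * t ≤ s) :
    AA (m + 1) s t (j + 1) / AA (m + 1) s t j = Pr m t (s - j * t) := by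
  unfold AA Pr
  have h1 : s - (j + 1) * t = s - j * t - t := by
    have : (j + 1) * t = j * t + t := by ring
    omega
  rw [h1]

end Pool.Agent.Lib_helper56.UB
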