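import Mathlib

/-!
# Vectors of nonnegative integers with a given sum, and sets closed under decreasing coordinates
-/

set_option autoImplicit false

namespace Pool.Agent.Lib_helper56.UB

open Finset

variable {k : ℕ}

/-- The vectors in `ℕ ^ k` with the sum `j`. -/
def Dl (k j : ℕ) : Finset (Fin k → ℕ) := Finset.piAntidiag Finset.univ j

theorem mem_Dl {j : ℕ} {v : Fin k → ℕ} : v ∈ Dl k j ↔ ∑ i, v i = j := by
  simp [Dl]

/-- The number of the vectors. -/
def Nn (k j : ℕ) : ℕ := (Dl k j).card

theorem Nn_eq (k j : ℕ) : Nn k j = (k + j - 1).choose j := by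
  unfold Nn Dl
  rw [← Finset.map_sym_eq_piAntidiag, Finset.card_map, Finset.sym_univ, Finset.card_univ,
    Sym.card_sym_eq_choose, Fintype.card_fin]

theorem Nn_succ_left (m s : ℕ) : Nn (m + 1) s = (m + s).choose s := by
  rw [Nn_eq]
  congr 1
  omega

theorem Nn_rec (hk : 0 < k) (j : ℕ) : (j + 1) * Nn k (j + 1) = (j + k) * Nn k j := by
  rw [Nn_eq, Nn_eq]
  obtain ⟨m, rfl⟩ : ∃ m, k = m + 1 := ⟨k - 1, by omega⟩
  have h1 : m + 1 + (j + 1) - 1 = (m + j) + 1 := by omega
  have h2 : m + 1 + j - 1 = m + j := by omega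
  rw [h1, h2]
  have h := Nat.add_one_mul_choose_eq (m + j) j
  have h3 : j + (m + 1) = m + j + 1 := by omega
  rw [h3, h]
  ring

theorem Nn_pos (hk : 0 < k) (j : ℕ) : 0 < Nn k j := by
  rw [Nn_eq]
  exact Nat.choose_pos (by omega)

theorem Nn_le_succ (hk : 0 < k) (j : ℕ) : Nn k j ≤ Nn k (j + 1) := by
  have h := Nn_rec hk j
  have h1 : (j + 1) * Nn k j ≤ (j + 1) * Nn k (j + 1) := by
    rw [h]
    exact Nat.mul_le_mul_right _ (by omega)
  exact Nat.le_of_mul_le_mul_left h1 (by omega)

theorem Nn_mono (hk : 0 < k) : Monotone (Nn k) := monotone_nat_of_le_succ (Nn_le_succ hk)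

/-- The set is closed under decreasing a coordinate. -/
def DC (V : Set (Fin k → ℕ)) : Prop :=
  ∀ v : Fin k → ℕ, ∀ i, v + Pi.single i 1 ∈ V → v ∈ V

open Classical in
/-- The elements of `V` with the sum `j`. -/
noncomputable def lev (V : Set (Fin k → ℕ)) (j : ℕ) : Finset (Fin k → ℕ) :=
  (Dl k j).filter (· ∈ V)

theorem mem_lev {V : Set (Fin k → ℕ)} {j : ℕ} {v : Fin k → ℕ} :
    v ∈ lev V j ↔ ∑ i, v i = j ∧ v ∈ V := by
  classical
  simp [lev, mem_Dl]

theorem sum_add_single (v : Fin k → ℕ) (i : Fin k) (t : ℕ) :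
    ∑ l, (v + Pi.single i t : Fin k → ℕ) l = ∑ l, v l + t := by
  simp [Finset.sum_add_distrib]

/-- Every vector with `v i ≥ t` is `w + t e_i`. -/
theorem exists_sub {v : Fin k → ℕ} {i : Fin k} {t : ℕ} (h : t ≤ v i) :
    ∃ w : Fin k → ℕ, w + Pi.single i t = v := by
  refine ⟨v - Pi.single i t, ?_⟩
  apply tsub_add_cancel_of_le
  intro l
  by_cases hl : l = i
  · subst hl
    simpa using h
  · simp [hl]

theorem mono_step {V : Set (Fin k → ℕ)} (hV : DC V) (j : ℕ) :
    (j + 1) * (lev V (j + 1)).card ≤ (j + k) * (lev V j).card := by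
  classical
  have h1 : (j + 1) * (lev V (j + 1)).card = ∑ i, ∑ v ∈ lev V (j + 1), v i := by
    rw [Finset.sum_comm, Finset.sum_congr rfl fun v hv => (mem_lev.1 hv).1, Finset.sum_const,
      smul_eq_mul, mul_comm]
  have h2 : (j + k) * (lev V j).card = ∑ i, ∑ v ∈ lev V j, (v i + 1) := by
    rw [Finset.sum_comm]
    have h3 : ∀ v ∈ lev V j, ∑ i, (v i + 1) = j + k := by
      intro v hv
      rw [Finset.sum_add_distrib, (mem_lev.1 hv).1]
      simp
    rw [Finset.sum_congr rfl h3, Finset.sum_const, smul_eq_mul, mul_comm]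
  rw [h1, h2]
  refine Finset.sum_le_sum fun i _ => ?_
  have h4 : ∑ v ∈ lev V j, (v i + 1) =
      ∑ v ∈ (lev V j).map (addRightEmbedding (Pi.single i 1)), v i := by
    rw [Finset.sum_map]
    refine Finset.sum_congr rfl fun v _ => ?_
    simp
  rw [h4, ← Finset.sum_filter_ne_zero (s := lev V (j + 1))]
  refine Finset.sum_le_sum_of_subset ?_
  intro v hv
  rw [Finset.mem_filter] at hv
  obtain ⟨hv1, hv2⟩ := hv
  obtain ⟨w, rfl⟩ := exists_sub (v := v) (i := i) (t := 1) (by omega)
  rw [Finset.mem_map]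
  refine ⟨w, ?_, by simp⟩
  rw [mem_lev] at hv1 ⊢
  refine ⟨?_, hV w i hv1.2⟩
  have h5 := hv1.1
  rw [sum_add_single] at h5
  omega

/-- The density of a closed set decreases. -/
theorem mono {V : Set (Fin k → ℕ)} (hV : DC V) (hk : 0 < k) {j J : ℕ} (h : j ≤ J) :
    (lev V J).card * Nn k j ≤ (lev V j).card * Nn k J := by
  induction J, h using Nat.le_induction with
  | base => exact le_rfl
  | succ J hJ ih =>
    have h1 := mono_step hV J
    have h2 := Nn_rec hk J
    have h3 : (J + 1) * ((lev V (J + 1)).card * Nn k j) ≤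
        (J + 1) * ((lev V j).card * Nn k (J + 1)) := by
      calc (J + 1) * ((lev V (J + 1)).card * Nn k j)
          = ((J + 1) * (lev V (J + 1)).card) * Nn k j := by ring
        _ ≤ ((J + k) * (lev V J).card) * Nn k j := Nat.mul_le_mul_right _ h1
        _ = (J + k) * ((lev V J).card * Nn k j) := by ring
        _ ≤ (J + k) * ((lev V j).card * Nn k J) := Nat.mul_le_mul_left _ ih
        _ = (lev V j).card * ((J + k) * Nn k J) := by ring
        _ = (lev V j).card * ((J + 1) * Nn k (J + 1)) := by rw [h2]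
        _ = (J + 1) * ((lev V j).card * Nn k (J + 1)) := by ring
    exact Nat.le_of_mul_le_mul_left h3 (by omega)

/-! ### vectors with many small coordinates -/

/-- The coordinates in `I` are smaller than `t`. -/
def sml (t : ℕ) (I : Finset (Fin k)) : Set (Fin k → ℕ) := {v | ∀ i ∈ I, v i < t}

theorem sml_DC (t : ℕ) (I : Finset (Fin k)) : DC (sml t I) := by
  intro v i hv l hl
  have h := hv l hl
  rw [Pi.add_apply] at h
  omega

theorem lev_empty (t j : ℕ) : (lev (sml t (∅ : Finset (Fin k))) j).card = Nn k j := by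
  unfold Nn
  congr 1
  ext v
  rw [mem_lev, mem_Dl]
  simp [sml]

theorem lev_insert (t j : ℕ) (I : Finset (Fin k)) {i : Fin k} (hi : i ∉ I) :
    (lev (sml t (insert i I)) (j + t)).card + (lev (sml t I) j).card =
      (lev (sml t I) (j + t)).card := by
  classical
  have h1 : lev (sml t (insert i I)) (j + t) = (lev (sml t I) (j + t)).filter (fun v => v i < t) := by
    ext v
    rw [Finset.mem_filter, mem_lev, mem_lev]
    simp only [sml, Set.mem_ofPred_eq, Finset.mem_insert, forall_eq_or_imp]
    tauto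
  have h2 : (lev (sml t I) j).map (addRightEmbedding (Pi.single i t)) =
      (lev (sml t I) (j + t)).filter (fun v => ¬ v i < t) := by
    ext v
    rw [Finset.mem_map, Finset.mem_filter]
    constructor
    · rintro ⟨w, hw, rfl⟩
      rw [mem_lev] at hw
      rw [mem_lev]
      change (∑ l, (w + Pi.single i t : Fin k → ℕ) l = j + t ∧ w + Pi.single i t ∈ sml t I) ∧
        ¬ (w + Pi.single i t : Fin k → ℕ) i < t
      refine ⟨⟨?_, ?_⟩, ?_⟩
      · rw [sum_add_single, hw.1]
      · intro l hl
        have hli : l ≠ i := fun h => hi (h ▸ hl)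
        have := hw.2 l hl
        simpa [hli] using this
      · simp
    · rintro ⟨hv, hvi⟩
      obtain ⟨w, rfl⟩ := exists_sub (v := v) (i := i) (t := t) (by omega)
      refine ⟨w, ?_, by simp⟩
      rw [mem_lev] at hv ⊢
      obtain ⟨hv1, hv2⟩ := hv
      rw [sum_add_single] at hv1
      refine ⟨by omega, ?_⟩
      intro l hl
      have := hv2 l hl
      rw [Pi.add_apply] at this
      omega
  rw [h1, ← Finset.card_map (addRightEmbedding (Pi.single i t)) (s := lev (sml t I) j), h2]
  exact Finset.card_filter_add_card_filter_not _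

/-- The density of the vectors with small coordinates in `I`. -/
theorem lev_sml_le (hk : 0 < k) (t j : ℕ) (I : Finset (Fin k)) :
    ((lev (sml t I) (j + t)).card : ℝ) ≤
      (1 - (Nn k j : ℝ) / Nn k (j + t)) ^ I.card * Nn k (j + t) := by
  classical
  have hN : (0 : ℝ) < Nn k (j + t) := by exact_mod_cast Nn_pos hk _
  induction I using Finset.induction_on with
  | empty => simp [lev_empty]
  | insert i I hi ih =>
    have h1 := lev_insert t j I hi
    have h2 := mono (sml_DC t I) hk (Nat.le_add_right j t)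
    have h1' : ((lev (sml t (insert i I)) (j + t)).card : ℝ) + (lev (sml t I) j).card =
        (lev (sml t I) (j + t)).card := by exact_mod_cast h1
    have h2' : ((lev (sml t I) (j + t)).card : ℝ) * Nn k j ≤
        (lev (sml t I) j).card * Nn k (j + t) := by exact_mod_cast h2
    have h3 : ((lev (sml t I) (j + t)).card : ℝ) * (Nn k j / Nn k (j + t)) ≤
        (lev (sml t I) j).card := by
      rw [← mul_div_assoc, div_le_iff₀ hN]
      exact h2'
    have h4 : 0 ≤ 1 - (Nn k j : ℝ) / Nn k (j + t) := by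
      rw [sub_nonneg, div_le_one hN]
      exact_mod_cast Nn_mono hk (Nat.le_add_right j t)
    rw [Finset.card_insert_of_notMem hi, pow_succ']
    calc ((lev (sml t (insert i I)) (j + t)).card : ℝ)
        ≤ (lev (sml t I) (j + t)).card - (lev (sml t I) (j + t)).card *
          (Nn k j / Nn k (j + t)) := by linarith
      _ = (1 - (Nn k j : ℝ) / Nn k (j + t)) * (lev (sml t I) (j + t)).card := by ring
      _ ≤ (1 - (Nn k j : ℝ) / Nn k (j + t)) *
          ((1 - (Nn k j : ℝ) / Nn k (j + t)) ^ I.card * Nn k (j + t)) :=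
        mul_le_mul_of_nonneg_left ih h4
      _ = _ := by ring

end Pool.Agent.Lib_helper56.UB
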