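import Pool.Agent.Lib_helper56.UB.Simplex

/-!
# The number of vectors with many small coordinates
-/

set_option autoImplicit false

namespace Pool.Agent.Lib_helper56.UB

open Finset

variable {k : ℕ}

/-- The number of the coordinates smaller than `t`. -/
def Zn (t : ℕ) (v : Fin k → ℕ) : ℕ := (Finset.univ.filter fun i => v i < t).card

theorem sum_choose_Zn (t l j : ℕ) :
    ∑ v ∈ Dl k j, (Zn t v).choose l =
      ∑ I ∈ Finset.powersetCard l (Finset.univ : Finset (Fin k)), (lev (sml t I) j).card := by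
  classical
  have h1 : ∀ v : Fin k → ℕ, (Zn t v).choose l =
      ∑ I ∈ Finset.powersetCard l (Finset.univ : Finset (Fin k)), if v ∈ sml t I then 1 else 0 := by
    intro v
    rw [Finset.sum_boole, Zn, ← Finset.card_powersetCard, Nat.cast_id]
    congr 1
    ext I
    rw [Finset.mem_powersetCard, Finset.mem_filter, Finset.mem_powersetCard]
    constructor
    · rintro ⟨h2, h3⟩
      exact ⟨⟨Finset.subset_univ _, h3⟩, fun i hi => (Finset.mem_filter.1 (h2 hi)).2⟩
    · rintro ⟨⟨_, h3⟩, h4⟩
      exact ⟨fun i hi => Finset.mem_filter.2 ⟨Finset.mem_univ _, h4 i hi⟩, h3⟩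
  rw [Finset.sum_congr rfl fun v _ => h1 v, Finset.sum_comm]
  refine Finset.sum_congr rfl fun I _ => ?_
  rw [Finset.sum_boole, Nat.cast_id]
  congr 1

theorem tail (hk : 0 < k) (t j l r : ℕ) :
    (((Dl k (j + t)).filter fun v => r ≤ Zn t v).card : ℝ) * (r.choose l : ℝ) ≤
      (k.choose l : ℝ) * ((1 - (Nn k j : ℝ) / Nn k (j + t)) ^ l * Nn k (j + t)) := by
  classical
  have h1 : (((Dl k (j + t)).filter fun v => r ≤ Zn t v).card : ℝ) * (r.choose l : ℝ) ≤
      ((∑ v ∈ Dl k (j + t), (Zn t v).choose l : ℕ) : ℝ) := by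
    have h2 : ((Dl k (j + t)).filter fun v => r ≤ Zn t v).card * r.choose l ≤
        ∑ v ∈ Dl k (j + t), (Zn t v).choose l := by
      calc ((Dl k (j + t)).filter fun v => r ≤ Zn t v).card * r.choose l
          = ∑ v ∈ (Dl k (j + t)).filter (fun v => r ≤ Zn t v), r.choose l := by
            rw [Finset.sum_const, smul_eq_mul]
        _ ≤ ∑ v ∈ (Dl k (j + t)).filter (fun v => r ≤ Zn t v), (Zn t v).choose l :=
            Finset.sum_le_sum fun v hv => Nat.choose_le_choose l (Finset.mem_filter.1 hv).2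
        _ ≤ ∑ v ∈ Dl k (j + t), (Zn t v).choose l :=
            Finset.sum_le_sum_of_subset (Finset.filter_subset _ _)
    exact_mod_cast h2
  refine h1.trans ?_
  rw [sum_choose_Zn]
  push_cast
  calc ∑ I ∈ Finset.powersetCard l (Finset.univ : Finset (Fin k)),
        ((lev (sml t I) (j + t)).card : ℝ)
      ≤ ∑ I ∈ Finset.powersetCard l (Finset.univ : Finset (Fin k)),
        ((1 - (Nn k j : ℝ) / Nn k (j + t)) ^ l * Nn k (j + t)) := by
        refine Finset.sum_le_sum fun I hI => ?_
        have h2 := lev_sml_le hk t j I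
        rw [(Finset.mem_powersetCard.1 hI).2] at h2
        exact h2
    _ = _ := by
        rw [Finset.sum_const, Finset.card_powersetCard, Finset.card_univ, Fintype.card_fin,
          nsmul_eq_mul]

end Pool.Agent.Lib_helper56.UB
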